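import Pool.Agent.Work.MP_84019e_co.Str.Rob
import Pool.Agent.Work.MP_84019e_co.Cube.UpMain
import Pool.Agent.Work.MP_84019e_co.Cube.OneCube

-- merged part: Pool.Agent.Work.MP_84019e_co.Sg.Defs
section
set_option autoImplicit false

namespace Pool.Agent.Work.MP_84019e_co.Sg

open Finset Pool.Agent.Work.MP_84019e_co.Cube Pool.Agent.Work.MP_84019e_co.Str

/-- No copy of `P` in which every comparison is strict. -/
def StrictFree (P : Type) [PartialOrder P] {D : ℕ} (S : Finset (Fin D → ℤ)) : Prop :=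
  ¬ ∃ f : P → Fin D → ℤ, (∀ p, f p ∈ S) ∧ (∀ p q, p < q → ∀ l, f p l < f q l) ∧
    ∀ p q, ¬ p ≤ q → ∃ l, f q l < f p l

/-- All coordinates divided by `g`. -/
def ctr {D : ℕ} (g : ℕ) (S : Finset (Fin D → ℤ)) : Finset (Fin D → ℤ) :=
  S.image fun x l => x l / (g : ℤ)

/-- The extremal number for strong `P`-free families of integer points. -/
noncomputable def GS (P : Type) [PartialOrder P] (d k : ℕ) : ℕ :=
  sSup {n | ∃ F : Finset (Fin d → ℤ), F ⊆ box d k ∧ StrongFree P F ∧ F.card = n}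

open Classical in
/-- Corners of unit cubes that meet `F`. -/
noncomputable def nbr {D : ℕ} (k : ℕ) (F : Finset (Fin D → ℤ)) : Finset (Fin D → ℤ) :=
  (box D k).filter fun x => ∃ y ∈ F, ∀ l, x l ≤ y l ∧ y l ≤ x l + 1

open Classical in
/-- The typical members of `F`. -/
noncomputable def typ {D : ℕ} (k : ℕ) (δ : ℝ) (F : Finset (Fin D → ℤ)) : Finset (Fin D → ℤ) :=
  F.filter fun z => ¬ Atyp k δ z

/-- Points above a chain of `j` points that show the patterns `a 0`, ..., `a (j - 1)` on `W`. -/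
def UG {D r : ℕ} (F : Finset (Fin D → ℤ)) (a : ℕ → B r) (W : Fin r → Fin D) :
    ℕ → (Fin D → ℤ) → Prop
  | 0, _ => True
  | j + 1, z => ∃ z', z' ≤ z ∧ (∀ i, z' (W i) = z (W i)) ∧ UG F a W j z' ∧
      pt ((z', W) : Pc D r) (a j) ∈ F

/-- The patterns cannot all be shown. -/
def Top {D r : ℕ} (F : Finset (Fin D → ℤ)) (a : ℕ → B r) : Prop :=
  ∀ W : Fin r → Fin D, Function.Injective W → ∀ z, ¬ UG F a W r z

/-- The cube on the first `n` directions. -/
def lo {D n r : ℕ} (p : Pc D (n + r)) : Pc D n := (p.1, fun i => p.2 (Fin.castAdd r i))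

/-- The last `r` directions. -/
def hiW {D n r : ℕ} (p : Pc D (n + r)) : Fin r → Fin D := fun i => p.2 (Fin.natAdd n i)

/-- The same cube with the directions in another order. -/
def rot {D L : ℕ} (p : Pc D L) (σ : Pm L) : Pc D L := (p.1, fun i => p.2 (σ i))

/-- A permutation of the first `n` positions. -/
def ext {n : ℕ} (r : ℕ) (π : Pm n) : Pm (n + r) :=
  finSumFinEquiv.permCongr (Equiv.sumCongr π (Equiv.refl (Fin r)))

/-- The clipped up-sets of a piece. -/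
def VG {D n r : ℕ} (F : Finset (Fin D → ℤ)) (a : ℕ → B r) (w : ℕ) (p : Pc D (n + r)) (j : ℕ)
    (A : B n) : Prop :=
  j < r ∧ ((w ≤ A.card ∧ UG F a (hiW p) (j + 1) (pt (lo p) A)) ∨ n < A.card + w)

/-- The chain of the piece enters up-set `j` between steps `u` and `v`. -/
def Cr {D n r : ℕ} (F : Finset (Fin D → ℤ)) (a : ℕ → B r) (p : Pc D (n + r)) (j u v : ℕ) : Prop :=
  ¬ UG F a (hiW p) (j + 1) (pt p (init (n + r) u)) ∧ UG F a (hiW p) (j + 1) (pt p (init (n + r) v))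

open Classical in
/-- The pieces that cross an up-set. -/
noncomputable def rel {D : ℕ} (n r k : ℕ) (δ : ℝ) (F : Finset (Fin D → ℤ)) (a : ℕ → B r) :
    Finset (Pc D (n + r)) :=
  (pcs D (n + r) k δ).filter fun p => ∃ j < r, Cr F a p j 0 n

noncomputable def NB {n r : ℕ} (H : Finset (B (n + r))) (s s' : ℕ) : ℝ :=
  ∑ k ∈ range (n + r + 1), av fun π : Pm (n + r) => ind (Ev H s π k ∧
    Bad r H (ch π (k - s')) (ch π (k + s')) fun i => π (Fin.natAdd n i))

/-- The bound for the weight of the pieces that cross at one step. -/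
noncomputable def Om (m L k : ℕ) (δ : ℝ) : ℝ :=
  (((m : ℝ) + 1) * (k : ℝ) ^ 2 * (1 / 6 + 4 * δ)) ^ L * G (Fin 2) (m + 1) k

/-- The conditions on the dimension and on the side. -/
structure Par (m L k : ℕ) (δ : ℝ) : Prop where
  pos : 0 < δ
  small : δ ≤ 1 / 20
  dim : 36 ≤ δ ^ 6 * ((m : ℝ) + 1)
  len : (L : ℝ) ≤ 2 * δ * ((m : ℝ) + 1)
  sq : (L : ℝ) * δ ^ 2 ≤ 1
  side : 2 ≤ δ * k

/-- Step `u` of `g` is below step `u'` of `g'`, and the directions from position `c` on are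
frozen. -/
def blw {D L : ℕ} (c : ℕ) (g : Pc D L) (u : ℕ) (g' : Pc D L) (u' : ℕ) : Prop :=
  (∀ i : Fin L, c ≤ i.val → g.2 i = g'.2 i ∧ g.1 (g.2 i) = g'.1 (g.2 i)) ∧
    pt g (init L u) ≤ pt g' (init L u')

/-- The tail statistic of one piece. -/
noncomputable def z1 {D n r : ℕ} (F : Finset (Fin D → ℤ)) (a : ℕ → B r) (w s : ℕ)
    (p : Pc D (n + r)) (t : ℕ) : ℝ :=
  zs r (pH F w (lo p)) (VG F a (w / 2) p) s t +
    ∑ j ∈ range r, (Y (VG F a (w / 2) p j) t - Y (VG F a (w / 2) p j) (t + 1))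

/-- The mean tail statistic. -/
noncomputable def zz {m : ℕ} (n r k : ℕ) (δ : ℝ) (F : Finset (Fin (m + 1) → ℤ)) (a : ℕ → B r)
    (w s t : ℕ) : ℝ :=
  (∑ p ∈ rel n r k δ F a, pb k p * z1 F a w s p t) / (r * (n * Om m (n + r) k δ))

/-- The marked mass. -/
noncomputable def mass {m : ℕ} (n r k : ℕ) (δ : ℝ) (F : Finset (Fin (m + 1) → ℤ)) (a : ℕ → B r)
    (w s : ℕ) : ℝ :=
  ∑ p ∈ rel n r k δ F a, pb k p * lamM r (pH F w (lo p)) (VG F a (w / 2) p) s

/-- A source in the grid. -/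
structure Gr (P : Type) [PartialOrder P] (r m n w k t : ℕ) (δ lam : ℝ)
    (F : Finset (Fin (m + 1) → ℤ)) : Prop where
  par : Par m (n + r) k δ
  sub : F ⊆ box (m + 1) k
  free : StrongFree P F
  two : 2 * w ≤ n
  tw : 6 * r ^ 2 * t + r ≤ w
  few : (1 - 1 / 12 ^ r) ^ t * (((n : ℝ) + r + 1) * (nbr k F).card) ≤ n * G (Fin 2) (m + 1) k
  big : lam * (n * Om m (n + r) k δ) ≤ ((n : ℝ) - 2 * w + 1) * (typ k δ F).card *
    (((m : ℝ) + 1) * (k : ℝ) ^ 2 * (1 / 6 - 2 * δ)) ^ (n + r)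

/-- The value of a block. -/
noncomputable def bv {D n : ℕ} (q : Pr) (σ η : ℝ) (F : Finset (Fin D → ℤ)) (a : ℕ → B q.r)
    (w : ℕ) (b : Pc D (n + q.r) × Pm n × ℕ) : ℝ :=
  av fun z : Fin q.d => max (vl q σ η (pH F w (lo b.1)) (VG F a (w / 2) b.1) b.2.2 z b.2.1) 0

/-- The order of the blocks. -/
def bl {D n : ℕ} (q : Pr) (b b' : Pc D (n + q.r) × Pm n × ℕ) : Prop :=
  blw (n - q.d) (rot b.1 (ext q.r b.2.1)) (b.2.2 + q.l) (rot b'.1 (ext q.r b'.2.1)) b'.2.2

end Pool.Agent.Work.MP_84019e_co.Sg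
end

-- merged part: Pool.Agent.Work.MP_84019e_co.Sg.Rot
section
set_option autoImplicit false

namespace Pool.Agent.Work.MP_84019e_co.Sg

open Finset Pool.Agent.Work.MP_84019e_co.Cube Pool.Agent.Work.MP_84019e_co.Str
open Filter Topology

variable {D L n r k : ℕ} {δ : ℝ}

lemma rot_pt_of {L' : ℕ} {p : Pc D L} {p' : Pc D L'} {A : B L} {A' : B L'} (h1 : p.1 = p'.1)
    (h2 : ∀ l, (∃ i ∈ A, p.2 i = l) ↔ ∃ i ∈ A', p'.2 i = l) : pt p A = pt p' A' := by
  funext l
  simp only [pt, h1, h2]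

lemma pt_rot (p : Pc D L) (σ : Pm L) (A : B L) : pt (rot p σ) A = pt p (img σ A) := by
  refine rot_pt_of rfl fun l => ⟨?_, ?_⟩
  · rintro ⟨i, hi, e⟩
    exact ⟨σ i, mem_img.2 (by simpa using hi), e⟩
  · rintro ⟨i, hi, e⟩
    exact ⟨σ.symm i, mem_img.1 hi, by simpa [rot] using e⟩

lemma rot_inj {p : Pc D L} (h : Function.Injective p.2) (σ : Pm L) :
    Function.Injective (rot p σ).2 :=
  h.comp σ.injective

lemma rot_mem {p : Pc D L} (σ : Pm L) (h : p ∈ pcs D L k δ) : rot p σ ∈ pcs D L k δ := by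
  obtain ⟨h1, h2, h3, h4⟩ := mem_pcs.1 h
  exact mem_pcs.2 ⟨h1, rot_inj h2 σ, h3, fun i => h4 (σ i)⟩

lemma pb_rot (p : Pc D L) (σ : Pm L) : pb k (rot p σ) = pb k p :=
  Equiv.prod_comp σ fun i => lam k (p.1 (p.2 i) + 1)

lemma pb_nonneg {p : Pc D L} (h : p ∈ pcs D L k δ) : 0 ≤ pb k p := by
  obtain ⟨h1, -, -, h4⟩ := mem_pcs.1 h
  refine prod_nonneg fun i _ => gsa_lam0 ?_ (h4 i)
  have := (mem_box.1 h1 (p.2 i)).1
  omega

lemma rot_rot_inv (p : Pc D L) (σ : Pm L) : rot (rot p σ) σ⁻¹ = p := by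
  simp [rot]

lemma rot_inv_rot (p : Pc D L) (σ : Pm L) : rot (rot p σ⁻¹) σ = p := by
  simp [rot]

lemma rot_left_inj (σ : Pm L) : Function.Injective fun p : Pc D L => rot p σ :=
  Function.LeftInverse.injective (g := fun p => rot p σ⁻¹) fun p => rot_rot_inv p σ

lemma sum_rot (σ : Pm L) (f : Pc D L → ℝ) :
    ∑ p ∈ pcs D L k δ, pb k p * f (rot p σ) = ∑ p ∈ pcs D L k δ, pb k p * f p :=
  sum_nbij' (fun p => rot p σ) (fun p => rot p σ⁻¹) (fun _ h => rot_mem σ h)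
    (fun _ h => rot_mem σ⁻¹ h) (fun p _ => rot_rot_inv p σ) (fun p _ => rot_inv_rot p σ)
    fun p _ => by rw [pb_rot]

lemma sum_rot_av {Ω : Type} [Fintype Ω] [Nonempty Ω] (σ : Ω → Pm L) (f : Pc D L → ℝ) :
    ∑ p ∈ pcs D L k δ, pb k p * (av fun ω => f (rot p (σ ω))) =
      ∑ p ∈ pcs D L k δ, pb k p * f p := by
  simp only [← av_mul_left]
  rw [← av_sum]
  simp only [sum_rot]
  exact av_const _

lemma ext_castAdd (π : Pm n) (i : Fin n) : ext r π (Fin.castAdd r i) = Fin.castAdd r (π i) := by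
  simp [ext]

lemma ext_natAdd (π : Pm n) (i : Fin r) : ext r π (Fin.natAdd n i) = Fin.natAdd n i := by
  simp [ext]

lemma lo_rot (p : Pc D (n + r)) (π : Pm n) : lo (rot p (ext r π)) = rot (lo p) π := by
  simp only [lo, rot, ext_castAdd]

lemma hiW_rot (p : Pc D (n + r)) (π : Pm n) : hiW (rot p (ext r π)) = hiW p := by
  funext i
  simp only [hiW, rot, ext_natAdd]

lemma lo_inj {p : Pc D (n + r)} (h : Function.Injective p.2) : Function.Injective (lo p).2 :=
  h.comp (Fin.castAdd_injective n r)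

lemma hiW_inj {p : Pc D (n + r)} (h : Function.Injective p.2) : Function.Injective (hiW p) :=
  h.comp (Fin.natAdd_injective r n)

lemma pt_lo_init (p : Pc D (n + r)) {u : ℕ} (hu : u ≤ n) :
    pt (lo p) (init n u) = pt p (init (n + r) u) := by
  refine rot_pt_of rfl fun l => ⟨?_, ?_⟩
  · rintro ⟨i, hi, e⟩
    have hi' := mem_init.1 hi
    exact ⟨Fin.castAdd r i, mem_init.2 hi', e⟩
  · rintro ⟨i, hi, e⟩
    have hi' := mem_init.1 hi
    exact ⟨⟨i.val, by omega⟩, mem_init.2 hi', e⟩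

lemma pt_ext_init (p : Pc D (n + r)) (π : Pm n) {u : ℕ} (hu : u ≤ n) :
    pt (rot p (ext r π)) (init (n + r) u) = pt (lo p) (ch π u) := by
  rw [← pt_lo_init _ hu, lo_rot, pt_rot, ch]

lemma pt_lo_hiW {p : Pc D (n + r)} (h : Function.Injective p.2) (A : B n) (i : Fin r) :
    pt (lo p) A (hiW p i) = p.1 (hiW p i) := by
  have : ¬ ∃ j ∈ A, (lo p).2 j = hiW p i := by
    rintro ⟨j, -, e⟩
    have e1 := congrArg Fin.val (h e)
    have := j.2
    simp only [Fin.val_castAdd, Fin.val_natAdd] at e1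
    omega
  simp only [pt, if_neg this, add_zero]
  rfl

lemma pt_init_hiW {p : Pc D (n + r)} (h : Function.Injective p.2) {u : ℕ} (hu : u ≤ n)
    (i : Fin r) : pt p (init (n + r) u) (hiW p i) = p.1 (hiW p i) := by
  rw [← pt_lo_init p hu, pt_lo_hiW h]

lemma pH_mid (F : Finset (Fin D → ℤ)) {w w' : ℕ} (h : w' ≤ w) (p : Pc D L) :
    Mid (pH F w p) w' := by
  intro A hA
  obtain ⟨h1, h2, -⟩ := mem_pH.1 hA
  exact ⟨by omega, by omega⟩

end Pool.Agent.Work.MP_84019e_co.Sg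
end

-- merged part: Pool.Agent.Work.MP_84019e_co.Sg.Ug
section
set_option autoImplicit false

namespace Pool.Agent.Work.MP_84019e_co.Sg

open Finset Pool.Agent.Work.MP_84019e_co.Cube Pool.Agent.Work.MP_84019e_co.Str
open Filter Topology

variable {D n r : ℕ} {F : Finset (Fin D → ℤ)} {a : ℕ → B r}

lemma UG_mono {W : Fin r → Fin D} {z z' : Fin D → ℤ} (h : z ≤ z') (hW : ∀ i, z (W i) = z' (W i))
    (j : ℕ) : UG F a W j z → UG F a W j z' := by
  cases j with
  | zero => exact fun _ => trivial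
  | succ j =>
    rintro ⟨y, h1, h2, h3, h4⟩
    exact ⟨y, h1.trans h, fun i => (h2 i).trans (hW i), h3, h4⟩

lemma UG_succ {W : Fin r → Fin D} {z : Fin D → ℤ} (j : ℕ) :
    UG F a W (j + 1) z → UG F a W j z := by
  rintro ⟨y, h1, h2, h3, -⟩
  exact UG_mono h1 h2 j h3

lemma ug_chain {W : Fin r → Fin D} (j : ℕ) : ∀ z : Fin D → ℤ, UG F a W j z →
    ∃ c : ℕ → Fin D → ℤ, (∀ i < j, c i ≤ z ∧ (∀ l, c i (W l) = z (W l)) ∧
      pt ((c i, W) : Pc D r) (a i) ∈ F) ∧ ∀ i i', i ≤ i' → i' < j → c i ≤ c i' := by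
  induction j with
  | zero => exact fun z _ => ⟨fun _ => z, fun i hi => absurd hi (by omega), fun _ _ _ _ => le_rfl⟩
  | succ j ih =>
    rintro z ⟨y, h1, h2, h3, h4⟩
    obtain ⟨c, c1, c2⟩ := ih y h3
    refine ⟨fun i => if i < j then c i else y, fun i hi => ?_, fun i i' hi hi' => ?_⟩
    · by_cases h : i < j
      · simp only [if_pos h]
        exact ⟨(c1 i h).1.trans h1, fun l => ((c1 i h).2.1 l).trans (h2 l), (c1 i h).2.2⟩
      · have e : i = j := by omega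
        simp only [if_neg h]
        exact ⟨h1, h2, e ▸ h4⟩
    · by_cases h : i' < j
      · have h' : i < j := by omega
        simp only [if_pos h, if_pos h']
        exact c2 i i' hi h
      · by_cases h' : i < j
        · simp only [if_neg h, if_pos h']
          exact (c1 i h').1
        · simp only [if_neg h, if_neg h']
          exact le_rfl

lemma ug_pt_le {W : Fin r → Fin D} {x y : Fin D → ℤ} {A A' : B r} (h : x ≤ y) (hA : A ⊆ A') :
    pt ((x, W) : Pc D r) A ≤ pt ((y, W) : Pc D r) A' := by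
  refine le_trans (fun l => ?_) (pt_mono ((y, W) : Pc D r) hA)
  exact add_le_add (h l) le_rfl

/-- Paper, ST: the down-sets of `P` along a linear extension cannot all be shown. -/
theorem exists_top (P : Type) [PartialOrder P] [Fintype P] {r : ℕ} (hr : Fintype.card P = r) :
    ∃ a : ℕ → B r, ∀ (D : ℕ) (F : Finset (Fin D → ℤ)), StrongFree P F → Top F a := by
  classical
  have : Fintype (LinearExtension P) := inferInstanceAs (Fintype P)
  have hcard0 : Fintype.card (LinearExtension P) = Fintype.card P :=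
    Fintype.card_congr (Equiv.refl P)
  have hcard : Fintype.card (LinearExtension P) = r := hcard0.trans hr
  let e := monoEquivOfFin (LinearExtension P) hcard
  obtain ⟨g, gi, gm⟩ : ∃ g : P → Fin r, Function.Injective g ∧ Monotone g :=
    ⟨fun p => e.symm (toLinearExtension p), fun p q h => e.symm.injective h,
      fun p q h => e.symm.monotone (toLinearExtension.monotone h)⟩
  refine ⟨fun j => univ.filter fun i => ∃ p q : P, g p = i ∧ (g q).val = j ∧ p ≤ q, ?_⟩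
  intro D F hF W hW z hz
  obtain ⟨c, c1, c2⟩ := ug_chain r z hz
  have key : ∀ p q : P, p ≤ q ↔
      pt ((c (g p), W) : Pc D r)
          (univ.filter fun i => ∃ p' q' : P, g p' = i ∧ (g q').val = (g p).val ∧ p' ≤ q') ≤
        pt ((c (g q), W) : Pc D r)
          (univ.filter fun i => ∃ p' q' : P, g p' = i ∧ (g q').val = (g q).val ∧ p' ≤ q') := by
    intro p q
    constructor
    · intro h
      refine ug_pt_le (c2 _ _ (gm h) (g q).2) fun i hi => ?_
      obtain ⟨p', q', e1, e2, e3⟩ := (mem_filter.1 hi).2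
      have e4 : q' = p := gi (Fin.ext e2)
      exact mem_filter.2 ⟨mem_univ _, p', q, e1, rfl, e3.trans (e4 ▸ h)⟩
    · intro h
      have h1 := h (W (g p))
      have a1 := gsa_pt (p := ((c (g p), W) : Pc D r)) hW
        (univ.filter fun i => ∃ p' q' : P, g p' = i ∧ (g q').val = (g p).val ∧ p' ≤ q') (g p)
      have a2 := gsa_pt (p := ((c (g q), W) : Pc D r)) hW
        (univ.filter fun i => ∃ p' q' : P, g p' = i ∧ (g q').val = (g q).val ∧ p' ≤ q') (g p)
      dsimp only at a1 a2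
      rw [a1, a2, (c1 _ (g p).2).2.1, (c1 _ (g q).2).2.1,
        if_pos (mem_filter.2 ⟨mem_univ _, p, p, rfl, rfl, le_rfl⟩)] at h1
      by_contra hn
      rw [if_neg] at h1
      · have h2 : z (W (g p)) + 1 ≤ z (W (g p)) + 0 := h1
        omega
      · intro hm
        obtain ⟨p', q', e1, e2, e3⟩ := (mem_filter.1 hm).2
        have e4 : q' = q := gi (Fin.ext e2)
        have e5 : p' = p := gi e1
        exact hn (e4 ▸ e5 ▸ e3)
  refine hF ⟨_, fun p q h => ?_, fun p => (c1 _ (g p).2).2.2, key⟩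
  exact le_antisymm ((key p q).2 (le_of_eq h)) ((key q p).2 (le_of_eq h.symm))

lemma VG_sys {p : Pc D (n + r)} (hp : Function.Injective p.2) {w : ℕ} (hw : 2 * w ≤ n) :
    Sys r w (VG F a w p) := by
  refine ⟨fun j hj => ⟨?_, ?_, fun x hx => ⟨hj, Or.inr hx⟩⟩, ?_, fun j x hj h => ?_⟩
  · rintro x y hxy ⟨-, h⟩
    have hc := card_le_card hxy
    refine ⟨hj, ?_⟩
    rcases h with ⟨h1, h2⟩ | h
    · refine Or.inl ⟨by omega, UG_mono (pt_mono (lo p) hxy) (fun i => ?_) _ h2⟩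
      rw [pt_lo_hiW hp, pt_lo_hiW hp]
    · exact Or.inr (by omega)
  · rintro x ⟨-, ⟨h1, -⟩ | h⟩ <;> omega
  · rintro j x ⟨hj, h⟩
    refine ⟨by omega, ?_⟩
    rcases h with ⟨h1, h2⟩ | h
    · exact Or.inl ⟨h1, UG_succ _ h2⟩
    · exact Or.inr h
  · exact absurd h.1 (by omega)

/-- Paper, ST: without a crossing one pattern is missing on the whole interval. -/
lemma bad_of_not_cr (hT : Top F a) {p : Pc D (n + r)} (hp : Function.Injective p.2)
    (σ : Pm (n + r)) (w : ℕ) {u v : ℕ} (huv : u ≤ v) (hv : v ≤ n)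
    (h : ∀ j < r, ¬ Cr F a (rot p σ) j u v) :
    Bad r (pH F w p) (ch σ u) (ch σ v) fun i => σ (Fin.natAdd n i) := by
  classical
  have hout : ∀ t ≤ n, ∀ i : Fin r, σ (Fin.natAdd n i) ∉ ch σ t := by
    intro t ht i hi
    rw [ch, mem_img, Equiv.symm_apply_apply, mem_init, Fin.val_natAdd] at hi
    omega
  refine ⟨σ.injective.comp (Fin.natAdd_injective r n), hout v hv, ?_⟩
  obtain ⟨j, hj, h1, h2⟩ := gsa_cross (n := r)
    (fun j => UG F a (hiW (rot p σ)) j (pt (rot p σ) (init (n + r) u))) trivial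
    (hT _ (hiW_inj (rot_inj hp σ)) _)
  refine ⟨a j, fun y hy ⟨y1, y2⟩ => h j hj ⟨h2, ?_⟩⟩
  rw [pt_rot] at h1 ⊢
  change UG F a _ j (pt p (ch σ u)) at h1
  change UG F a _ (j + 1) (pt p (ch σ v))
  have hZv : y \ (a j).image (fun i => σ (Fin.natAdd n i)) ⊆ ch σ v := by
    intro x hx
    obtain ⟨x1, x2⟩ := mem_sdiff.1 hx
    exact (mem_union.1 (y2 x1)).resolve_right x2
  have hZu : ch σ u ⊆ y \ (a j).image (fun i => σ (Fin.natAdd n i)) := by
    intro x hx
    refine mem_sdiff.2 ⟨y1 (mem_union_left _ hx), fun hm => ?_⟩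
    obtain ⟨i, -, rfl⟩ := mem_image.1 hm
    exact hout u (huv.trans hv) i hx
  have hval : ∀ A : B (n + r), A ⊆ ch σ v → ∀ i : Fin r,
      pt p A (hiW (rot p σ) i) = p.1 (hiW (rot p σ) i) := by
    intro A hA i
    have := gsa_pt hp A (σ (Fin.natAdd n i))
    rw [if_neg fun hm => hout v hv i (hA hm), add_zero] at this
    exact this
  refine ⟨pt p (y \ (a j).image fun i => σ (Fin.natAdd n i)), pt_mono p hZv, fun i => ?_,
    UG_mono (pt_mono p hZu) (fun i => ?_) j h1, ?_⟩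
  · rw [hval _ hZv, hval _ (Subset.refl _)]
  · rw [hval _ hZv, hval _ (hZu.trans hZv)]
  · have e : pt ((pt p (y \ (a j).image fun i => σ (Fin.natAdd n i)), hiW (rot p σ)) : Pc D r)
        (a j) = pt p y := by
      funext l
      by_cases hl : ∃ i ∈ a j, hiW (rot p σ) i = l
      · obtain ⟨i, hi, rfl⟩ := hl
        have b1 := gsa_pt (p := ((pt p (y \ (a j).image fun i => σ (Fin.natAdd n i)),
          hiW (rot p σ)) : Pc D r)) (hiW_inj (rot_inj hp σ)) (a j) i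
        dsimp only at b1
        rw [b1, if_pos hi, hval _ hZv]
        have b2 := gsa_pt hp y (σ (Fin.natAdd n i))
        rw [if_pos (y1 (mem_union_right _ (mem_image_of_mem _ hi)))] at b2
        exact b2.symm
      · have b : (∃ x ∈ y \ (a j).image fun i => σ (Fin.natAdd n i), p.2 x = l) ↔
            ∃ x ∈ y, p.2 x = l := by
          refine ⟨fun ⟨x, hx, e⟩ => ⟨x, (mem_sdiff.1 hx).1, e⟩, fun ⟨x, hx, e⟩ =>
            ⟨x, mem_sdiff.2 ⟨hx, fun hm => ?_⟩, e⟩⟩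
          obtain ⟨i, hi, rfl⟩ := mem_image.1 hm
          exact hl ⟨i, hi, e⟩
        simp only [pt, if_neg hl, add_zero, b]
    rw [e]
    exact (mem_pH.1 hy).2.2

lemma UG_init {p : Pc D (n + r)} (hp : Function.Injective p.2) {j u v : ℕ} (huv : u ≤ v)
    (hv : v ≤ n) : UG F a (hiW p) j (pt p (init (n + r) u)) →
      UG F a (hiW p) j (pt p (init (n + r) v)) := by
  refine UG_mono (pt_mono p (init_mono huv)) (fun i => ?_) j
  rw [pt_init_hiW hp (huv.trans hv), pt_init_hiW hp hv]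

lemma cr_count {p : Pc D (n + r)} (hp : Function.Injective p.2) (j s : ℕ) :
    ∑ k ∈ range (n + r + 1), ind (k + s ≤ n ∧ Cr F a p j (k - s) (k + s)) ≤
      2 * s * ind (Cr F a p j 0 n) := by
  classical
  rw [sum_ind]
  by_cases hc : Cr F a p j 0 n
  · rw [ind_pos hc, mul_one]
    have h : ∃ t, UG F a (hiW p) (j + 1) (pt p (init (n + r) t)) := ⟨n, hc.2⟩
    have hsub : ((range (n + r + 1)).filter fun k => k + s ≤ n ∧ Cr F a p j (k - s) (k + s)) ⊆
        Ico (Nat.find h - s) (Nat.find h + s) := by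
      intro k hk
      obtain ⟨-, h0, h1, h2⟩ := mem_filter.1 hk
      have h3 : Nat.find h ≤ k + s := Nat.find_min' h h2
      have h4 : k - s < Nat.find h := by
        by_contra hn
        exact h1 (UG_init hp (not_lt.1 hn) (by omega) (Nat.find_spec h))
      rw [mem_Ico]
      omega
    have h5 := card_le_card hsub
    rw [Nat.card_Ico] at h5
    have h6 : ((range (n + r + 1)).filter fun k =>
        k + s ≤ n ∧ Cr F a p j (k - s) (k + s)).card ≤ 2 * s := by omega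
    exact_mod_cast h6
  · have : ((range (n + r + 1)).filter fun k =>
        k + s ≤ n ∧ Cr F a p j (k - s) (k + s)) = ∅ :=
      filter_eq_empty_iff.2 fun k _ hk => hc ⟨fun h0 =>
        hk.2.1 (UG_init hp (Nat.zero_le _) (by omega) h0), UG_init hp hk.1 le_rfl hk.2.2⟩
    rw [this, card_empty, Nat.cast_zero, ind_neg hc, mul_zero]

/-- A crossing in some order of the directions is a crossing of the whole cube. -/
lemma cr_of_ext {p : Pc D (n + r)} (hp : Function.Injective p.2) (π : Pm n) {j u v : ℕ}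
    (hu : u ≤ n) (hv : v ≤ n) (h : Cr F a (rot p (ext r π)) j u v) : Cr F a p j 0 n := by
  obtain ⟨h1, h2⟩ := h
  rw [hiW_rot, pt_ext_init p π hu] at h1
  rw [hiW_rot, pt_ext_init p π hv] at h2
  refine ⟨fun h0 => h1 ?_, ?_⟩
  · rw [← pt_lo_init p (Nat.zero_le n), init_zero] at h0
    refine UG_mono (pt_mono (lo p) (empty_subset _)) (fun i => ?_) _ h0
    rw [pt_lo_hiW hp, pt_lo_hiW hp]
  · rw [← pt_lo_init p le_rfl]
    refine UG_mono (pt_mono (lo p) fun i _ => mem_init.2 i.2) (fun i => ?_) _ h2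
    rw [pt_lo_hiW hp, pt_lo_hiW hp]

end Pool.Agent.Work.MP_84019e_co.Sg
end

-- merged part: Pool.Agent.Work.MP_84019e_co.Str.Slope
section
set_option autoImplicit false

namespace Pool.Agent.Work.MP_84019e_co.Str

open Finset Pool.Agent.Work.MP_84019e_co.Cube

variable {n : ℕ}

/-- The crossing level sees only the base and the chain in the zone. -/
lemma slope_loc (p : Pr) (V : ℕ → B n → Prop) (k0 : ℕ) :
    Loc p k0 ∅ (fun a π => (kp p (Vb p V π k0) π k0 a : ℝ)) := by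
  classical
  intro a a' π π' _ _ hch hcs
  have hV : Vb p V π k0 = Vb p V π' k0 := Vb_congr p V hch
  show ((kp p (Vb p V π k0) π k0 a : ℕ) : ℝ) = ((kp p (Vb p V π' k0) π' k0 a' : ℕ) : ℝ)
  rw [hV]
  unfold kp
  congr 3
  refine filter_congr fun t ht => ?_
  rw [(hcs t (mem_Ico.1 ht).1 (mem_Ico.1 ht).2).1]

lemma slope_f1_le (M : ℕ) (δ : ℤ) : f1 M δ ≤ δ := min_le_left _ _

lemma slope_f1_abs {M : ℕ} (hM : 1 ≤ M) {δ : ℤ} (h : -1 ≤ δ) : |f1 M δ| ≤ M := by
  have h1 : (1 : ℝ) ≤ M := by exact_mod_cast hM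
  have h2 : (-1 : ℝ) ≤ δ := by exact_mod_cast h
  rw [abs_le]
  refine ⟨?_, min_le_right _ _⟩
  unfold f1
  refine le_min ?_ ?_ <;> linarith

lemma slope_st_abs {w k0 : ℕ} {p : Pr} (hp : p.Ok n w) {V : ℕ → B n → Prop}
    (hV : Sys p.r w V) (z : Fin p.d) (π : Pm n) : |st p V k0 (f1 p.M) z ∅ π| ≤ p.M := by
  have key : ∀ ρ : Pm n, |fD p V k0 (f1 p.M) z ∅ ρ| ≤ p.M := fun ρ =>
    slope_f1_abs hp.M1 (dl_ge p (hV.up _) ρ k0 z ∅)
  rw [abs_le]
  exact ⟨le_av fun σ => (abs_le.1 (key _)).1, av_le fun σ => (abs_le.1 (key _)).2⟩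

/-- Against the larger mean the slope is at most zero. -/
lemma slope_zero {w k0 : ℕ} {p : Pr} (hp : p.Ok n w) (hk : k0 + p.l + p.d ≤ n) (hd : p.d ≤ n)
    (F : Finset (B n)) (V : ℕ → B n → Prop) (z : Fin p.d) :
    (av fun π => Av (insert (dpos hd z) (Bk n p k0)) (gX p F V k0 ∅) π *
      st p V k0 (f1 p.M) z ∅ π) ≤ 0 := by
  set Q1 := insert (dpos hd z) (Bk n p k0) with hQ1
  set g := gX p F V k0 ∅ with hg
  set K : B p.d → Pm n → ℝ := fun a π => (kp p (Vb p V π k0) π k0 a : ℝ) with hK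
  have hinv : ∀ π, Av (Bk n p k0) (Av Q1 g) π = Av Q1 g π := fun π =>
    Av_of_inv fun σ => Av_mul g π
      (⟨σ.1, fun i hi => σ.2 i fun h => hi (mem_insert_of_mem h)⟩ : Fx Q1)
  have h1 : (av fun π => Av Q1 g π * st p V k0 (f1 p.M) z ∅ π) =
      av fun π => Av Q1 g π * fD p V k0 (f1 p.M) z ∅ π := by
    unfold st
    rw [av_mul_Av]
    simp only [hinv]
  have h2 : (av fun π => Av Q1 g π * fD p V k0 (f1 p.M) z ∅ π) ≤
      av fun π => K ∅ π * Av Q1 g π - K (insert z ∅) π * Av Q1 g π := by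
    refine av_mono fun π => ?_
    have h0 : 0 ≤ Av Q1 g π := av_nonneg fun σ => gX_nonneg _ _ _ _ _ _
    have h3 : fD p V k0 (f1 p.M) z ∅ π ≤ K ∅ π - K (insert z ∅) π := by
      refine (slope_f1_le _ _).trans (le_of_eq ?_)
      simp only [hK, dl]
      push_cast
      rfl
    nlinarith [mul_le_mul_of_nonneg_left h3 h0]
  have h4 : ∀ π, Av Q1 (K (insert z ∅)) π = Av Q1 (K ∅) π := fun π =>
    pat_cyc hp hk hd (slope_loc p V k0) (disjoint_empty_left _) (notMem_empty z)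
      (notMem_empty z) π
  rw [h1]
  refine h2.trans (le_of_eq ?_)
  rw [av_sub, av_mul_Av, av_mul_Av]
  simp only [h4, sub_self]

/-- Paper, section B2. -/
theorem slope_le {w k0 : ℕ} {p : Pr} (hp : p.Ok n w) (hk : k0 + p.l + p.d ≤ n)
    (F : Finset (B n)) {V : ℕ → B n → Prop} (hV : Sys p.r w V) (z : Fin p.d) :
    (av fun π => muB p F V k0 ∅ π * st p V k0 (f1 p.M) z ∅ π) ≤
      p.M * (((p.T : ℝ) + p.s) / p.c) * av fun π => ind (act p V k0 π) := by
  have hd : p.d ≤ n := by omega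
  have hK : (0 : ℝ) < (p.T : ℝ) + p.s := by
    have : (1 : ℝ) ≤ p.s := by exact_mod_cast hp.s1
    positivity
  have hb : ∀ π, |gX p F V k0 ∅ π| ≤ ((p.T : ℝ) + p.s) * ind (act p V k0 π) := fun π => by
    rw [abs_of_nonneg (gX_nonneg _ _ _ _ _ _)]
    exact gX_le F hV k0 ∅ π
  have h1 := pat_out hp hk hd (loc_gX p F V k0) V hK (disjoint_empty_left (∅ : B p.d))
    (notMem_empty z) (notMem_empty z) hb
  have h2 := slope_zero hp hk hd F V z
  set mt := Av (insert (dpos hd z) (Bk n p k0)) (gX p F V k0 ∅) with hmt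
  have h3 : (av fun π => muB p F V k0 ∅ π * st p V k0 (f1 p.M) z ∅ π) ≤
      av fun π => mt π * st p V k0 (f1 p.M) z ∅ π +
        p.M * |Av (Bk n p k0) (gX p F V k0 ∅) π - mt π| := by
    refine av_mono fun π => ?_
    have h4 := slope_st_abs (k0 := k0) hp hV z π
    have h5 : (muB p F V k0 ∅ π - mt π) * st p V k0 (f1 p.M) z ∅ π ≤
        |muB p F V k0 ∅ π - mt π| * p.M := by
      refine (le_abs_self _).trans ?_
      rw [abs_mul]
      exact mul_le_mul_of_nonneg_left h4 (abs_nonneg _)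
    unfold muB at h5 ⊢
    linarith
  rw [av_add, av_mul_left] at h3
  have h6 := mul_le_mul_of_nonneg_left h1 (Nat.cast_nonneg (α := ℝ) p.M)
  linarith

end Pool.Agent.Work.MP_84019e_co.Str
end

-- merged part: Pool.Agent.Work.MP_84019e_co.Str.Tails
section
set_option autoImplicit false

namespace Pool.Agent.Work.MP_84019e_co.Str

open Finset Pool.Agent.Work.MP_84019e_co.Cube

variable {n : ℕ}

lemma tails_count {lo hi a b u : ℕ} (ha : lo ≤ a) (hb : b ≤ hi) :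
    max (((b : ℤ) - a : ℤ) - (u : ℝ)) 0 = ∑ t ∈ Ico lo (hi - u), ind (a ≤ t ∧ t + u < b) := by
  rw [sum_ind]
  have e : (Ico lo (hi - u)).filter (fun t => a ≤ t ∧ t + u < b) = Ico a (b - u) := by
    ext t
    simp only [mem_filter, mem_Ico]
    omega
  rw [e, Nat.card_Ico]
  rcases le_total (a + u) b with h | h
  · obtain ⟨c, rfl⟩ := Nat.exists_eq_add_of_le h
    rw [show a + u + c - u - a = c by omega, max_eq_left]
    · push_cast
      ring
    · push_cast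
      linarith [Nat.cast_nonneg (α := ℝ) c]
  · rw [show b - u - a = 0 by omega, max_eq_right, Nat.cast_zero]
    have : (b : ℝ) ≤ a + u := by exact_mod_cast h
    push_cast
    linarith

lemma tails_hole {t v : ℕ} (h : t < v) (hv : v ≤ n) : (hole n t v).card = v - 1 := by
  have e : hole n t v = (init n v).erase ⟨t, by omega⟩ := by
    ext i
    simp only [hole, mem_filter, mem_univ, true_and, mem_erase, mem_init, Ne, Fin.ext_iff]
    exact and_comm
  rw [e, card_erase_of_mem (mem_init.2 h), card_init hv]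

lemma tails_term {d k u : ℕ} (hk : k + u + 1 + d ≤ n) (z : Fin d) (U : B n → Prop) :
    (av fun π : Pm n => ind (U (img π (init n k ∪ dp n {z})) ∧ ¬ U (ch π (k + u + 1)))) =
      av fun π : Pm n => ind (U (ch π (k + 1)) ∧ ¬ U (img π (hole n k (k + u + 2)))) := by
  have hz := z.2
  refine sym_two ?_ ?_ ?_ fun x y => ind (U x ∧ ¬ U y)
  · rw [card_union_of_disjoint (disj_init_dp (by omega) _), card_dp (by omega), card_singleton,
      card_init (by omega), card_init (by omega)]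
  · rw [tails_hole (by omega) (by omega), card_init (by omega)]
    rfl
  · congr 1
    ext i
    simp only [hole, mem_inter, mem_union, mem_init, mem_dp, mem_singleton, exists_eq_left,
      mem_filter, mem_univ, true_and]
    omega

/-- Paper, section B4: the exact identity. -/
theorem dl_sum {w : ℕ} {p : Pr} (hp : p.Ok n w) {U : B n → Prop} (hU : Bulk U w) (z : Fin p.d)
    {u : ℕ} (hu : p.lo + u ≤ p.hi) :
    ∑ k0 ∈ range (n - p.l - p.d + 1),
        (av fun π : Pm n => max ((dl p U π k0 z ∅ : ℝ) - u) 0) =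
      ((p.hi : ℝ) - p.lo - u) * Y U u := by
  have h1 := hp.lw
  have h2 := hp.wn
  have h3 := hp.d1
  have h4 : p.hi ≤ p.l := Nat.sub_le _ _
  have h5 : p.d ≤ p.lo := Nat.le_add_left _ _
  have key : ∀ k0 (π : Pm n), max ((dl p U π k0 z ∅ : ℝ) - u) 0 = ∑ t ∈ Ico p.lo (p.hi - u),
      ind (U (img π (init n (k0 + (t - 1)) ∪ dp n {z})) ∧ ¬ U (ch π (k0 + (t - 1) + u + 1))) := by
    intro k0 π
    rw [dl, tails_count (kp_ge _ _ _ _ _) (kp_le (by omega) _ _ _ _)]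
    refine sum_congr rfl fun t ht => ind_congr ?_
    rw [mem_Ico] at ht
    rw [← kp_spec p hU.up π k0 _ ht.1 (by omega), ← not_le,
      ← kp_spec p hU.up π k0 _ (by omega) (by omega), cs_empty,
      show k0 + (t - 1) + u + 1 = k0 + (t + u) by omega]
    rfl
  simp only [key, av_sum]
  rw [sum_comm, sum_congr rfl (g := fun _ => Y U u), sum_const, Nat.card_Ico, nsmul_eq_mul]
  · rw [Nat.cast_sub (by omega), Nat.cast_sub (by omega)]
    ring
  intro t ht
  rw [mem_Ico] at ht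
  rw [sum_congr rfl fun k0 hk0 => tails_term (k := k0 + (t - 1)) (u := u)
    (by have := mem_range.1 hk0; omega) z U, Y]
  refine sum_bij_ne_zero (fun k0 _ _ => k0 + (t - 1)) (fun k0 hk0 _ => ?_)
    (fun _ _ _ _ _ _ e => by omega) (fun k hk hne => ?_) fun _ _ _ => rfl
  · rw [mem_range] at hk0 ⊢
    omega
  · rw [mem_range] at hk
    have h6 : ∃ π : Pm n, U (ch π (k + 1)) ∧ ¬ U (img π (hole n k (k + u + 2))) := by
      by_contra hn
      refine hne ?_
      rw [funext fun π : Pm n => ind_neg fun h => hn ⟨π, h⟩, av_zero]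
    obtain ⟨π, h7, h8⟩ := h6
    have h9 := hU.lo _ h7
    have h10 := mt (hU.hi _) h8
    rw [card_ch π (by omega)] at h9
    rw [card_img, tails_hole (by omega) (by omega)] at h10
    have e : k - (t - 1) + (t - 1) = k := by omega
    exact ⟨k - (t - 1), mem_range.2 (by omega), by rwa [e], e⟩

lemma tails_split {w : ℕ} {p : Pr} {V : ℕ → B n → Prop} (hV : Sys p.r w V) (z : Fin p.d)
    {f : ℤ → ℝ} (h0 : ∀ x, 0 ≤ f x) (h1 : f 0 = 0) (K : ℕ) {C : ℝ}
    (h : ∀ j < p.r, ∑ k0 ∈ range K, (av fun π : Pm n => f (dl p (V j) π k0 z ∅)) ≤ C) :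
    ∑ k0 ∈ range K, av (st p V k0 f z ∅) ≤ p.r * C := by
  have key : ∀ k0, av (st p V k0 f z ∅) ≤
      ∑ j ∈ range p.r, av fun π : Pm n => f (dl p (V j) π k0 z ∅) := by
    intro k0
    rw [← av_sum]
    refine (av_Av _ _).le.trans (av_mono fun π => ?_)
    by_cases hj : jj p.r V π k0 < p.r
    · exact single_le_sum (f := fun j => f (dl p (V j) π k0 z ∅)) (fun _ _ => h0 _)
        (mem_range.2 hj)
    · have e : dl p (Vb p V π k0) π k0 z ∅ = 0 := by
        have h2 : ∀ x, ¬ Vb p V π k0 x := fun x => hV.top _ x (not_lt.1 hj)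
        simp only [dl, kp, h2, sub_self]
      rw [fD, e, h1]
      exact sum_nonneg fun _ _ => h0 _
  refine (sum_le_sum fun k0 _ => key k0).trans ?_
  rw [sum_comm]
  refine (sum_le_sum fun j hj => h j (mem_range.1 hj)).trans ?_
  rw [sum_const, card_range, nsmul_eq_mul]

lemma tails_f3 {M T : ℕ} (h : T ≤ M) (x : ℤ) :
    f3 M T x = max ((x : ℝ) - T) 0 - max ((x : ℝ) - M) 0 := by
  have h' : (T : ℝ) ≤ M := by exact_mod_cast h
  rw [f3]
  rcases le_total (x : ℝ) M with h1 | h1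
  · rw [min_eq_left h1, max_eq_right (sub_nonpos.2 h1), sub_zero]
  · rw [min_eq_right h1, max_eq_left (sub_nonneg.2 h1), max_eq_left (sub_nonneg.2 h'),
      max_eq_left (sub_nonneg.2 (h'.trans h1))]
    ring

lemma tails_f2 (M : ℕ) (x : ℤ) :
    f2 M x ≤ 2 * ∑ s ∈ range M, (max ((x : ℝ) - s) 0 - max ((x : ℝ) - M) 0) := by
  have e : ∀ s : ℕ, ((x.toNat - s : ℕ) : ℝ) = max ((x : ℝ) - s) 0 := fun s => by
    have : ((x.toNat - s : ℕ) : ℤ) = max (x - s) 0 := by omega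
    exact_mod_cast this
  have h := min_sq_le x.toNat M
  have e0 := e 0
  simp only [e] at h
  rw [Nat.sub_zero, Nat.cast_zero, sub_zero] at e0
  rwa [Nat.cast_min, e0] at h

lemma tails_Y_le {U : B n → Prop} (hU : IsUp U) (s : ℕ) : Y U s ≤ 1 :=
  (Y_anti hU s.zero_le).trans (Y_zero_le hU)

theorem st3_sum {w : ℕ} {p : Pr} (hp : p.Ok n w) {V : ℕ → B n → Prop} (hV : Sys p.r w V)
    (z : Fin p.d) {t2 : ℝ} (h : ∀ j < p.r, Y (V j) p.T2 - Y (V j) p.M ≤ t2) :
    ∑ k0 ∈ range (n - p.l - p.d + 1), av (st p V k0 (f3 p.M p.T2) z ∅) ≤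
      p.r * (((p.hi : ℝ) - p.lo) * t2 + p.M) := by
  have hZ : (0 : ℝ) ≤ (p.hi : ℝ) - p.lo :=
    sub_nonneg.2 (by exact_mod_cast (Nat.le_add_right _ _).trans hp.zone)
  refine tails_split hV z (f := f3 p.M p.T2) (fun _ => le_max_right _ _) (by simp [f3]) _
    fun j hj => ?_
  simp only [tails_f3 hp.T2M, av_sub, sum_sub_distrib]
  rw [dl_sum hp (hV.bulk j hj) z ((Nat.add_le_add_left hp.T2M _).trans hp.zone),
    dl_sum hp (hV.bulk j hj) z hp.zone]
  have h1 := mul_le_mul_of_nonneg_left (h j hj) hZ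
  have h2 := mul_le_mul_of_nonneg_left (tails_Y_le (hV.bulk j hj).up p.M) (Nat.cast_nonneg p.M)
  have h3 := mul_nonneg (Nat.cast_nonneg (α := ℝ) p.T2) (Y_nonneg (V j) p.T2)
  linarith

theorem st2_sum {w : ℕ} {p : Pr} (hp : p.Ok n w) {V : ℕ → B n → Prop} (hV : Sys p.r w V)
    (z : Fin p.d) {T1 : ℕ} {t1 : ℝ} (h0 : 0 ≤ t1)
    (h : ∀ j < p.r, Y (V j) T1 - Y (V j) p.M ≤ t1) :
    ∑ k0 ∈ range (n - p.l - p.d + 1), av (st p V k0 (f2 p.M) z ∅) ≤
      p.r * (2 * (((p.hi : ℝ) - p.lo) * (T1 + p.M * t1) + (p.M : ℝ) ^ 2)) := by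
  have hZ : (0 : ℝ) ≤ (p.hi : ℝ) - p.lo :=
    sub_nonneg.2 (by exact_mod_cast (Nat.le_add_right _ _).trans hp.zone)
  refine tails_split hV z (f := f2 p.M) (fun _ => sq_nonneg _) (by simp [f2]) _ fun j hj => ?_
  refine (sum_le_sum fun k0 _ => av_mono fun π => tails_f2 p.M _).trans ?_
  simp only [av_mul_left, av_sum, av_sub]
  rw [← mul_sum, sum_comm]
  refine mul_le_mul_of_nonneg_left ?_ (by norm_num)
  have h1 := mul_le_mul_of_nonneg_left (Y_sum_le (hV.bulk j hj).up h0 (h j hj)) hZ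
  refine le_trans (sum_le_sum (g := fun s => ((p.hi : ℝ) - p.lo) * (Y (V j) s - Y (V j) p.M) + p.M)
    fun s hs => ?_) ?_
  · rw [sum_sub_distrib, dl_sum hp (hV.bulk j hj) z
      ((Nat.add_le_add_left (mem_range.1 hs).le _).trans hp.zone),
      dl_sum hp (hV.bulk j hj) z hp.zone]
    have h2 := mul_le_mul_of_nonneg_left (tails_Y_le (hV.bulk j hj).up p.M) (Nat.cast_nonneg p.M)
    have h3 := mul_nonneg (Nat.cast_nonneg (α := ℝ) s) (Y_nonneg (V j) s)
    linarith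
  · rw [sum_add_distrib, ← mul_sum, sum_const, card_range, nsmul_eq_mul, sq]
    linarith

end Pool.Agent.Work.MP_84019e_co.Str
end

-- merged part: Pool.Agent.Work.MP_84019e_co.Str.ValSum
section
set_option autoImplicit false

namespace Pool.Agent.Work.MP_84019e_co.Str

open Finset Pool.Agent.Work.MP_84019e_co.Cube

variable {n : ℕ}

theorem val_sum {w : ℕ} {p : Pr} (hp : p.Ok n w) {F : Finset (B n)} (hF : Mid F w)
    {V : ℕ → B n → Prop} (hV : Sys p.r w V) {σ η t1 t2 L : ℝ} {T1 : ℕ} (hσ : 0 < σ) (hη : 0 < η)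
    (h0 : 0 ≤ t1) (h1 : ∀ j < p.r, Y (V j) T1 - Y (V j) p.M ≤ t1)
    (h2 : ∀ j < p.r, Y (V j) p.T2 - Y (V j) p.M ≤ t2)
    (hL : L ≤ lamM p.r F V p.s - ∑ a ∈ Ico p.T p.l, zs p.r F V p.s a) (z : Fin p.d) :
    lowv p σ η T1 t1 t2 L ≤ ∑ k0 ∈ range (n - p.l - p.d + 1), av (vl p σ η F V k0 z) := by
  have hk : ∀ k0 ∈ range (n - p.l - p.d + 1), k0 + p.l + p.d ≤ n := fun k0 h => by
    have := mem_range.1 h
    have := hp.lw
    have := hp.wn
    omega
  have hc : (0 : ℝ) < p.c := by exact_mod_cast hp.c1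
  have hX : (0 : ℝ) ≤ (p.T : ℝ) + p.s := by positivity
  have hZ : (0 : ℝ) ≤ (p.hi : ℝ) - p.lo - (p.T + p.s) := by
    have a : p.lo + (p.T + p.s) ≤ p.hi := by
      have := hp.XM
      have := hp.zone
      omega
    have b : ((p.lo + (p.T + p.s) : ℕ) : ℝ) ≤ p.hi := by exact_mod_cast a
    push_cast at b
    linarith
  have e : ∀ k0, av (vl p σ η F V k0 z) = av (muB p F V k0 ∅) -
      (av fun π => muB p F V k0 ∅ π * st p V k0 (f1 p.M) z ∅ π) -
      2 * ((p.T : ℝ) + p.s) * (av (st p V k0 (f2 p.M) z ∅) / σ +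
        av (st p V k0 (f3 p.M p.T2) z ∅) / η + av (err p F V k0 z) / η) := fun k0 => by
    rw [← av_div, ← av_div, ← av_div, ← av_add, ← av_add, ← av_mul_left, ← av_sub, ← av_sub]
    congr 1
    funext π
    unfold vl
    ring
  simp only [e, sum_sub_distrib, ← mul_sum, sum_add_distrib, ← sum_div]
  have a0 := act_sum hp hV
  have a1 := (mul_le_mul_of_nonneg_left hL hZ).trans (mass_ge hp hF hV)
  have a2 : ∑ k0 ∈ range (n - p.l - p.d + 1),
      (av fun π => muB p F V k0 ∅ π * st p V k0 (f1 p.M) z ∅ π) ≤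
      p.M * (((p.T : ℝ) + p.s) / p.c) * (p.r * ((p.l : ℝ) + p.d)) := by
    refine (sum_le_sum fun k0 h => slope_le hp (hk k0 h) F hV z).trans ?_
    rw [← mul_sum]
    exact mul_le_mul_of_nonneg_left a0 (by positivity)
  have a3 : ∑ k0 ∈ range (n - p.l - p.d + 1), av (err p F V k0 z) ≤
      8 * p.d * 2 ^ p.d * ((p.M : ℝ) ^ 2 / p.c) * (p.r * ((p.l : ℝ) + p.d)) := by
    refine (sum_le_sum fun k0 h => err_le hp (hk k0 h) F hV z).trans ?_
    rw [← mul_sum]
    exact mul_le_mul_of_nonneg_left a0 (by positivity)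
  have b2 := div_le_div_of_nonneg_right (st2_sum hp hV z h0 h1) hσ.le
  have b3 := div_le_div_of_nonneg_right (st3_sum hp hV z h2) hη.le
  have b4 := div_le_div_of_nonneg_right a3 hη.le
  have b5 := mul_le_mul_of_nonneg_left (add_le_add (add_le_add b2 b3) b4)
    (mul_nonneg zero_le_two hX)
  refine le_trans (le_of_eq ?_) (sub_le_sub (sub_le_sub a1 a2) b5)
  unfold lowv
  field_simp
  ring

lemma muB_nonneg (p : Pr) (F : Finset (B n)) (V : ℕ → B n → Prop) (k0 : ℕ) (a : B p.d)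
    (π : Pm n) : 0 ≤ muB p F V k0 a π :=
  av_nonneg fun _ => gX_nonneg _ _ _ _ _ _

lemma muB_le {w : ℕ} {p : Pr} (F : Finset (B n)) {V : ℕ → B n → Prop} (hV : Sys p.r w V)
    (k0 : ℕ) (a : B p.d) (π : Pm n) : muB p F V k0 a π ≤ (p.T : ℝ) + p.s := by
  refine av_le fun τ => ?_
  unfold gX
  exact_mod_cast gd_card p F (hV.up _) _ k0 a

lemma st1_ge {w : ℕ} {p : Pr} {V : ℕ → B n → Prop} (hV : Sys p.r w V) (k0 : ℕ) (z : Fin p.d)
    (a : B p.d) (π : Pm n) : -1 ≤ st p V k0 (f1 p.M) z a π := by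
  refine le_av fun τ => le_min ?_ ?_
  · exact_mod_cast dl_ge p (hV.up _) _ k0 z a
  · exact (neg_nonpos.2 zero_le_one).trans (Nat.cast_nonneg _)

lemma vl_le (p : Pr) {σ η : ℝ} (hσ : 0 < σ) (hη : 0 < η) (F : Finset (B n))
    (V : ℕ → B n → Prop) (k0 : ℕ) (z : Fin p.d) (π : Pm n) :
    vl p σ η F V k0 z π ≤ muB p F V k0 ∅ π * (2 - (1 + st p V k0 (f1 p.M) z ∅ π)) := by
  have a2 : 0 ≤ st p V k0 (f2 p.M) z ∅ π := av_nonneg fun _ => sq_nonneg _
  have a3 : 0 ≤ st p V k0 (f3 p.M p.T2) z ∅ π := av_nonneg fun _ => le_max_right _ _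
  have a4 : 0 ≤ err p F V k0 z π :=
    add_nonneg (sum_nonneg fun _ _ => abs_nonneg _) (sum_nonneg fun _ _ =>
      add_nonneg (add_nonneg (abs_nonneg _) (abs_nonneg _)) (abs_nonneg _))
  have a5 := mul_nonneg (show (0 : ℝ) ≤ 2 * ((p.T : ℝ) + p.s) by positivity)
    (add_nonneg (add_nonneg (div_nonneg a2 hσ.le) (div_nonneg a3 hη.le)) (div_nonneg a4 hη.le))
  have e : (2 : ℝ) - (1 + st p V k0 (f1 p.M) z ∅ π) = 1 - st p V k0 (f1 p.M) z ∅ π := by ring
  rw [e]
  exact sub_le_self _ a5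

/-- A block with mass crosses its up-set. -/
lemma closed_of_mu {w : ℕ} {p : Pr} (F : Finset (B n)) {V : ℕ → B n → Prop} (hV : Sys p.r w V)
    {k0 : ℕ} {π : Pm n} (h : 0 < muB p F V k0 ∅ π) :
    V (jj p.r V π k0) (ch π (k0 + p.l)) := by
  obtain ⟨τ, hτ⟩ := exists_ge_av fun τ : Fx (Bk n p k0) => gX p F V k0 ∅ (π * τ.1)
  have h1 : 0 < gX p F V k0 ∅ (π * τ.1) := h.trans_le hτ
  unfold gX at h1
  obtain ⟨t, ht⟩ := card_pos.1 (Nat.cast_pos.1 h1)
  have e1 : ch (π * τ.1) k0 = ch π k0 := by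
    unfold ch
    rw [img_mul, τ.img_eq (Or.inr (disjoint_left.2 fun i hi hi' =>
      (mem_seg.1 hi).1.not_gt (mem_init.1 hi')))]
  have e2 : ch (π * τ.1) (k0 + p.l) = ch π (k0 + p.l) := by
    unfold ch
    rw [img_mul, τ.img_eq (Or.inl fun i hi => mem_init.2 (mem_seg.1 hi).2)]
  unfold gd at ht
  simp only [mem_filter, mem_Ico] at ht
  obtain ⟨⟨-, t1⟩, -, t2, -⟩ := ht
  rw [Vb_congr p V e1, cs_empty] at t2
  rw [← e2]
  refine hV.up _ _ _ (ch_mono _ ?_) t2
  unfold Pr.hi at t1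
  omega

/-- The choice of a chain and of a residue class. -/
theorem val_sel {w : ℕ} {p : Pr} (hp : p.Ok n w) (F : Finset (B n)) {V : ℕ → B n → Prop}
    (hV : Sys p.r w V) {σ η L : ℝ} (hσ : 0 < σ) (hη : 0 < η)
    (hL : ∀ z, L ≤ ∑ k0 ∈ range (n - p.l - p.d + 1), av (vl p σ η F V k0 z)) :
    ∃ (π : Pm n) (kb : ℕ → ℕ) (I : Finset ℕ), I ⊆ range p.r ∧ (∀ j ∈ I, kb j + p.l + p.d ≤ n) ∧
      (∀ j ∈ I, ∀ j' ∈ I, j < j' → kb j + p.l ≤ kb j') ∧
      L / p.l ≤ av fun z : Fin p.d => ∑ j ∈ I, max (vl p σ η F V (kb j) z π) 0 := by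
  classical
  have hl : 0 < p.l := by
    have := hp.zone
    have := hp.M1
    unfold Pr.hi at *
    omega
  have hl' : (p.l : ℝ) ≠ 0 := by exact_mod_cast hl.ne'
  have : Nonempty (Fin p.d) := ⟨⟨0, hp.d1⟩⟩
  obtain ⟨π, hπ⟩ := exists_ge_av fun π : Pm n => av fun z : Fin p.d =>
    ∑ k0 ∈ range (n - p.l - p.d + 1), vl p σ η F V k0 z π
  have s1 : L ≤ av fun z : Fin p.d => ∑ k0 ∈ range (n - p.l - p.d + 1), vl p σ η F V k0 z π := by
    refine le_trans ?_ hπ
    rw [av_comm]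
    refine le_av fun z => ?_
    rw [av_sum]
    exact hL z
  obtain ⟨o, -, ho⟩ : ∃ o ∈ range p.l, L / p.l ≤ av fun z : Fin p.d =>
      ∑ k0 ∈ (range (n - p.l - p.d + 1)).filter fun k => k % p.l = o, vl p σ η F V k0 z π := by
    refine exists_le_of_sum_le ⟨0, mem_range.2 hl⟩ ?_
    rw [sum_const, card_range, nsmul_eq_mul, mul_div_cancel₀ _ hl', ← av_sum]
    refine s1.trans (av_mono fun z => ?_)
    rw [sum_fiberwise_of_maps_to fun k _ => mem_range.2 (Nat.mod_lt k hl)]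
  set A := ((range (n - p.l - p.d + 1)).filter fun k => k % p.l = o).filter
    fun k => 0 < muB p F V k ∅ π with hA
  have m1 : ∀ k ∈ A, k + p.l + p.d ≤ n ∧ k % p.l = o ∧ V (jj p.r V π k) (ch π (k + p.l)) :=
    fun k hk => by
      obtain ⟨k1, k2⟩ := mem_filter.1 hk
      obtain ⟨k3, k4⟩ := mem_filter.1 k1
      have := mem_range.1 k3
      have := hp.lw
      have := hp.wn
      exact ⟨by omega, k4, closed_of_mu F hV k2⟩
  have m2 : ∀ k ∈ A, ∀ k' ∈ A, k < k' → k + p.l ≤ k' := fun k hk k' hk' h => by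
    have d : p.l ∣ k' - k :=
      (Nat.modEq_iff_dvd' h.le).1 ((m1 k hk).2.1.trans (m1 k' hk').2.1.symm)
    have := Nat.le_of_dvd (by omega) d
    omega
  have m3 : ∀ k ∈ A, ∀ k' ∈ A, k < k' → jj p.r V π k < jj p.r V π k' := fun k hk k' hk' h =>
    (jj_spec hV π k' _).1 (hV.up _ _ _ (ch_mono π (m2 k hk k' hk' h)) (m1 k hk).2.2)
  have m4 : Set.InjOn (jj p.r V π) A := fun k hk k' hk' h => by
    rcases lt_trichotomy k k' with c | c | c
    · exact absurd h (m3 k hk k' hk' c).ne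
    · exact c
    · exact absurd h (m3 k' hk' k hk c).ne'
  have m5 : ∀ k ∈ A, Function.invFunOn (jj p.r V π) A (jj p.r V π k) = k := fun k hk =>
    m4.leftInvOn_invFunOn hk
  refine ⟨π, Function.invFunOn (jj p.r V π) A, A.image (jj p.r V π), fun j hj => ?_,
    fun j hj => ?_, fun j hj j' hj' h => ?_, ho.trans (av_mono fun z => ?_)⟩
  · obtain ⟨k, hk, rfl⟩ := mem_image.1 hj
    exact mem_range.2 (not_le.1 fun c => hV.top _ _ c (m1 k hk).2.2)
  · obtain ⟨k, hk, rfl⟩ := mem_image.1 hj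
    rw [m5 k hk]
    exact (m1 k hk).1
  · obtain ⟨k, hk, rfl⟩ := mem_image.1 hj
    obtain ⟨k', hk', rfl⟩ := mem_image.1 hj'
    rw [m5 k hk, m5 k' hk']
    refine m2 k hk k' hk' ?_
    rcases lt_trichotomy k k' with c | c | c
    · exact c
    · exact absurd h (c ▸ lt_irrefl _)
    · exact absurd h (m3 k' hk' k hk c).not_gt
  · rw [sum_image m4, ← sum_filter_add_sum_filter_not _ fun k => 0 < muB p F V k ∅ π]
    refine le_trans (add_le_add (sum_le_sum fun k hk => ?_) (sum_nonpos fun k hk => ?_))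
      (add_zero _).le
    · rw [m5 k hk]
      exact le_max_left _ _
    · have c := le_antisymm (not_lt.1 (mem_filter.1 hk).2) (muB_nonneg p F V k ∅ π)
      have d := vl_le p hσ hη F V k z π
      rwa [c, zero_mul] at d

end Pool.Agent.Work.MP_84019e_co.Str
end

-- merged part: Pool.Agent.Work.MP_84019e_co.Sg.ChainA
section
set_option autoImplicit false

namespace Pool.Agent.Work.MP_84019e_co.Sg

open Finset Pool.Agent.Work.MP_84019e_co.Cube Pool.Agent.Work.MP_84019e_co.Str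
open Filter Topology

variable {D n w : ℕ} {q : Pr} {F : Finset (Fin D → ℤ)} {a : ℕ → B q.r} {σ η : ℝ}

/-- The index of the up-set used in a block. -/
noncomputable def bj (q : Pr) (F : Finset (Fin D → ℤ)) (a : ℕ → B q.r) (w : ℕ)
    (b : Pc D (n + q.r) × Pm n × ℕ) : ℕ :=
  jj q.r (VG F a (w / 2) b.1) b.2.1 b.2.2

lemma bv_nonneg (b : Pc D (n + q.r) × Pm n × ℕ) : 0 ≤ bv q σ η F a w b :=
  av_nonneg fun _ => le_max_right _ _

/-- Paper, CH (a): a block with positive value enters its up-set. -/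
lemma pos_block (hq : q.Ok n (w / 2)) (hσ : 0 < σ) (hη : 0 < η)
    {b : Pc D (n + q.r) × Pm n × ℕ} (hb : Function.Injective b.1.2)
    (hk : b.2.2 + q.l + q.d ≤ n) (h : 0 < bv q σ η F a w b) :
    bj q F a w b < q.r ∧ w / 2 ≤ b.2.2 ∧
      UG F a (hiW b.1) (bj q F a w b + 1) (pt (lo b.1) (ch b.2.1 (b.2.2 + q.l))) := by
  classical
  obtain ⟨p, π, k0⟩ := b
  have : Nonempty (Fin q.d) := ⟨⟨0, hq.d1⟩⟩
  obtain ⟨z, hz⟩ := exists_ge_av fun z : Fin q.d =>
    max (vl q σ η (pH F w (lo p)) (VG F a (w / 2) p) k0 z π) 0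
  have h1 := ((lt_max_iff.1 (h.trans_le hz)).resolve_right (lt_irrefl _)).trans_le
    (vl_le q hσ hη _ _ k0 z π)
  have h2 : 0 < muB q (pH F w (lo p)) (VG F a (w / 2) p) k0 ∅ π :=
    (muB_nonneg _ _ _ _ _ _).lt_of_ne fun e => by
      rw [← e, zero_mul] at h1
      exact lt_irrefl _ h1
  obtain ⟨h3, h4⟩ := closed_of_mu _ (VG_sys hb hq.wn) h2
  obtain ⟨τ, hτ⟩ := exists_ge_av fun τ : Fx (Bk n q k0) =>
    gX q (pH F w (lo p)) (VG F a (w / 2) p) k0 ∅ (π * τ.1)
  obtain ⟨t, ht⟩ := card_pos.1 (Nat.cast_pos.1 (h2.trans_le hτ))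
  obtain ⟨h5, h6, -⟩ := mem_filter.1 ht
  have h7 : t ≤ q.l := by
    have := (mem_Ico.1 h5).2
    rw [Pr.hi] at this
    omega
  have h8 := hq.lw
  have hk' : k0 + q.l + q.d ≤ n := hk
  obtain ⟨h9, h10, -⟩ := mem_pH.1 h6
  rw [cs_empty, card_ch _ (by omega)] at h9 h10
  rw [card_ch _ (by omega)] at h4
  exact ⟨h3, show w / 2 ≤ k0 by omega, (h4.resolve_right (by omega)).2⟩

/-- Paper, CH (b): the index grows along a chain. -/
lemma bj_lt (hq : q.Ok n (w / 2)) (hσ : 0 < σ) (hη : 0 < η)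
    {b b' : Pc D (n + q.r) × Pm n × ℕ} (hb : Function.Injective b.1.2)
    (hk : b.2.2 + q.l + q.d ≤ n) (h : 0 < bv q σ η F a w b) (hb' : Function.Injective b'.1.2)
    (hk' : b'.2.2 + q.l + q.d ≤ n) (h' : 0 < bv q σ η F a w b') (hbl : bl q b b') :
    bj q F a w b < bj q F a w b' := by
  obtain ⟨h1, -, h2⟩ := pos_block hq hσ hη hb hk h
  obtain ⟨-, h3, -⟩ := pos_block hq hσ hη hb' hk' h'
  have h4 := fun i : Fin q.r => hbl.1 (Fin.natAdd n i) (by rw [Fin.val_natAdd]; omega)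
  have h5 : hiW (rot b.1 (ext q.r b.2.1)) = hiW (rot b'.1 (ext q.r b'.2.1)) :=
    funext fun i => (h4 i).1
  rw [← pt_ext_init _ _ (by omega), ← hiW_rot b.1 b.2.1] at h2
  have h6 := UG_mono hbl.2 (fun i => by
    have h7 := pt_init_hiW (rot_inj hb' (ext q.r b'.2.1)) (show b'.2.2 ≤ n by omega) i
    rw [← h5] at h7
    exact (pt_init_hiW (rot_inj hb _) (by omega) i).trans ((h4 i).2.trans h7.symm)) _ h2
  rw [pt_ext_init _ _ (by omega), h5, hiW_rot] at h6
  refine (jj_spec (VG_sys hb' hq.wn) _ _ _).1 ⟨h1, Or.inl ⟨?_, h6⟩⟩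
  rwa [card_ch _ (by omega)]

end Pool.Agent.Work.MP_84019e_co.Sg
end

-- merged part: Pool.Agent.Work.MP_84019e_co.Str.Asm
section
set_option autoImplicit false

namespace Pool.Agent.Work.MP_84019e_co.Str

open Finset Pool.Agent.Work.MP_84019e_co.Cube

variable {P : Type} [PartialOrder P]

lemma StrongFree.mono {Q : Type} [PartialOrder Q] {F F' : Finset Q} (h : StrongFree P F)
    (hs : F' ⊆ F) : StrongFree P F' := by
  rintro ⟨f, hf, hm, ho⟩
  exact h ⟨f, hf, fun p => hs (hm p), ho⟩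

lemma StrongFree.of_map {Q Q' : Type} [PartialOrder Q] [PartialOrder Q'] {F : Finset Q}
    {F' : Finset Q'} (h : StrongFree P F') (g : Q → Q') (hg : ∀ x ∈ F, g x ∈ F')
    (ho : ∀ x ∈ F, ∀ y ∈ F, x ≤ y ↔ g x ≤ g y) : StrongFree P F := by
  rintro ⟨f, hf, hm, hfo⟩
  refine h ⟨g ∘ f, fun p q hpq => hf (le_antisymm ?_ ?_), fun p => hg _ (hm p),
    fun p q => (hfo p q).trans (ho _ (hm p) _ (hm q))⟩
  · exact (ho _ (hm p) _ (hm q)).2 (le_of_eq hpq)
  · exact (ho _ (hm q) _ (hm p)).2 (le_of_eq hpq.symm)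

lemma asm_bdd (Q : Type) [PartialOrder Q] [Fintype Q] :
    BddAbove {n | ∃ F : Finset Q, StrongFree P F ∧ F.card = n} := by
  refine ⟨Fintype.card Q, ?_⟩
  rintro n ⟨F, -, rfl⟩
  exact card_le_univ F

lemma le_LaStar {Q : Type} [PartialOrder Q] [Fintype Q] {G : Finset Q} (hG : StrongFree P G) :
    G.card ≤ LaStar Q P :=
  le_csSup (asm_bdd Q) ⟨G, hG, rfl⟩

lemma LaStar_spec [Nonempty P] (Q : Type) [PartialOrder Q] [Fintype Q] :
    ∃ G : Finset Q, StrongFree P G ∧ G.card = LaStar Q P := by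
  refine Nat.sSup_mem (s := {n | ∃ F : Finset Q, StrongFree P F ∧ F.card = n})
    ⟨0, ∅, ?_, rfl⟩ (asm_bdd Q)
  rintro ⟨f, -, hm, -⟩
  exact absurd (hm (Classical.arbitrary P)) (by simp)

/-- One block: the selected sets go to members of `F` between the base and the top of the block,
with the chosen trace on the shared directions. -/
lemma sel_map {n m k0 : ℕ} {p : Pr} (hk : k0 + p.l + p.d ≤ n) (F : Finset (B n))
    (V : ℕ → B n → Prop) (π : Pm n) (Sm : Fin m ↪ Fin p.d) {G : Finset (B m)}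
    (hG : Sel (GdB p F V π k0 Sm) G) :
    ∃ bs : B m → B n, (∀ A ∈ G, init n k0 ⊆ bs A ∧ bs A ⊆ init n (k0 + p.l) ∧
        img π (bs A ∪ dp n (A.map Sm)) ∈ F) ∧
      ∀ A ∈ G, ∀ A' ∈ G, A ⊆ A' → bs A = bs A' := by
  classical
  obtain ⟨ι, h1, h2⟩ := hG
  refine ⟨fun A => img (ι A).1.1 (init n (k0 + (ι A).2.toNat)), fun A hA => ?_,
    fun A hA A' hA' e => by simp only [h2 A hA A' hA' e]⟩
  obtain ⟨t, ht, e⟩ := mem_image.1 (h1 A hA)
  obtain ⟨ht1, ht2, -⟩ := mem_filter.1 ht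
  have ht3 : t ≤ p.l := by
    have h3 := (mem_Ico.1 ht1).2
    unfold Pr.hi at h3
    omega
  have ek : (ι A).2.toNat = t - (A.map Sm).card := by
    rw [← e, card_map]
    omega
  have f1 : img (ι A).1.1 (init n k0) = init n k0 := by
    refine Fx.img_eq _ (Or.inr (disjoint_left.2 fun i hi hj => ?_))
    have a1 := mem_seg.1 hi
    have a2 := mem_init.1 hj
    omega
  have f2 : img (ι A).1.1 (init n (k0 + p.l)) = init n (k0 + p.l) :=
    Fx.img_eq _ (Or.inl fun i hi => mem_init.2 (mem_seg.1 hi).2)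
  have f3 : img (ι A).1.1 (dp n (A.map Sm)) = dp n (A.map Sm) := by
    refine Fx.img_eq _ (Or.inr (disjoint_left.2 fun i hi hj => ?_))
    have a1 := mem_seg.1 hi
    obtain ⟨z, -, a2⟩ := mem_dp.1 hj
    omega
  refine ⟨?_, ?_, ?_⟩
  · rw [← f1]
    exact img_subset.2 (init_mono (Nat.le_add_right _ _))
  · rw [← f2]
    exact img_subset.2 (init_mono (by omega))
  · show img π (img (ι A).1.1 (init n (k0 + (ι A).2.toNat)) ∪ dp n (A.map Sm)) ∈ F
    rw [← f3, ← img_union, ← img_mul, ek]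
    exact ht2

/-- Paper, assembly. -/
theorem asm {n m S s0 : ℕ} {p : Pr} {F : Finset (B n)} (hF : StrongFree P F)
    (V : ℕ → B n → Prop) (π : Pm n) (kb : ℕ → ℕ) (J : Finset ℕ) (Sm : Fin m ↪ Fin p.d)
    (G : ℕ → Finset (B m)) (hk : ∀ j ∈ J, kb j + p.l + p.d ≤ n)
    (ho : ∀ j ∈ J, ∀ j' ∈ J, j < j' → kb j + p.l ≤ kb j')
    (hG : ∀ j ∈ J, G j ⊆ lay m (s0 + j * S) S ∧ Sel (GdB p F V π (kb j) Sm) (G j)) :
    ∑ j ∈ J, (G j).card ≤ LaStar (B m) P := by
  classical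
  have sz : ∀ a ∈ J, ∀ b ∈ J, a < b → ∀ A ∈ G a, ∀ A' ∈ G b, A.card < A'.card := by
    intro a ha b hb hab A hA A' hA'
    have h1 := (mem_lay.1 ((hG a ha).1 hA)).2
    have h2 := (mem_lay.1 ((hG b hb).1 hA')).1
    have h3 := Nat.mul_le_mul_right S (Nat.succ_le_of_lt hab)
    rw [Nat.succ_mul] at h3
    omega
  have uniq : ∀ a ∈ J, ∀ b ∈ J, ∀ A ∈ G a, A ∈ G b → a = b := by
    intro a ha b hb A hA hA'
    rcases lt_trichotomy a b with c | c | c
    · exact absurd (sz a ha b hb c A hA A hA') (lt_irrefl _)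
    · exact c
    · exact absurd (sz b hb a ha c A hA' A hA) (lt_irrefl _)
  choose! bs h1 h2 using fun j hj => sel_map (hk j hj) F V π Sm (hG j hj).2
  let Ψ : B m → B n := fun A =>
    if h : ∃ a ∈ J, A ∈ G a then img π (bs h.choose A ∪ dp n (A.map Sm)) else ∅
  have hΨ : ∀ a ∈ J, ∀ A ∈ G a, Ψ A = img π (bs a A ∪ dp n (A.map Sm)) := by
    intro a ha A hA
    have h : ∃ a ∈ J, A ∈ G a := ⟨a, ha, hA⟩
    simp only [Ψ, dif_pos h]
    rw [uniq _ h.choose_spec.1 a ha A h.choose_spec.2 hA]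
  rw [← card_biUnion fun a ha b hb hab =>
    disjoint_left.2 fun A hA hA' => hab (uniq a ha b hb A hA hA')]
  refine le_LaStar (hF.of_map Ψ (fun A hA => ?_) fun A hA A' hA' => ?_)
  · obtain ⟨a, ha, hA⟩ := mem_biUnion.1 hA
    rw [hΨ a ha A hA]
    exact (h1 a ha A hA).2.2
  · obtain ⟨a, ha, hA⟩ := mem_biUnion.1 hA
    obtain ⟨b, hb, hA'⟩ := mem_biUnion.1 hA'
    rw [hΨ a ha A hA, hΨ b hb A' hA']
    show A ⊆ A' ↔ img π _ ⊆ img π _
    rw [img_subset]
    constructor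
    · intro e
      refine union_subset_union ?_ (dp_mono (map_subset_map.2 e))
      rcases lt_trichotomy a b with c | c | c
      · exact ((h1 a ha A hA).2.1.trans (init_mono (ho a ha b hb c))).trans (h1 b hb A' hA').1
      · subst c
        rw [h2 a ha A hA A' hA' e]
      · exact absurd (sz b hb a ha c A' hA' A hA) (not_lt.2 (card_le_card e))
    · intro e x hx
      have hd : p.d ≤ n := by have := hk a ha; omega
      have m1 : dpos hd (Sm x) ∈ dp n (A.map Sm) := (dpos_mem hd).2 (mem_map_of_mem _ hx)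
      rcases mem_union.1 (e (mem_union_right _ m1)) with m2 | m2
      · have m3 := mem_init.1 ((h1 b hb A' hA').2.1 m2)
        have := hk b hb
        simp only [dpos] at m3
        omega
      · exact (mem_map' Sm).1 ((dpos_mem hd).1 m2)

end Pool.Agent.Work.MP_84019e_co.Str
end

-- merged part: Pool.Agent.Work.MP_84019e_co.Sg.ChainB
section
set_option autoImplicit false

namespace Pool.Agent.Work.MP_84019e_co.Sg

open Finset Pool.Agent.Work.MP_84019e_co.Cube Pool.Agent.Work.MP_84019e_co.Str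
open Filter Topology

/-- The last `d` directions of two cubes agree. -/
def chBfz {D n : ℕ} (d : ℕ) (h h' : Pc D n) : Prop :=
  ∀ i : Fin n, n - d ≤ i.val → h.2 i = h'.2 i ∧ h.1 (h.2 i) = h'.1 (h.2 i)

lemma chBfz_symm {D n d : ℕ} {h h' : Pc D n} (e : chBfz d h h') : chBfz d h' h := by
  intro i hi
  obtain ⟨e1, e2⟩ := e i hi
  refine ⟨e1.symm, ?_⟩
  rw [← e1, e2]

lemma chB_up {D n d k1 k0 : ℕ} {h h' : Pc D n} (e : chBfz d h h')
    (hle : pt h (init n k1) ≤ pt h' (init n k0)) {u u' : B n} (hu : u ⊆ init n k1)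
    (hu' : init n k0 ⊆ u') {a a' : B d} (ha : a ⊆ a') :
    pt h (u ∪ dp n a) ≤ pt h' (u' ∪ dp n a') := by
  intro l
  by_cases c : ∃ i ∈ dp n a, h.2 i = l
  · obtain ⟨i, hi, hl⟩ := c
    obtain ⟨z, -, hz⟩ := mem_dp.1 hi
    obtain ⟨e1, e2⟩ := e i (by omega)
    have c1 : ∃ j ∈ u ∪ dp n a, h.2 j = l := ⟨i, mem_union_right _ hi, hl⟩
    have c2 : ∃ j ∈ u' ∪ dp n a', h'.2 j = l :=
      ⟨i, mem_union_right _ (dp_mono ha hi), e1 ▸ hl⟩
    simp only [pt, if_pos c1, if_pos c2]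
    rw [hl] at e2
    omega
  · refine le_trans ?_ ((hle l).trans (pt_mono h' (hu'.trans subset_union_left) l))
    simp only [pt]
    split_ifs with h1 h2
    · exact le_rfl
    · obtain ⟨i, hi, hl⟩ := h1
      rcases mem_union.1 hi with m | m
      · exact absurd ⟨i, hu m, hl⟩ h2
      · exact absurd ⟨i, m, hl⟩ c
    · omega
    · exact le_rfl

lemma chB_down {D n d k1 : ℕ} {h h' : Pc D n} (e : chBfz d h h')
    (hi' : Function.Injective h'.2) (hk : k1 + d ≤ n) {u u' : B n} (hu' : u' ⊆ init n k1)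
    {a a' : B d} (hle : pt h (u ∪ dp n a) ≤ pt h' (u' ∪ dp n a')) : a ⊆ a' := by
  intro z hz
  have hd : d ≤ n := by omega
  have m1 : dpos hd z ∈ dp n a := (dpos_mem hd).2 hz
  obtain ⟨e1, e2⟩ := e (dpos hd z) (by simp only [dpos]; omega)
  have c1 : ∃ j ∈ u ∪ dp n a, h.2 j = h.2 (dpos hd z) := ⟨_, mem_union_right _ m1, rfl⟩
  have h1 := hle (h.2 (dpos hd z))
  simp only [pt, if_pos c1] at h1
  split_ifs at h1 with c2
  · obtain ⟨j, hj, hl⟩ := c2
    have ej : j = dpos hd z := hi' (hl.trans e1)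
    rw [ej] at hj
    rcases mem_union.1 hj with m2 | m2
    · have m3 := mem_init.1 (hu' m2)
      simp only [dpos] at m3
      omega
    · exact (dpos_mem hd).1 m2
  · omega

lemma chB_bl {D n : ℕ} {q : Pr} {b b' : Pc D (n + q.r) × Pm n × ℕ} (h : bl q b b')
    (hb : b.2.2 + q.l ≤ n) (hb' : b'.2.2 ≤ n) :
    chBfz q.d (lo (rot b.1 (ext q.r b.2.1))) (lo (rot b'.1 (ext q.r b'.2.1))) ∧
      pt (lo (rot b.1 (ext q.r b.2.1))) (init n (b.2.2 + q.l)) ≤
        pt (lo (rot b'.1 (ext q.r b'.2.1))) (init n b'.2.2) := by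
  obtain ⟨h1, h2⟩ := h
  refine ⟨fun i hi => h1 (Fin.castAdd q.r i) hi, ?_⟩
  rw [pt_lo_init _ hb, pt_lo_init _ hb']
  exact h2

/-- Paper, CH (c): the selected sets of a chain of blocks form a strong `P`-free family. -/
theorem asm_g {P : Type} [PartialOrder P] {D n w mm S s0 : ℕ} {q : Pr} {F : Finset (Fin D → ℤ)}
    (hF : StrongFree P F) (V : ℕ → ℕ → B n → Prop) (b : ℕ → Pc D (n + q.r) × Pm n × ℕ)
    (J : Finset ℕ) (Sm : Fin mm ↪ Fin q.d) (G : ℕ → Finset (B mm))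
    (hb : ∀ j ∈ J, Function.Injective (b j).1.2 ∧ (b j).2.2 + q.l + q.d ≤ n)
    (ho : ∀ j ∈ J, ∀ j' ∈ J, j < j' → bl q (b j) (b j'))
    (hG : ∀ j ∈ J, G j ⊆ lay mm (s0 + j * S) S ∧
      Sel (GdB q (pH F w (lo (b j).1)) (V j) (b j).2.1 (b j).2.2 Sm) (G j)) :
    ∑ j ∈ J, (G j).card ≤ LaStar (B mm) P := by
  classical
  have sz : ∀ a ∈ J, ∀ c ∈ J, a < c → ∀ A ∈ G a, ∀ A' ∈ G c, A.card < A'.card := by
    intro a ha c hc hac A hA A' hA'
    have h1 := (mem_lay.1 ((hG a ha).1 hA)).2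
    have h2 := (mem_lay.1 ((hG c hc).1 hA')).1
    have h3 := Nat.mul_le_mul_right S (Nat.succ_le_of_lt hac)
    rw [Nat.succ_mul] at h3
    omega
  have uniq : ∀ a ∈ J, ∀ c ∈ J, ∀ A ∈ G a, A ∈ G c → a = c := by
    intro a ha c hc A hA hA'
    rcases lt_trichotomy a c with e | e | e
    · exact absurd (sz a ha c hc e A hA A hA') (lt_irrefl _)
    · exact e
    · exact absurd (sz c hc a ha e A hA' A hA) (lt_irrefl _)
  choose! bs h1 h2 using fun j hj =>
    sel_map (hb j hj).2 (pH F w (lo (b j).1)) (V j) (b j).2.1 Sm (hG j hj).2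
  let g : ℕ → Pc D n := fun j => lo (rot (b j).1 (ext q.r (b j).2.1))
  have ginj : ∀ j ∈ J, Function.Injective (g j).2 := fun j hj => lo_inj (rot_inj (hb j hj).1 _)
  have gbl : ∀ a ∈ J, ∀ c ∈ J, a < c → chBfz q.d (g a) (g c) ∧
      pt (g a) (init n ((b a).2.2 + q.l)) ≤ pt (g c) (init n (b c).2.2) := by
    intro a ha c hc e
    have k1 := (hb a ha).2
    have k2 := (hb c hc).2
    exact chB_bl (ho a ha c hc e) (by omega) (by omega)
  have gfz : ∀ a ∈ J, ∀ c ∈ J, chBfz q.d (g a) (g c) := by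
    intro a ha c hc
    rcases lt_trichotomy a c with e | e | e
    · exact (gbl a ha c hc e).1
    · subst e
      exact fun _ _ => ⟨rfl, rfl⟩
    · exact chBfz_symm (gbl c hc a ha e).1
  let Ψ : B mm → Fin D → ℤ := fun A =>
    if h : ∃ a ∈ J, A ∈ G a then pt (g h.choose) (bs h.choose A ∪ dp n (A.map Sm)) else 0
  have hΨ : ∀ a ∈ J, ∀ A ∈ G a, Ψ A = pt (g a) (bs a A ∪ dp n (A.map Sm)) := by
    intro a ha A hA
    have h : ∃ a ∈ J, A ∈ G a := ⟨a, ha, hA⟩
    simp only [Ψ, dif_pos h]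
    rw [uniq _ h.choose_spec.1 a ha A h.choose_spec.2 hA]
  rw [← card_biUnion fun a ha c hc hac =>
    disjoint_left.2 fun A hA hA' => hac (uniq a ha c hc A hA hA')]
  refine le_LaStar (hF.of_map Ψ (fun A hA => ?_) fun A hA A' hA' => ?_)
  · obtain ⟨a, ha, hA⟩ := mem_biUnion.1 hA
    rw [hΨ a ha A hA]
    have h3 := (mem_pH.1 (h1 a ha A hA).2.2).2.2
    simp only [g]
    rw [lo_rot, pt_rot]
    exact h3
  · obtain ⟨a, ha, hA⟩ := mem_biUnion.1 hA
    obtain ⟨c, hc, hA'⟩ := mem_biUnion.1 hA'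
    rw [hΨ a ha A hA, hΨ c hc A' hA']
    show A ⊆ A' ↔ _
    constructor
    · intro e
      rcases lt_trichotomy a c with o | o | o
      · exact chB_up (gbl a ha c hc o).1 (gbl a ha c hc o).2 (h1 a ha A hA).2.1
          (h1 c hc A' hA').1 (map_subset_map.2 e)
      · subst o
        rw [h2 a ha A hA A' hA' e]
        exact pt_mono _ (union_subset_union Subset.rfl (dp_mono (map_subset_map.2 e)))
      · exact absurd (sz c hc a ha o A' hA' A hA) (not_lt.2 (card_le_card e))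
    · intro e
      exact map_subset_map.1
        (chB_down (gfz a ha c hc) (ginj c hc) (hb c hc).2 (h1 c hc A' hA').2.1 e)

end Pool.Agent.Work.MP_84019e_co.Sg
end

-- merged part: Pool.Agent.Work.MP_84019e_co.Str.Multi
section
set_option autoImplicit false

namespace Pool.Agent.Work.MP_84019e_co.Str

open Finset Pool.Agent.Work.MP_84019e_co.Cube

variable {n : ℕ}

lemma mu_err_mu (p : Pr) (F : Finset (B n)) (V : ℕ → B n → Prop) (k0 : ℕ) (z : Fin p.d)
    (π : Pm n) (a : B p.d) :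
    |muB p F V k0 a π - muB p F V k0 ∅ π| ≤ err p F V k0 z π :=
  le_add_of_le_of_nonneg
    (single_le_sum (f := fun a : B p.d => |muB p F V k0 a π - muB p F V k0 ∅ π|)
      (fun _ _ => abs_nonneg _) (mem_univ a))
    (sum_nonneg fun _ _ => by positivity)

lemma mu_err_st (p : Pr) (F : Finset (B n)) (V : ℕ → B n → Prop) (k0 : ℕ) {z : Fin p.d}
    (π : Pm n) {a : B p.d} (ha : z ∉ a) :
    |st p V k0 (f1 p.M) z a π - st p V k0 (f1 p.M) z ∅ π| +
        |st p V k0 (f2 p.M) z a π - st p V k0 (f2 p.M) z ∅ π| +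
        |st p V k0 (f3 p.M p.T2) z a π - st p V k0 (f3 p.M p.T2) z ∅ π| ≤ err p F V k0 z π :=
  le_add_of_nonneg_of_le (sum_nonneg fun _ _ => abs_nonneg _)
    (single_le_sum (f := fun a : B p.d =>
      |st p V k0 (f1 p.M) z a π - st p V k0 (f1 p.M) z ∅ π| +
        |st p V k0 (f2 p.M) z a π - st p V k0 (f2 p.M) z ∅ π| +
        |st p V k0 (f3 p.M p.T2) z a π - st p V k0 (f3 p.M p.T2) z ∅ π|)
      (fun _ _ => by positivity) (mem_filter.2 ⟨mem_univ a, ha⟩))

lemma mu_of_val {w k0 : ℕ} {p : Pr} (hp : p.Ok n w) (F : Finset (B n)) {V : ℕ → B n → Prop}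
    (hV : Sys p.r w V) {σ η : ℝ} (hσ : 0 < σ) (hη : 0 < η) (π : Pm n) {z : Fin p.d}
    (h : 0 < vl p σ η F V k0 z π) :
    st p V k0 (f2 p.M) z ∅ π ≤ σ ∧ st p V k0 (f3 p.M p.T2) z ∅ π ≤ η ∧ err p F V k0 z π ≤ η := by
  have h0 := muB_nonneg p F V k0 ∅ π
  have h1 := muB_le F hV k0 ∅ π
  have h2 := st1_ge hV k0 z ∅ π
  have h3 : 0 ≤ st p V k0 (f2 p.M) z ∅ π := av_nonneg fun _ => sq_nonneg _
  have h4 : 0 ≤ st p V k0 (f3 p.M p.T2) z ∅ π := av_nonneg fun _ => le_max_right _ _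
  have h5 : 0 ≤ err p F V k0 z π := (abs_nonneg _).trans (mu_err_mu p F V k0 z π ∅)
  have hs : (1 : ℝ) ≤ p.s := by exact_mod_cast hp.s1
  have hX : (0 : ℝ) < (p.T : ℝ) + p.s := by positivity
  have h6 := mul_nonneg h0 (by linarith : 0 ≤ 1 + st p V k0 (f1 p.M) z ∅ π)
  have h7 : st p V k0 (f2 p.M) z ∅ π / σ + st p V k0 (f3 p.M p.T2) z ∅ π / η +
      err p F V k0 z π / η ≤ 1 := by
    refine le_of_mul_le_mul_left ?_ (mul_pos two_pos hX)
    unfold vl at h
    linarith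
  have k3 := div_nonneg h3 hσ.le
  have k4 := div_nonneg h4 hη.le
  have k5 := div_nonneg h5 hη.le
  exact ⟨(div_le_one hσ).1 (by linarith), (div_le_one hη).1 (by linarith),
    (div_le_one hη).1 (by linarith)⟩

lemma mu_jm {m : ℕ} (p : Pr) (V : ℕ → B n → Prop) (π : Pm n) (k0 : ℕ) (Sm : Fin m ↪ Fin p.d)
    (τ : Fx (Bk n p k0)) {A : B m} {z : Fin m} (hz : z ∉ A) :
    jm (kaB p V π k0 Sm) (p.M + 1) τ A z =
      1 + fD p V k0 (f1 p.M) (Sm z) (A.map Sm) (π * τ.1) := by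
  simp only [jm, kaB, fD, f1, dl, map_insert, card_insert_of_notMem hz]
  push_cast
  rw [← min_add_add_left]
  congr 1 <;> ring

lemma mu_sq (M : ℕ) {δ : ℤ} (h : -1 ≤ δ) : (1 + f1 M δ) ^ 2 ≤ 2 + 2 * f2 M δ := by
  have h' : (-1 : ℝ) ≤ δ := by exact_mod_cast h
  have hM : (0 : ℝ) ≤ M := Nat.cast_nonneg _
  unfold f1 f2
  rcases le_total (δ : ℝ) 0 with k | k
  · rw [min_eq_left (k.trans hM), max_eq_right k, min_eq_left hM]
    nlinarith
  · rw [max_eq_left k]
    nlinarith [sq_nonneg (1 - min (δ : ℝ) M)]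

/-- A block with positive value in all chosen directions satisfies the abstract hypotheses. -/
theorem oh_of_val {w k0 m : ℕ} {p : Pr} (hp : p.Ok n w) (hk : k0 + p.l + p.d ≤ n)
    (F : Finset (B n)) {V : ℕ → B n → Prop} (hV : Sys p.r w V) {σ η w0 : ℝ} (hσ : 0 < σ)
    (hη : 0 < η) (π : Pm n) (hm : 0 < m) (Sm : Fin m ↪ Fin p.d)
    (h : ∀ i, 0 < vl p σ η F V k0 (Sm i) π ∧ w0 ≤ 1 + st p V k0 (f1 p.M) (Sm i) ∅ π ∧
      1 + st p V k0 (f1 p.M) (Sm i) ∅ π ≤ w0 + η) :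
    OH (kaB p V π k0 Sm) (GdB p F V π k0 Sm) p.s p.T (p.T2 + 1) (p.M + 1) w0
      (muB p F V k0 ∅ π - η) (2 * η) (2 + 2 * (σ + η)) := by
  have hz' : ∀ {A : B m} {z : Fin m}, z ∉ A → Sm z ∉ A.map Sm := fun hz k =>
    hz (mem_map' Sm |>.1 k)
  refine ⟨fun τ A z => ?_, fun τ A k hk => ?_, fun A z hz => ?_, fun A z hz => ?_,
    fun A z hz => ?_, fun A => ?_⟩
  · by_cases hz : z ∈ A
    · rw [insert_eq_of_mem hz]
    · have := dl_ge p (hV.up (jj p.r V (π * τ.1) k0)) (π * τ.1) k0 (Sm z) (A.map Sm)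
      simp only [kaB, dl, Vb, map_insert, card_insert_of_notMem hz] at this ⊢
      push_cast
      linarith
  · obtain ⟨t, ht, rfl⟩ := mem_image.1 hk
    have := gd_spec p F (hV.up (jj p.r V (π * τ.1) k0)) (π * τ.1) k0 (A.map Sm) ht
    simp only [kaB, Vb]
    omega
  · obtain ⟨h0, h1, h2⟩ := h z
    have h3 := (mu_of_val hp F hV hσ hη π h0).2.2
    have h4 := mu_err_st p F V k0 π (hz' hz)
    have e : (av fun τ => jm (kaB p V π k0 Sm) (p.M + 1) τ A z) =
        1 + st p V k0 (f1 p.M) (Sm z) (A.map Sm) π := by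
      simp only [mu_jm p V π k0 Sm _ hz]
      rw [av_add, av_const]
      rfl
    have h5 := abs_le.1 (((le_add_of_nonneg_right (abs_nonneg _)).trans
      (le_add_of_nonneg_right (abs_nonneg _))).trans h4)
    rw [e, abs_le]
    constructor <;> linarith [h5.1, h5.2]
  · obtain ⟨h1, -, h3⟩ := mu_of_val hp F hV hσ hη π (h z).1
    have h4 := mu_err_st p F V k0 π (hz' hz)
    have h5 := abs_le.1 (((le_add_of_nonneg_left (abs_nonneg _)).trans
      (le_add_of_nonneg_right (abs_nonneg _))).trans h4)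
    have e : (av fun τ => jm (kaB p V π k0 Sm) (p.M + 1) τ A z ^ 2) ≤
        2 + 2 * st p V k0 (f2 p.M) (Sm z) (A.map Sm) π := by
      have k : ∀ τ : Fx (Bk n p k0), jm (kaB p V π k0 Sm) (p.M + 1) τ A z ^ 2 ≤
          2 + 2 * fD p V k0 (f2 p.M) (Sm z) (A.map Sm) (π * τ.1) := fun τ => by
        rw [mu_jm p V π k0 Sm _ hz, fD, fD]
        exact mu_sq p.M (dl_ge p (hV.up _) _ _ _ _)
      refine (av_mono k).trans (le_of_eq ?_)
      rw [av_add, av_const, av_mul_left, st, Av]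
    linarith [h5.2]
  · obtain ⟨-, h1, h3⟩ := mu_of_val hp F hV hσ hη π (h z).1
    have h4 := mu_err_st p F V k0 π (hz' hz)
    have h5 := abs_le.1 ((le_add_of_nonneg_left
      (add_nonneg (abs_nonneg _) (abs_nonneg _))).trans h4)
    have e : (av fun τ => max (jm (kaB p V π k0 Sm) (p.M + 1) τ A z - ((p.T2 + 1 : ℕ) : ℝ)) 0) =
        st p V k0 (f3 p.M p.T2) (Sm z) (A.map Sm) π := by
      refine congrArg av (funext fun τ => ?_)
      rw [mu_jm p V π k0 Sm _ hz]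
      simp only [fD, f1, f3]
      push_cast
      congr 1
      ring
    rw [e]
    linarith [h5.2]
  · have h3 := (mu_of_val hp F hV hσ hη π (h ⟨0, hm⟩).1).2.2
    have h5 := abs_le.1 (mu_err_mu p F V k0 (Sm ⟨0, hm⟩) π (A.map Sm))
    have e : (av fun τ => ((GdB p F V π k0 Sm τ A).card : ℝ)) = muB p F V k0 (A.map Sm) π := by
      refine congrArg av (funext fun τ => ?_)
      rw [GdB, card_image_of_injective _ fun a b hab => by simpa using hab]
      rfl
    rw [e]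
    linarith [h5.1]

lemma OH.mono {Ω : Type} [Fintype Ω] {m : ℕ} {ka : Ω → B m → ℤ} {Gd : Ω → B m → Finset ℤ}
    {s T T2 M : ℕ} {w μ e1 σ σ' : ℝ} (h : OH ka Gd s T T2 M w μ e1 σ) (hσ : σ ≤ σ') :
    OH ka Gd s T T2 M w μ e1 σ' :=
  ⟨h.anti, h.win, h.h1, fun A z hz => (h.h2 A z hz).trans hσ, h.h3, h.h4⟩

/-- Several blocks, possibly of different families, with shared directions. -/
theorem multi {w m S q : ℕ} {p : Pr} (hp : p.Ok n w) (I : Finset ℕ) (hI : I ⊆ range q)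
    (F : ℕ → Finset (B n)) (V : ℕ → ℕ → B n → Prop) (π : ℕ → Pm n) (kb : ℕ → ℕ)
    (hV : ∀ j ∈ I, Sys p.r w (V j)) (hk : ∀ j ∈ I, kb j + p.l + p.d ≤ n)
    {σ σ' η e L : ℝ} (hσ : 0 < σ) (hη : 0 < η) (he : 0 < e) (hm : 0 < m) (hmd : m ≤ p.d)
    (hd : 2 * q * ((p.T : ℝ) + p.s) * m * (2 / η + 3) ^ q ≤ p.d * e)
    (hσ' : 2 + 2 * (σ + η) ≤ σ')
    (hOB : OBok m S q (p.T + p.s) (p.T2 + 1) (p.M + 1) e (2 * η) σ')
    (hL : L ≤ av fun z : Fin p.d => ∑ j ∈ I, max (vl p σ η (F j) (V j) (kb j) z (π j)) 0) :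
    ∃ (Sm : Fin m ↪ Fin p.d) (J : Finset ℕ) (G : ℕ → Finset (B m)), J ⊆ I ∧
      (∀ j ∈ J, G j ⊆ lay m (m / 2 + j * S) S ∧
        Sel (GdB p (F j) (V j) (π j) (kb j) Sm) (G j)) ∧
      (L - e - q * (e + 2 * η)) * (m.choose (m / 2) : ℝ) ≤ ∑ j ∈ J, ((G j).card : ℝ) := by
  have hq : I.card ≤ q := (card_le_card hI).trans (card_range q).le
  obtain ⟨Sm, J, w0, hJ, h1, h2⟩ := sel_dir I hq
    (fun j z => vl p σ η (F j) (V j) (kb j) z (π j))
    (fun j z => 1 + st p (V j) (kb j) (f1 p.M) z ∅ (π j))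
    (fun j => muB p (F j) (V j) (kb j) ∅ (π j)) hη he hm hmd
    (fun j hj => ⟨muB_nonneg _ _ _ _ _ _, muB_le (F j) (hV j hj) _ _ _⟩)
    (fun j hj z => by linarith [st1_ge (hV j hj) (kb j) z ∅ (π j)])
    (fun j _ z => vl_le p hσ hη _ _ _ _ _) hd hL
  have key : ∀ j, ∃ G : Finset (B m), j ∈ J → G ⊆ lay m (m / 2 + j * S) S ∧
      Sel (GdB p (F j) (V j) (π j) (kb j) Sm) G ∧
      ((muB p (F j) (V j) (kb j) ∅ (π j) - η) * (2 - w0 j) - e) * (m.choose (m / 2) : ℝ) ≤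
        G.card := by
    intro j
    by_cases hj : j ∈ J
    · obtain ⟨k0, k1, k2⟩ := h1 j hj
      obtain ⟨G, hG⟩ := hOB j (mem_range.1 (hI (hJ hj))) _ _ _ p.s p.T (w0 j) _ le_rfl k0 k1
        (by push_cast; linarith [muB_le (F j) (hV j (hJ hj)) (kb j) ∅ (π j)])
        ((oh_of_val hp (hk j (hJ hj)) (F j) (hV j (hJ hj)) hσ hη (π j) hm Sm k2).mono hσ')
      exact ⟨G, fun _ => hG⟩
    · exact ⟨∅, fun k => absurd k hj⟩
  choose G hG using key
  refine ⟨Sm, J, G, hJ, fun j hj => ⟨(hG j hj).1, (hG j hj).2.1⟩, ?_⟩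
  refine le_trans ?_ (sum_le_sum fun j hj => (hG j hj).2.2)
  rw [← sum_mul]
  refine mul_le_mul_of_nonneg_right ?_ (Nat.cast_nonneg _)
  have h3 : ∑ j ∈ J, (muB p (F j) (V j) (kb j) ∅ (π j) * (2 - w0 j) - (e + 2 * η)) ≤
      ∑ j ∈ J, ((muB p (F j) (V j) (kb j) ∅ (π j) - η) * (2 - w0 j) - e) :=
    sum_le_sum fun j hj => by nlinarith [mul_nonneg hη.le (h1 j hj).1]
  rw [sum_sub_distrib, sum_const, nsmul_eq_mul] at h3
  have h4 : (J.card : ℝ) ≤ q := by exact_mod_cast (card_le_card hJ).trans hq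
  have h5 := mul_le_mul_of_nonneg_right h4 (by positivity : 0 ≤ e + 2 * η)
  linarith

end Pool.Agent.Work.MP_84019e_co.Str
end

-- merged part: Pool.Agent.Work.MP_84019e_co.Sg.Chain
section
set_option autoImplicit false

namespace Pool.Agent.Work.MP_84019e_co.Sg

open Finset Pool.Agent.Work.MP_84019e_co.Cube Pool.Agent.Work.MP_84019e_co.Str
open Filter Topology

/-- Paper, CH. -/
theorem bl_chain {P : Type} [PartialOrder P] {D n w mm S : ℕ} {q : Pr} {F : Finset (Fin D → ℤ)}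
    (hF : StrongFree P F) (a : ℕ → B q.r) (hq : q.Ok n (w / 2)) {σ σ' η e : ℝ} (hσ : 0 < σ)
    (hη : 0 < η) (he : 0 < e) (hm : 0 < mm) (hmd : mm ≤ q.d)
    (hd : 2 * q.r * ((q.T : ℝ) + q.s) * mm * (2 / η + 3) ^ q.r ≤ q.d * e)
    (hσ' : 2 + 2 * (σ + η) ≤ σ')
    (hOB : OBok mm S q.r (q.T + q.s) (q.T2 + 1) (q.M + 1) e (2 * η) σ')
    (C : Finset (Pc D (n + q.r) × Pm n × ℕ))
    (hC : ∀ b ∈ C, Function.Injective b.1.2 ∧ b.2.2 + q.l + q.d ≤ n)
    (hch : ∀ b ∈ C, ∀ b' ∈ C, b ≠ b' → bl q b b' ∨ bl q b' b) :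
    (∑ b ∈ C, bv q σ η F a w b - e - q.r * (e + 2 * η)) * (mm.choose (mm / 2) : ℝ) ≤
      LaStar (B mm) P := by
  classical
  set C' := C.filter fun b => 0 < bv q σ η F a w b with hC'
  have m1 : ∀ b ∈ C', b ∈ C ∧ 0 < bv q σ η F a w b := fun b hb => mem_filter.1 hb
  have lt : ∀ b ∈ C', ∀ b' ∈ C', bl q b b' → bj q F a w b < bj q F a w b' := fun b hb b' hb' h =>
    bj_lt hq hσ hη (hC b (m1 b hb).1).1 (hC b (m1 b hb).1).2 (m1 b hb).2
      (hC b' (m1 b' hb').1).1 (hC b' (m1 b' hb').1).2 (m1 b' hb').2 h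
  have inj : ∀ b ∈ C', ∀ b' ∈ C', bj q F a w b = bj q F a w b' → b = b' := by
    intro b hb b' hb' h
    by_contra hne
    rcases hch b (m1 b hb).1 b' (m1 b' hb').1 hne with k | k
    · exact absurd (lt b hb b' hb' k) (by omega)
    · exact absurd (lt b' hb' b hb k) (by omega)
  have e0 : ∑ b ∈ C, bv q σ η F a w b = ∑ b ∈ C', bv q σ η F a w b := by
    rw [hC', sum_filter]
    refine sum_congr rfl fun b _ => ?_
    split_ifs with h
    · rfl
    · exact le_antisymm (not_lt.1 h) (bv_nonneg b)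
  rcases C'.eq_empty_or_nonempty with hE | ⟨b0, hb0⟩
  · rw [e0, hE, sum_empty]
    refine le_trans ?_ (Nat.cast_nonneg _)
    refine mul_nonpos_of_nonpos_of_nonneg ?_ (Nat.cast_nonneg _)
    have : (0 : ℝ) ≤ q.r * (e + 2 * η) := by positivity
    linarith
  set I := C'.image (bj q F a w) with hI
  have ex : ∀ j, ∃ b : Pc D (n + q.r) × Pm n × ℕ, j ∈ I → b ∈ C' ∧ bj q F a w b = j := by
    intro j
    by_cases hj : j ∈ I
    · obtain ⟨b, hb, e⟩ := mem_image.1 hj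
      exact ⟨b, fun _ => ⟨hb, e⟩⟩
    · exact ⟨b0, fun h => absurd h hj⟩
  choose β hβ using ex
  have hIr : I ⊆ range q.r := by
    intro j hj
    obtain ⟨b, hb, rfl⟩ := mem_image.1 hj
    exact mem_range.2 (pos_block hq hσ hη (hC b (m1 b hb).1).1 (hC b (m1 b hb).1).2 (m1 b hb).2).1
  have e1 : ∑ b ∈ C', bv q σ η F a w b = ∑ j ∈ I, bv q σ η F a w (β j) := by
    rw [hI, sum_image fun x hx y hy h => inj x hx y hy h]
    refine sum_congr rfl fun b hb => ?_
    have hj : bj q F a w b ∈ I := mem_image_of_mem _ hb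
    rw [inj _ (hβ _ hj).1 b hb (hβ _ hj).2]
  have hCβ : ∀ j ∈ I, Function.Injective (β j).1.2 ∧ (β j).2.2 + q.l + q.d ≤ n := fun j hj =>
    hC _ (m1 _ (hβ j hj).1).1
  obtain ⟨Sm, J, G, hJ, hG, hc⟩ := multi (q := q.r) (L := ∑ j ∈ I, bv q σ η F a w (β j)) hq I hIr
    (fun j => pH F w (lo (β j).1)) (fun j => VG F a (w / 2) (β j).1) (fun j => (β j).2.1)
    (fun j => (β j).2.2) (fun j hj => VG_sys (hCβ j hj).1 hq.wn) (fun j hj => (hCβ j hj).2)
    hσ hη he hm hmd hd hσ' hOB (by rw [av_sum]; exact le_rfl)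
  rw [e0, e1]
  refine hc.trans ?_
  have := asm_g (w := w) hF (fun j => VG F a (w / 2) (β j).1) β J Sm G
    (fun j hj => hCβ j (hJ hj)) (fun j hj j' hj' h => ?_) hG
  · exact_mod_cast this
  · have h1 := hβ j (hJ hj)
    have h2 := hβ j' (hJ hj')
    have hne : β j ≠ β j' := fun k => by
      have := h1.2
      rw [k, h2.2] at this
      omega
    rcases hch _ (m1 _ h1.1).1 _ (m1 _ h2.1).1 hne with k | k
    · exact k
    · have := lt _ h2.1 _ h1.1 k
      omega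

end Pool.Agent.Work.MP_84019e_co.Sg
end

-- merged part: Pool.Agent.Work.MP_84019e_co.Sg.Slice
section
set_option autoImplicit false

namespace Pool.Agent.Work.MP_84019e_co.Sg

open Finset Pool.Agent.Work.MP_84019e_co.Cube Pool.Agent.Work.MP_84019e_co.Str
open Filter Topology

variable {D k : ℕ}

lemma sum_indep (l : Fin D) (φ : ℤ → ℝ) (h : (Fin D → ℤ) → ℝ)
    (hh : ∀ z u, h (Function.update z l u) = h z) :
    (k : ℝ) * ∑ z ∈ box D k, φ (z l) * h z =
      (∑ u ∈ Ico (0 : ℤ) k, φ u) * ∑ z ∈ box D k, h z := by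
  classical
  have e1 : (k : ℝ) * ∑ z ∈ box D k, φ (z l) * h z =
      ∑ p ∈ box D k ×ˢ Ico (0 : ℤ) k, φ (p.1 l) * h p.1 := by
    rw [sum_product, mul_sum]
    refine sum_congr rfl fun z _ => ?_
    simp
  have e2 : (∑ u ∈ Ico (0 : ℤ) k, φ u) * ∑ z ∈ box D k, h z =
      ∑ p ∈ box D k ×ˢ Ico (0 : ℤ) k, φ p.2 * h p.1 := by
    rw [sum_product_right, sum_mul_sum]
  have hm : ∀ p ∈ box D k ×ˢ Ico (0 : ℤ) k,
      ((Function.update p.1 l p.2, p.1 l) : (Fin D → ℤ) × ℤ) ∈ box D k ×ˢ Ico (0 : ℤ) k := by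
    intro p hp
    obtain ⟨h1, h2⟩ := mem_product.1 hp
    refine mem_product.2 ⟨mem_box.2 fun i => ?_, mem_Ico.2 (mem_box.1 h1 l)⟩
    by_cases hi : i = l
    · subst hi
      simpa using mem_Ico.1 h2
    · simpa [Function.update_of_ne hi] using mem_box.1 h1 i
  rw [e1, e2]
  refine sum_nbij' (fun p => (Function.update p.1 l p.2, p.1 l))
    (fun p => (Function.update p.1 l p.2, p.1 l)) hm hm ?_ ?_ ?_
  · intro p _
    simp
  · intro p _
    simp
  · intro p _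
    simp [hh]

lemma sum_frozen {f : ℕ} (u : Fin f → Fin D) (hu : Function.Injective u) (h : (Fin D → ℤ) → ℝ)
    (h0 : ∀ z, 0 ≤ h z) (hh : ∀ j z c, h (Function.update z (u j) c) = h z) :
    ∑ z ∈ box D k, (∏ j, lam k (z (u j) + 1)) * h z ≤
      ((k : ℝ) ^ 2 / 6) ^ f * ∑ z ∈ box D k, h z := by
  induction f with
  | zero => simp
  | succ f ih =>
    have hne : ∀ j : Fin f, u j.succ ≠ u 0 := fun j e => Fin.succ_ne_zero j (hu e)
    have h1 := ih (fun j => u j.succ) (fun i j e => Fin.succ_injective _ (hu e))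
      fun j z c => hh j.succ z c
    have h2 := sum_indep (k := k) (u 0) (fun c => lam k (c + 1))
      (fun z => (∏ j : Fin f, lam k (z (u j.succ) + 1)) * h z) fun z c => by
        simp only [hh, Function.update_of_ne (hne _)]
    have h3 : ∑ c ∈ Ico (0 : ℤ) k, lam k (c + 1) ≤ k * ((k : ℝ) ^ 2 / 6) := by
      have a := sum_lam k
      simp only [sum_sub_distrib, sum_const, Int.card_Ico, sub_zero, Int.toNat_natCast,
        nsmul_eq_mul] at a
      have b : (0 : ℝ) ≤ k := Nat.cast_nonneg k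
      linarith
    have h4 : 0 ≤ ∑ z ∈ box D k, (∏ j : Fin f, lam k (z (u j.succ) + 1)) * h z :=
      sum_nonneg fun z hz => mul_nonneg
        (prod_nonneg fun j _ => lam_nonneg (mem_box.1 hz _).1 (mem_box.1 hz _).2) (h0 z)
    simp only [Fin.prod_univ_succ, mul_assoc]
    rcases Nat.eq_zero_or_pos k with rfl | hk
    · rw [sum_eq_zero fun z hz => ?_]
      · simp
      · have := mem_box.1 hz (u 0)
        omega
    have hk' : (0 : ℝ) < k := by exact_mod_cast hk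
    refine le_of_mul_le_mul_left ?_ hk'
    rw [h2]
    calc _ ≤ k * ((k : ℝ) ^ 2 / 6) * (((k : ℝ) ^ 2 / 6) ^ f * ∑ z ∈ box D k, h z) :=
          mul_le_mul h3 h1 h4 (by positivity)
      _ = _ := by ring

open Classical in
/-- The flux identity inside the slices. -/
lemma slice_flux (T : Finset (Fin D)) (g : (Fin D → ℤ) → ℝ)
    (hg : ∀ z l, l ∉ T → g (z + Pi.single l 1) = g z) (Dn : (Fin D → ℤ) → Prop)
    (hDn : ∀ z l, l ∉ T → Dn (z + Pi.single l 1) → Dn z) :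
    ∑ l ∈ Tᶜ, ∑ z ∈ cross k Dn l, g z * lam k (z l + 1) =
      ∑ z ∈ (box D k).filter Dn, g z * ∑ l ∈ Tᶜ, ((k : ℝ) - 1 - 2 * z l) := by
  have h1 : ∀ i, i ∉ T → ∑ x ∈ cross k Dn i, g x * lam k (x i + 1) =
      ∑ x ∈ (box D k).filter Dn, (g x * lam k (x i + 1) - g x * lam k (x i)) := by
    intro i hi
    have h2 : ∑ x ∈ (box D k).filter Dn, g x * lam k (x i) =
        ∑ x ∈ ((box D k).filter Dn).filter (fun x => Dn (x + Pi.single i 1)),
          g x * lam k (x i + 1) := by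
      rw [← sum_filter_ne_zero,
        ← sum_filter_ne_zero (f := fun x : Fin D → ℤ => g x * lam k (x i + 1))]
      symm
      refine sum_nbij' (fun x => x + Pi.single i 1) (fun x => x - Pi.single i 1) ?_ ?_ ?_ ?_ ?_
      · intro x hx
        simp only [mem_filter] at hx ⊢
        obtain ⟨⟨⟨hb, -⟩, h3⟩, h4⟩ := hx
        refine ⟨⟨mem_box.2 fun l => ?_, h3⟩, by rw [hg x i hi]; simpa using h4⟩
        have a1 := mem_box.1 hb l
        simp only [Pi.add_apply, Pi.single_apply]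
        split_ifs with h5
        · subst h5
          have : x l + 1 ≠ k := fun h => h4 (by simp [lam, h])
          omega
        · omega
      · intro x hx
        simp only [mem_filter] at hx ⊢
        obtain ⟨⟨hb, h3⟩, h4⟩ := hx
        have a0 : x - Pi.single i 1 + Pi.single i 1 = x := sub_add_cancel _ _
        have a2 : g (x - Pi.single i 1) = g x := by rw [← hg _ i hi, a0]
        refine ⟨⟨⟨mem_box.2 fun l => ?_, hDn _ i hi (by rw [a0]; exact h3)⟩,
          by rw [a0]; exact h3⟩, by rw [a2]; simpa using h4⟩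
        have a1 := mem_box.1 hb l
        simp only [Pi.sub_apply, Pi.single_apply]
        split_ifs with h5
        · subst h5
          have : x l ≠ 0 := fun h => h4 (by simp [lam, h])
          omega
        · omega
      · intro x _
        simp
      · intro x _
        simp
      · intro x _
        rw [hg x i hi]
        simp
    rw [sum_sub_distrib, h2, ← sum_filter_add_sum_filter_not ((box D k).filter Dn)
      (fun x => Dn (x + Pi.single i 1))]
    have h3 : cross k Dn i = ((box D k).filter Dn).filter fun x => ¬ Dn (x + Pi.single i 1) := by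
      ext x
      rw [mem_cross, mem_filter, mem_filter, and_assoc]
    rw [h3]
    ring
  rw [sum_congr rfl fun i hi => h1 i (mem_compl.1 hi), sum_comm]
  refine sum_congr rfl fun x _ => ?_
  rw [mul_sum]
  refine sum_congr rfl fun i _ => ?_
  simp only [lam]
  push_cast
  ring

/-- The positive part of the divergence. -/
lemma slc_div {m : ℕ} {δ : ℝ} (hδ : 0 < δ) (hδ1 : δ ≤ 1) (hd : 36 ≤ δ ^ 6 * ((m : ℝ) + 1))
    (hk : 2 ≤ δ * (k : ℝ) ^ 2) :
    ∑ z ∈ box (m + 1) k, max (∑ l, ((k : ℝ) - 1 - 2 * z l)) 0 ≤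
      ((m : ℝ) + 1) * (k : ℝ) ^ 2 * ((1 / 6 + 2 * δ) * G (Fin 2) (m + 1) k) := by
  classical
  let D0 : (Fin (m + 1) → ℤ) → Prop := fun x => 0 < ((m + 1 : ℕ) : ℤ) * (k - 1) - 2 * ∑ i, x i
  have hD0 : ∀ x y, x ≤ y → D0 y → D0 x := fun x y hxy hy => by
    have : ∑ i, x i ≤ ∑ i, y i := sum_le_sum fun i _ => hxy i
    simp only [D0] at hy ⊢
    omega
  have h1 := flux_le hδ hδ1 hd hk D0 hD0
  rw [flux_eq D0 hD0, sum_filter] at h1
  have a : ((midLev (m + 1) k).card : ℝ) ≤ G (Fin 2) (m + 1) k := by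
    exact_mod_cast le_G (filter_subset _ _) (midLev_free (m + 1) k)
  have b : (0 : ℝ) ≤ G (Fin 2) (m + 1) k := Nat.cast_nonneg _
  refine le_trans (sum_le_sum fun z _ => ?_) (h1.trans
    (mul_le_mul_of_nonneg_left ?_ (by positivity)))
  · have e : ∑ l, ((k : ℝ) - 1 - 2 * z l) =
        ((((m + 1 : ℕ) : ℤ) * (k - 1) - 2 * ∑ i, z i : ℤ) : ℝ) := by
      simp only [sum_sub_distrib, sum_const, card_univ, Fintype.card_fin, nsmul_eq_mul, ← mul_sum]
      push_cast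
      ring
    rw [e]
    split_ifs with h3
    · exact max_le le_rfl (by exact_mod_cast le_of_lt h3)
    · exact max_le (by exact_mod_cast not_lt.1 h3) le_rfl
  · nlinarith [mul_le_mul_of_nonneg_left a (by positivity : 0 ≤ 1 / 6 + δ), mul_nonneg hδ.le b]

/-- The cost of the frozen directions. -/
lemma slc_cost {m L f : ℕ} {δ : ℝ} (hP : Par m L k δ) (hf : f ≤ L) (hk : 0 < k) :
    (k : ℝ) ^ (m + 1) * (f * k) ≤ ((m : ℝ) + 1) * (k : ℝ) ^ 2 * (δ * G (Fin 2) (m + 1) k) := by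
  have hδ := hP.pos
  have hd := hP.dim
  have hm : (0 : ℝ) < m + 1 := by positivity
  have h2 := width_lower m k hk
  have hr2 : √((m : ℝ) + 1) ^ 2 = m + 1 := Real.sq_sqrt hm.le
  have hr0 : 0 < √((m : ℝ) + 1) := Real.sqrt_pos.2 hm
  generalize √((m : ℝ) + 1) = r at *
  have h3 : 6 ≤ δ ^ 3 * r := by
    refine le_of_pow_le_pow_left₀ two_ne_zero (by positivity) ?_
    rw [mul_pow, hr2, ← pow_mul]
    norm_num
    exact hd
  have hf' : (f : ℝ) ≤ L := by exact_mod_cast hf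
  have h4 : (f : ℝ) * δ ^ 2 ≤ 1 := (mul_le_mul_of_nonneg_right hf' (sq_nonneg δ)).trans hP.sq
  have h5 : (f : ℝ) * 6 ≤ δ * r :=
    calc (f : ℝ) * 6 ≤ f * (δ ^ 3 * r) := mul_le_mul_of_nonneg_left h3 (Nat.cast_nonneg f)
      _ = f * δ ^ 2 * (δ * r) := by ring
      _ ≤ 1 * (δ * r) := mul_le_mul_of_nonneg_right h4 (by positivity)
      _ = _ := one_mul _
  have b : (0 : ℝ) ≤ G (Fin 2) (m + 1) k := Nat.cast_nonneg _
  generalize (G (Fin 2) (m + 1) k : ℝ) = W at *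
  calc (k : ℝ) ^ (m + 1) * (f * k) = k ^ m * (f * (k : ℝ) ^ 2) := by ring
    _ ≤ 6 * r * W * (f * (k : ℝ) ^ 2) := mul_le_mul_of_nonneg_right h2 (by positivity)
    _ = f * 6 * (r * W * (k : ℝ) ^ 2) := by ring
    _ ≤ δ * r * (r * W * (k : ℝ) ^ 2) := mul_le_mul_of_nonneg_right h5 (by positivity)
    _ = _ := by
      rw [← hr2]
      ring

/-- Paper, SA: the flux through a family of down-sets of the slices. -/
theorem frozen_flux {m L f : ℕ} {δ : ℝ} (hP : Par m L k δ) (hf : f ≤ L)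
    (u : Fin f → Fin (m + 1)) (hu : Function.Injective u) (Dn : (Fin (m + 1) → ℤ) → Prop)
    (hDn : ∀ z z', z ≤ z' → (∀ j, z (u j) = z' (u j)) → Dn z' → Dn z) :
    ∑ l ∈ (univ.image u)ᶜ, ∑ z ∈ cross k Dn l, (∏ j, lam k (z (u j) + 1)) * lam k (z l + 1) ≤
      ((k : ℝ) ^ 2 / 6) ^ f * Om m 1 k δ := by
  classical
  have hδ := hP.pos
  have hδ1 := hP.small
  have hk0 : 0 < k := by
    rcases Nat.eq_zero_or_pos k with rfl | h
    · have := hP.side
      norm_num at this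
    · exact h
  have hk1 : (1 : ℝ) ≤ k := by exact_mod_cast hk0
  have hk2 : 2 ≤ δ * (k : ℝ) ^ 2 := by nlinarith [hP.side]
  have hne : ∀ l, l ∉ univ.image u → ∀ j, u j ≠ l := fun l hl j e =>
    hl (mem_image.2 ⟨j, mem_univ j, e⟩)
  have hs : ∀ (z : Fin (m + 1) → ℤ) l, l ∉ univ.image u → ∀ j,
      (z + Pi.single l 1 : Fin (m + 1) → ℤ) (u j) = z (u j) := fun z l hl j => by
    simp [Pi.single_eq_of_ne (hne l hl j)]
  rw [slice_flux (univ.image u) (fun z => ∏ j, lam k (z (u j) + 1))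
    (fun z l hl => by simp only [hs z l hl]) Dn fun z l hl hz =>
      hDn z _ (fun i => by
        simp only [Pi.add_apply, Pi.single_apply]
        split_ifs <;> omega) (fun j => (hs z l hl j).symm) hz]
  have hg : ∀ z ∈ box (m + 1) k, 0 ≤ ∏ j, lam k (z (u j) + 1) := fun z hz =>
    prod_nonneg fun j _ => lam_nonneg (mem_box.1 hz _).1 (mem_box.1 hz _).2
  have h1 := sum_frozen (k := k) u hu
    (fun z => max (∑ l ∈ (univ.image u)ᶜ, ((k : ℝ) - 1 - 2 * z l)) 0) (fun z => le_max_right _ _)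
    fun j z c => by
      rw [sum_congr rfl fun l hl => by
        rw [Function.update_of_ne (hne l (mem_compl.1 hl) j).symm]]
  have h2 : ∀ z ∈ box (m + 1) k, max (∑ l ∈ (univ.image u)ᶜ, ((k : ℝ) - 1 - 2 * z l)) 0 ≤
      max (∑ l, ((k : ℝ) - 1 - 2 * z l)) 0 + f * k := fun z hz => by
    have a1 := sum_compl_add_sum (univ.image u) fun l => (k : ℝ) - 1 - 2 * z l
    have a2 : ∑ _l ∈ univ.image u, -(k : ℝ) ≤ ∑ l ∈ univ.image u, ((k : ℝ) - 1 - 2 * z l) :=
      sum_le_sum fun l _ => by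
        have : (z l : ℝ) + 1 ≤ k := by exact_mod_cast (mem_box.1 hz l).2
        linarith
    rw [sum_const, card_image_of_injective _ hu, card_univ, Fintype.card_fin, nsmul_eq_mul] at a2
    have a3 := le_max_left (∑ l, ((k : ℝ) - 1 - 2 * z l)) 0
    have a4 := le_max_right (∑ l, ((k : ℝ) - 1 - 2 * z l)) 0
    have a5 : (0 : ℝ) ≤ f * k := by positivity
    exact max_le (by linarith) (by linarith)
  have h3 := sum_le_sum h2
  rw [sum_add_distrib, sum_const, card_box, nsmul_eq_mul] at h3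
  have h4 := slc_div hδ (by linarith) hP.dim hk2
  have h5 := slc_cost hP hf hk0
  refine le_trans ?_ (h1.trans (mul_le_mul_of_nonneg_left ?_ (by positivity)))
  · refine le_trans (sum_le_sum fun z hz => mul_le_mul_of_nonneg_left (le_max_left _ 0)
      (hg z (mem_filter.1 hz).1)) ?_
    exact sum_le_sum_of_subset_of_nonneg (filter_subset _ _) fun z hz _ =>
      mul_nonneg (hg z hz) (le_max_right _ _)
  · have b : 0 ≤ ((m : ℝ) + 1) * (k : ℝ) ^ 2 * (δ * G (Fin 2) (m + 1) k) := by positivity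
    push_cast at h3
    unfold Om
    rw [pow_one]
    linarith

end Pool.Agent.Work.MP_84019e_co.Sg
end

-- merged part: Pool.Agent.Work.MP_84019e_co.Sg.Step
section
set_option autoImplicit false

namespace Pool.Agent.Work.MP_84019e_co.Sg

open Finset Pool.Agent.Work.MP_84019e_co.Cube Pool.Agent.Work.MP_84019e_co.Str
open Filter Topology

variable {m L k f : ℕ} {δ : ℝ}

lemma Om_nonneg (hP : Par m L k δ) (L' : ℕ) : 0 ≤ Om m L' k δ := by
  have := hP.pos
  unfold Om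
  positivity

lemma stp_one (hP : Par m L k δ) : (1 : ℝ) ≤ k := by
  have h1 := hP.pos
  have h2 := hP.small
  have h3 := hP.side
  by_contra h
  nlinarith [not_le.1 h]

lemma Om_pos (hP : Par m L k δ) (L' : ℕ) : 0 < Om m L' k δ := by
  have h0 := hP.pos
  have k1 := stp_one hP
  have k0 : 0 < k := by exact_mod_cast lt_of_lt_of_le one_pos k1
  have h1 := width_lower m k k0
  have h2 : (0 : ℝ) < G (Fin 2) (m + 1) k := by
    by_contra h
    have h3 : (0 : ℝ) < (k : ℝ) ^ m := by positivity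
    have h4 : (0 : ℝ) ≤ 6 * √(m + 1) := by positivity
    nlinarith [mul_nonneg h4 (neg_nonneg.2 (not_lt.1 h))]
  unfold Om
  positivity

/-- The points of a piece are in the box and have bounded line weights. -/
lemma stp_Z (hP : Par m L k δ) {p : Pc (m + 1) L} (hp : p ∈ pcs (m + 1) L k δ) (A : B L) :
    pt p A ∈ box (m + 1) k ∧ Lam k (pt p A) ≤ (m + 1) * (k : ℝ) ^ 2 * (1 / 6 + 4 * δ) ∧
      ∑ l, lam k (pt p A l) ≤ (m + 1) * (k : ℝ) ^ 2 * (1 / 6 + 4 * δ) := by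
  have hδ := hP.pos
  have hk := hP.side
  obtain ⟨a1, -, a3, a4⟩ := mem_pcs.1 hp
  have b := mem_box.1 a1
  have c : ∀ l, pt p A l = p.1 l ∨ pt p A l = p.1 l + 1 := fun l => by
    simp only [pt]
    split_ifs <;> simp
  have e : ∑ l, (lam k (p.1 l + 1) + k) ≤ (m + 1) * (k : ℝ) ^ 2 * (1 / 6 + 4 * δ) := by
    rw [sum_add_distrib, sum_const, card_univ, Fintype.card_fin, nsmul_eq_mul]
    have := (abs_lt.1 (not_le.1 a3)).2
    rw [Lam] at this
    push_cast at this ⊢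
    have u : ((m : ℝ) + 1) * k * 2 ≤ (m + 1) * k * (δ * k) :=
      mul_le_mul_of_nonneg_left hk (by positivity)
    have v : 0 ≤ ((m : ℝ) + 1) * k := by positivity
    nlinarith
  refine ⟨mem_box.2 fun l => ?_,
    (sum_le_sum fun l _ => (gsa_lam (b l).1 (b l).2 (c l)).1).trans e,
    (sum_le_sum fun l _ => (gsa_lam (b l).1 (b l).2 (c l)).2).trans e⟩
  have := b l
  simp only [pt]
  split_ifs with h
  · obtain ⟨i, -, rfl⟩ := h
    have := a4 i
    omega
  · omega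

open Classical in
/-- The weight of direction `l` for position `i`. -/
noncomputable def stpW {D : ℕ} (k : ℕ) (φ : Fin f → Fin L) (Dn : (Fin D → ℤ) → Prop)
    (u : Fin f → Fin D) (t : ℕ) (z : Fin D → ℤ) (i : Fin L) (l : Fin D) : ℝ :=
  if ∃ j, φ j = i then (if ∃ j, φ j = i ∧ u j = l then lam k (z l + 1) else 0)
  else if i.val = t then (if l ∉ univ.image u ∧ z ∈ cross k Dn l then lam k (z l + 1) else 0)
  else if i.val < t then lam k (z l) else lam k (z l + 1)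

lemma stpW_nonneg {D : ℕ} (φ : Fin f → Fin L) (Dn : (Fin D → ℤ) → Prop) (u : Fin f → Fin D)
    (t : ℕ) {z : Fin D → ℤ} (hz : z ∈ box D k) (i : Fin L) (l : Fin D) :
    0 ≤ stpW k φ Dn u t z i l := by
  have a := mem_box.1 hz l
  have b := lam_nonneg a.1 a.2
  have c := gsa_lam0 a.1 a.2
  unfold stpW
  split_ifs <;> first | assumption | exact le_rfl

lemma stp_card (φ : Fin f → Fin L) (hφ : Function.Injective φ) {t : ℕ} (ht : t < L)
    (hφt : ∀ j, t < (φ j).val) :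
    f + 1 + (univ.erase (⟨t, ht⟩ : Fin L) \ univ.image φ).card = L := by
  have a : univ.image φ ⊆ univ.erase (⟨t, ht⟩ : Fin L) := fun i hi => by
    obtain ⟨j, -, rfl⟩ := mem_image.1 hi
    exact mem_erase.2 ⟨fun e => (hφt j).ne' (congrArg Fin.val e), mem_univ _⟩
  have b := card_sdiff_add_card_eq_card a
  rw [card_image_of_injective _ hφ, card_erase_of_mem (mem_univ _)] at b
  simp only [card_univ, Fintype.card_fin] at b
  omega

open Classical in
lemma stp_sum {D : ℕ} (φ : Fin f → Fin L) (hφ : Function.Injective φ) {t : ℕ} (ht : t < L)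
    (hφt : ∀ j, t < (φ j).val) (Dn : (Fin D → ℤ) → Prop) (u : Fin f → Fin D) {z : Fin D → ℤ}
    (hz : z ∈ box D k) {β : ℝ} (h1 : Lam k z ≤ β) (h2 : ∑ l, lam k (z l) ≤ β) :
    ∑ y : Fin L → Fin D, ∏ i, stpW k φ Dn u t z i (y i) ≤
      (∑ l ∈ (univ.image u)ᶜ, if z ∈ cross k Dn l then
        (∏ j, lam k (z (u j) + 1)) * lam k (z l + 1) else 0) *
        β ^ (univ.erase (⟨t, ht⟩ : Fin L) \ univ.image φ).card := by
  have a : univ.image φ ⊆ univ.erase (⟨t, ht⟩ : Fin L) := fun i hi => by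
    obtain ⟨j, -, rfl⟩ := mem_image.1 hi
    exact mem_erase.2 ⟨fun e => (hφt j).ne' (congrArg Fin.val e), mem_univ _⟩
  have n0 := fun i l => stpW_nonneg (k := k) φ Dn u t hz i l
  have e1 : ∏ i ∈ univ.image φ, ∑ l, stpW k φ Dn u t z i l = ∏ j, lam k (z (u j) + 1) := by
    rw [prod_image fun x _ y _ e => hφ e]
    refine prod_congr rfl fun j _ => ?_
    simp only [stpW, hφ.eq_iff, exists_eq_left, exists_eq, if_true]
    rw [sum_ite_eq]
    simp
  have e2 : ∑ l, stpW k φ Dn u t z ⟨t, ht⟩ l =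
      ∑ l ∈ (univ.image u)ᶜ, if z ∈ cross k Dn l then lam k (z l + 1) else 0 := by
    have : ¬ ∃ j, φ j = ⟨t, ht⟩ := fun ⟨j, e⟩ => (hφt j).ne' (congrArg Fin.val e)
    simp only [stpW, if_neg this, if_true, ite_and]
    rw [← sum_filter]
    refine sum_congr ?_ fun _ _ => rfl
    ext l
    simp only [mem_filter, mem_univ, true_and, mem_compl]
  have e3 : ∏ i ∈ univ.erase (⟨t, ht⟩ : Fin L) \ univ.image φ, ∑ l, stpW k φ Dn u t z i l ≤
      β ^ (univ.erase (⟨t, ht⟩ : Fin L) \ univ.image φ).card := by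
    refine (prod_le_prod (g := fun _ => β) (fun i _ => sum_nonneg fun l _ => n0 i l)
      fun i hi => ?_).trans_eq (prod_const β)
    obtain ⟨b1, b2⟩ := mem_sdiff.1 hi
    have c1 : i.val ≠ t := fun e => (mem_erase.1 b1).1 (Fin.ext e)
    have c2 : ¬ ∃ j, φ j = i := fun ⟨j, e⟩ => b2 (mem_image.2 ⟨j, mem_univ _, e⟩)
    simp only [stpW, if_neg c1, if_neg c2]
    by_cases b : i.val < t
    · simpa only [if_pos b] using h2
    · simpa only [if_neg b, Lam] using h1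
  have p0 : 0 ≤ ∏ j, lam k (z (u j) + 1) := prod_nonneg fun j _ =>
    lam_nonneg (mem_box.1 hz _).1 (mem_box.1 hz _).2
  have s0 : 0 ≤ ∑ l, stpW k φ Dn u t z ⟨t, ht⟩ l := sum_nonneg fun l _ => n0 _ l
  rw [← Fintype.prod_sum (fun (i : Fin L) l => stpW k φ Dn u t z i l),
    ← mul_prod_erase _ _ (mem_univ (⟨t, ht⟩ : Fin L)), ← prod_sdiff a, e1]
  have e4 : (∑ l ∈ (univ.image u)ᶜ, if z ∈ cross k Dn l then
      (∏ j, lam k (z (u j) + 1)) * lam k (z l + 1) else 0) =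
      (∑ l, stpW k φ Dn u t z ⟨t, ht⟩ l) * ∏ j, lam k (z (u j) + 1) := by
    rw [e2, sum_mul]
    refine sum_congr rfl fun l _ => ?_
    split_ifs
    · ring
    · ring
  rw [e4, mul_comm _ (∏ j, lam k (z (u j) + 1)), ← mul_assoc]
  exact mul_le_mul_of_nonneg_left e3 (mul_nonneg s0 p0)

/-- Paper, SA: the weight of the pieces that cross at step `t`. -/
theorem step_le (hP : Par m L k δ) (φ : Fin f → Fin L) (hφ : Function.Injective φ) {t : ℕ}
    (ht : t < L) (hφt : ∀ j, t < (φ j).val)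
    (Dn : (Fin f → Fin (m + 1)) → (Fin (m + 1) → ℤ) → Prop)
    (hDn : ∀ u z z', z ≤ z' → (∀ j, z (u j) = z' (u j)) → Dn u z' → Dn u z) :
    ∑ p ∈ pcs (m + 1) L k δ, pb k p * ind (Dn (fun j => p.2 (φ j)) (pt p (init L t)) ∧
      ¬ Dn (fun j => p.2 (φ j)) (pt p (init L (t + 1)))) ≤ Om m L k δ := by
  classical
  have hδ := hP.pos
  have hc := stp_card φ hφ ht hφt
  obtain ⟨β, hβ⟩ : ∃ β, β = (m + 1) * (k : ℝ) ^ 2 * (1 / 6 + 4 * δ) := ⟨_, rfl⟩
  have β0 : 0 ≤ β := by rw [hβ]; positivity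
  let Z := (box (m + 1) k).filter fun z => Lam k z ≤ β ∧ ∑ l, lam k (z l) ≤ β
  let U := (univ : Finset (Fin f → Fin (m + 1))).filter fun u => Function.Injective u
  let 𝒜 := (pcs (m + 1) L k δ).filter fun p => Dn (fun j => p.2 (φ j)) (pt p (init L t)) ∧
      ¬ Dn (fun j => p.2 (φ j)) (pt p (init L (t + 1)))
  let g : Pc (m + 1) L → (Fin f → Fin (m + 1)) × Pc (m + 1) L :=
    fun p => (fun j => p.2 (φ j), pt p (init L t), p.2)
  let W : (Fin f → Fin (m + 1)) × Pc (m + 1) L → ℝ :=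
    fun q => ∏ i : Fin L, stpW k φ (Dn q.1) q.1 t q.2.1 i (q.2.2 i)
  have h1 : ∀ p ∈ 𝒜, pb k p = W (g p) := fun p hp => by
    obtain ⟨a1, b1, b2⟩ := mem_filter.1 hp
    have a2 := (mem_pcs.1 a1).2.1
    refine prod_congr rfl fun i _ => ?_
    have c := gsa_pt a2 (init L t) i
    simp only [mem_init] at c
    simp only [g]
    unfold stpW
    split_ifs with e0 e1 e2 e3 e4
    · obtain ⟨j, rfl⟩ := e0
      rw [c, if_neg (hφt j).le.not_gt, add_zero]
    · obtain ⟨j, rfl⟩ := e0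
      exact absurd ⟨j, rfl, rfl⟩ e1
    · rw [c, if_neg (by omega), add_zero]
    · subst e2
      rw [gsa_step a2 i] at b2
      refine absurd ⟨fun h => ?_, mem_cross.2 ⟨(stp_Z hP a1 _).1, b1, b2⟩⟩ e3
      obtain ⟨j, -, e⟩ := mem_image.1 h
      exact e0 ⟨j, a2 e⟩
    · rw [c, if_pos e4]
    · rw [c, if_neg e4, add_zero]
  have hg : Set.InjOn g 𝒜 := fun p _ q _ e => by
    obtain ⟨-, e2⟩ := Prod.ext_iff.1 e
    obtain ⟨e2, e3⟩ := Prod.ext_iff.1 e2
    simp only [g] at e2 e3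
    refine Prod.ext (funext fun l => ?_) e3
    have := congrFun e2 l
    simp only [pt, e3] at this
    exact add_right_cancel this
  have h4 : ∑ p ∈ 𝒜, pb k p ≤ ∑ q ∈ U ×ˢ Z ×ˢ univ, W q := by
    rw [sum_congr rfl h1]
    refine (sum_image (f := W) hg).symm.trans_le (sum_le_sum_of_subset_of_nonneg
      (fun q hq => ?_) fun q hq _ => prod_nonneg fun i _ => stpW_nonneg _ _ _ _ ?_ _ _)
    · obtain ⟨p, hp, rfl⟩ := mem_image.1 hq
      have a1 := (mem_filter.1 hp).1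
      have a3 := stp_Z hP a1 (init L t)
      rw [← hβ] at a3
      exact mem_product.2 ⟨mem_filter.2 ⟨mem_univ _, (mem_pcs.1 a1).2.1.comp hφ⟩,
        mem_product.2 ⟨mem_filter.2 a3, mem_univ _⟩⟩
    · exact (mem_filter.1 (mem_product.1 (mem_product.1 hq).2).1).1
  have h5 : ∀ u ∈ U, ∑ q ∈ Z ×ˢ (univ : Finset (Fin L → Fin (m + 1))), W (u, q) ≤
      ((k : ℝ) ^ 2 / 6) ^ f * Om m 1 k δ *
        β ^ (univ.erase (⟨t, ht⟩ : Fin L) \ univ.image φ).card := fun u hu => by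
    rw [sum_product]
    refine (sum_le_sum fun z hz => stp_sum φ hφ ht hφt (Dn u) u (mem_filter.1 hz).1
      (mem_filter.1 hz).2.1 (mem_filter.1 hz).2.2).trans ?_
    rw [← sum_mul]
    refine mul_le_mul_of_nonneg_right (le_trans ?_
      (frozen_flux hP (by omega) u (mem_filter.1 hu).2 (Dn u) (hDn u))) (pow_nonneg β0 _)
    rw [sum_comm]
    refine sum_le_sum fun l _ => ?_
    rw [← sum_filter]
    refine sum_le_sum_of_subset_of_nonneg (fun x hx => (mem_filter.1 hx).2) fun x hx _ => ?_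
    have := mem_box.1 (mem_cross.1 hx).1
    exact mul_nonneg (prod_nonneg fun j _ => lam_nonneg (this _).1 (this _).2)
      (lam_nonneg (this l).1 (this l).2)
  have h6 : (U.card : ℝ) ≤ ((m : ℝ) + 1) ^ f := by
    have := card_le_univ U
    rw [Fintype.card_fun, Fintype.card_fin, Fintype.card_fin] at this
    exact_mod_cast this
  have h7 : ((m : ℝ) + 1) ^ f * ((k : ℝ) ^ 2 / 6) ^ f ≤ β ^ f := by
    rw [← mul_pow]
    refine pow_le_pow_left₀ (by positivity) ?_ f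
    have : 0 ≤ ((m : ℝ) + 1) * (k : ℝ) ^ 2 * δ := by positivity
    rw [hβ]
    linarith
  have h8 : ∑ p ∈ pcs (m + 1) L k δ, pb k p * ind (Dn (fun j => p.2 (φ j)) (pt p (init L t)) ∧
      ¬ Dn (fun j => p.2 (φ j)) (pt p (init L (t + 1)))) = ∑ p ∈ 𝒜, pb k p := by
    rw [sum_filter]
    refine sum_congr rfl fun p _ => ?_
    rw [ind_eq_ite, mul_ite, mul_one, mul_zero]
  rw [h8]
  refine h4.trans ?_
  rw [sum_product]
  refine (sum_le_card_nsmul _ _ _ h5).trans ?_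
  obtain ⟨c, hc'⟩ : ∃ c, c = (univ.erase (⟨t, ht⟩ : Fin L) \ univ.image φ).card := ⟨_, rfl⟩
  rw [← hc'] at hc ⊢
  have o1 := Om_nonneg hP 1
  have e : Om m L k δ = β ^ f * (Om m 1 k δ * β ^ c) := by
    simp only [Om, ← hβ]
    rw [← hc]
    ring
  rw [nsmul_eq_mul, e, mul_assoc, ← mul_assoc]
  refine mul_le_mul_of_nonneg_right (le_trans ?_ h7) (mul_nonneg o1 (pow_nonneg β0 _))
  exact mul_le_mul_of_nonneg_right h6 (by positivity)

theorem steps_le (hP : Par m L k δ) (φ : Fin f → Fin L) (hφ : Function.Injective φ) {t c : ℕ}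
    (ht : t + c ≤ L) (hφt : ∀ j, t + c ≤ (φ j).val)
    (Dn : (Fin f → Fin (m + 1)) → (Fin (m + 1) → ℤ) → Prop)
    (hDn : ∀ u z z', z ≤ z' → (∀ j, z (u j) = z' (u j)) → Dn u z' → Dn u z) :
    ∑ p ∈ pcs (m + 1) L k δ, pb k p * ind (Dn (fun j => p.2 (φ j)) (pt p (init L t)) ∧
      ¬ Dn (fun j => p.2 (φ j)) (pt p (init L (t + c)))) ≤ c * Om m L k δ := by
  have h1 : ∀ p ∈ pcs (m + 1) L k δ, pb k p * ind (Dn (fun j => p.2 (φ j)) (pt p (init L t)) ∧
      ¬ Dn (fun j => p.2 (φ j)) (pt p (init L (t + c)))) ≤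
      ∑ s ∈ range c, pb k p * ind (Dn (fun j => p.2 (φ j)) (pt p (init L (t + s))) ∧
        ¬ Dn (fun j => p.2 (φ j)) (pt p (init L (t + s + 1)))) := fun p hp => by
    rw [← mul_sum]
    refine mul_le_mul_of_nonneg_left (ind_le_sum _ _ fun h => ?_) (pb_nonneg hp)
    obtain ⟨s, a, b⟩ := gsa_cross (n := c)
      (fun s => Dn (fun j => p.2 (φ j)) (pt p (init L (t + s)))) h.1 h.2
    exact ⟨s, mem_range.2 a, b⟩
  refine (sum_le_sum h1).trans ?_
  rw [sum_comm]
  refine (sum_le_card_nsmul _ _ _ fun s hs => ?_).trans_eq (by rw [card_range, nsmul_eq_mul])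
  have hs := mem_range.1 hs
  exact step_le hP φ hφ (by omega) (fun j => by have := hφt j; omega) Dn hDn

end Pool.Agent.Work.MP_84019e_co.Sg
end

-- merged part: Pool.Agent.Work.MP_84019e_co.Sg.Anti
section
set_option autoImplicit false

namespace Pool.Agent.Work.MP_84019e_co.Sg

open Finset Pool.Agent.Work.MP_84019e_co.Cube Pool.Agent.Work.MP_84019e_co.Str
open Filter Topology

lemma ant_init_mono (L : ℕ) {u v : ℕ} (h : u ≤ v) : init L u ⊆ init L v := by
  intro i hi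
  have := mem_init.1 hi
  exact mem_init.2 (by omega)

lemma ant_pt_high {D L : ℕ} {p : Pc D L} (h : Function.Injective p.2) {u : ℕ} {i : Fin L}
    (hi : u ≤ i.val) : pt p (init L u) (p.2 i) = p.1 (p.2 i) := by
  have : ¬ ∃ j ∈ init L u, p.2 j = p.2 i := by
    rintro ⟨j, hj, e⟩
    have e1 := h e
    have := mem_init.1 hj
    subst e1
    omega
  simp only [pt, if_neg this, add_zero]

lemma bl_trans {D n : ℕ} (q : Pr) {b b' b'' : Pc D (n + q.r) × Pm n × ℕ} (h : bl q b b')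
    (h' : bl q b' b'') : bl q b b'' := by
  obtain ⟨h1, h2⟩ := h
  obtain ⟨h3, h4⟩ := h'
  refine ⟨fun i hi => ?_, h2.trans ((pt_mono _ (ant_init_mono _ (Nat.le_add_right _ _))).trans h4)⟩
  obtain ⟨a1, a2⟩ := h1 i hi
  obtain ⟨a3, a4⟩ := h3 i hi
  refine ⟨a1.trans a3, a2.trans ?_⟩
  rw [a1]
  exact a4

lemma bl_irr {D n : ℕ} (q : Pr) (hl : 0 < q.l) {b : Pc D (n + q.r) × Pm n × ℕ}
    (hb : Function.Injective b.1.2) (hk : b.2.2 + q.l ≤ n) : ¬ bl q b b := by
  rintro ⟨-, h2⟩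
  have hg := rot_inj hb (ext q.r b.2.1)
  generalize rot b.1 (ext q.r b.2.1) = g at h2 hg
  have hi : b.2.2 < n + q.r := by omega
  have h3 := h2 (g.2 ⟨b.2.2, hi⟩)
  rw [ant_pt_high hg (u := b.2.2) (i := ⟨b.2.2, hi⟩) le_rfl] at h3
  have : ∃ j ∈ init (n + q.r) (b.2.2 + q.l), g.2 j = g.2 ⟨b.2.2, hi⟩ :=
    ⟨⟨b.2.2, hi⟩, mem_init.2 (by show b.2.2 < b.2.2 + q.l; omega), rfl⟩
  simp only [pt, if_pos this] at h3
  omega

/-- The frozen positions. -/
def antPhi {L c : ℕ} (hcL : c ≤ L) (j : Fin (L - c)) : Fin L := ⟨c + j.val, by have := j.2; omega⟩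

lemma antPhi_inj {L c : ℕ} (hcL : c ≤ L) : Function.Injective (antPhi hcL) := by
  intro i j h
  have := congrArg Fin.val h
  simp only [antPhi] at this
  exact Fin.ext (by omega)

/-- No top of a block lies below the point in its slice. -/
def antDn {D L c : ℕ} (hcL : c ≤ L) (l : ℕ) (𝒜 : Finset (Pc D L × ℕ)) (u : Fin (L - c) → Fin D)
    (z : Fin D → ℤ) : Prop :=
  ¬ ∃ b ∈ 𝒜, (∀ j, b.1.2 (antPhi hcL j) = u j ∧ b.1.1 (u j) = z (u j)) ∧
    pt b.1 (init L (b.2 + l)) ≤ z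

lemma antDn_down {D L c : ℕ} (hcL : c ≤ L) (l : ℕ) (𝒜 : Finset (Pc D L × ℕ))
    (u : Fin (L - c) → Fin D) (z z' : Fin D → ℤ) (h : z ≤ z') (he : ∀ j, z (u j) = z' (u j))
    (hz : antDn hcL l 𝒜 u z') : antDn hcL l 𝒜 u z := by
  rintro ⟨b, hb, h1, h2⟩
  exact hz ⟨b, hb, fun j => ⟨(h1 j).1, (h1 j).2.trans (he j)⟩, h2.trans h⟩

lemma antDn_cross {D L c l : ℕ} (hcL : c ≤ L) (𝒜 : Finset (Pc D L × ℕ))
    (ha : ∀ b ∈ 𝒜, ∀ b' ∈ 𝒜, ¬ blw c b.1 (b.2 + l) b'.1 b'.2) {b : Pc D L × ℕ} (hb : b ∈ 𝒜)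
    (hi : Function.Injective b.1.2) (hc : b.2 + l ≤ c) :
    antDn hcL l 𝒜 (fun j => b.1.2 (antPhi hcL j)) (pt b.1 (init L b.2)) ∧
      ¬ antDn hcL l 𝒜 (fun j => b.1.2 (antPhi hcL j)) (pt b.1 (init L (b.2 + l))) := by
  constructor
  · rintro ⟨b', hb', h1, h2⟩
    refine ha b' hb' b hb ⟨fun i hci => ?_, h2⟩
    have hj : i.val - c < L - c := by have := i.2; omega
    have e : antPhi hcL ⟨i.val - c, hj⟩ = i := Fin.ext (by simp only [antPhi]; omega)
    obtain ⟨a1, a2⟩ := h1 ⟨i.val - c, hj⟩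
    simp only [e] at a1 a2
    refine ⟨a1, ?_⟩
    rw [a1, a2, ant_pt_high hi (by omega)]
  · intro h
    refine h ⟨b, hb, fun j => ⟨rfl, ?_⟩, le_rfl⟩
    exact (ant_pt_high hi (by simp only [antPhi]; omega)).symm

/-- Paper, AN: antichains of blocks. -/
theorem blk_anti {m L k c l N : ℕ} {δ : ℝ} (hP : Par m L k δ) (hc : N + l ≤ c) (hcL : c ≤ L)
    (𝒜 : Finset (Pc (m + 1) L × ℕ)) (h𝒜 : ∀ b ∈ 𝒜, b.1 ∈ pcs (m + 1) L k δ ∧ b.2 ≤ N)
    (ha : ∀ b ∈ 𝒜, ∀ b' ∈ 𝒜, ¬ blw c b.1 (b.2 + l) b'.1 b'.2) :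
    ∑ b ∈ 𝒜, pb k b.1 ≤ ((N : ℝ) + 1) * (l * Om m L k δ) := by
  classical
  have hmap : ∀ b ∈ 𝒜, b.2 ∈ range (N + 1) := fun b hb =>
    mem_range.2 (Nat.lt_succ_of_le (h𝒜 b hb).2)
  rw [← sum_fiberwise_of_maps_to hmap]
  have key : ∀ t ∈ range (N + 1), ∑ b ∈ 𝒜.filter (fun b => b.2 = t), pb k b.1 ≤
      l * Om m L k δ := by
    intro t ht
    have ht' := mem_range.1 ht
    have hs := steps_le hP (antPhi hcL) (antPhi_inj hcL) (t := t) (c := l) (by omega)
      (fun j => by simp only [antPhi]; omega) (antDn hcL l 𝒜) (antDn_down hcL l 𝒜)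
    refine le_trans ?_ hs
    have hinj : Set.InjOn (fun b : Pc (m + 1) L × ℕ => b.1)
        (𝒜.filter (fun b => b.2 = t) : Finset _) := by
      intro b hb b' hb' e
      have e1 := (mem_filter.1 (mem_coe.1 hb)).2
      have e2 := (mem_filter.1 (mem_coe.1 hb')).2
      exact Prod.ext e (e1.trans e2.symm)
    rw [← sum_image (f := fun p => pb k p) hinj]
    refine le_trans (le_of_eq (sum_congr rfl fun p hp => ?_))
      (sum_le_sum_of_subset_of_nonneg (s := (𝒜.filter (fun b => b.2 = t)).image fun b => b.1)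
        ?_ fun p hp _ => mul_nonneg (pb_nonneg hp) (ind_nonneg _))
    · obtain ⟨b, hb, rfl⟩ := mem_image.1 hp
      obtain ⟨hb1, hb2⟩ := mem_filter.1 hb
      have h1 := antDn_cross hcL 𝒜 ha hb1 (mem_pcs.1 (h𝒜 b hb1).1).2.1 (by omega)
      rw [hb2] at h1
      simp only [ind, if_pos h1, mul_one]
    · intro p hp
      obtain ⟨b, hb, rfl⟩ := mem_image.1 hp
      exact (h𝒜 b (mem_filter.1 hb).1).1
  refine (sum_le_sum key).trans (le_of_eq ?_)
  rw [sum_const, card_range, nsmul_eq_mul]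
  push_cast
  ring

theorem bl_anti {m n k : ℕ} {δ : ℝ} (q : Pr) (hP : Par m (n + q.r) k δ) (hl : 0 < q.l)
    (hq : q.l + q.d ≤ n) (𝒜 : Finset (Pc (m + 1) (n + q.r) × Pm n × ℕ))
    (h𝒜 : ∀ b ∈ 𝒜, b.1 ∈ pcs (m + 1) (n + q.r) k δ ∧ b.2.2 + q.l + q.d ≤ n)
    (ha : ∀ b ∈ 𝒜, ∀ b' ∈ 𝒜, ¬ bl q b b') :
    ∑ b ∈ 𝒜, pb k b.1 / Fintype.card (Pm n) ≤ q.l * (n * Om m (n + q.r) k δ) := by
  classical
  have hO := Om_nonneg hP (n + q.r)
  have key : ∀ π : Pm n, ∑ b ∈ 𝒜.filter (fun b => b.2.1 = π), pb k b.1 ≤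
      q.l * (n * Om m (n + q.r) k δ) := by
    intro π
    have hinj : Set.InjOn (fun b : Pc (m + 1) (n + q.r) × Pm n × ℕ =>
        ((rot b.1 (ext q.r π), b.2.2) : Pc (m + 1) (n + q.r) × ℕ))
        (𝒜.filter (fun b => b.2.1 = π) : Finset _) := by
      intro b hb b' hb' e
      have e1 := (mem_filter.1 (mem_coe.1 hb)).2
      have e2 := (mem_filter.1 (mem_coe.1 hb')).2
      have e3 := congrArg Prod.fst e
      have e4 := congrArg Prod.snd e
      exact Prod.ext (rot_left_inj _ e3) (Prod.ext (e1.trans e2.symm) e4)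
    have h1 := blk_anti (c := n - q.d) (l := q.l) (N := n - q.l - q.d) hP (by omega) (by omega)
      ((𝒜.filter (fun b => b.2.1 = π)).image fun b => (rot b.1 (ext q.r π), b.2.2))
      (by
        intro x hx
        obtain ⟨b, hb, rfl⟩ := mem_image.1 hx
        obtain ⟨a1, a2⟩ := h𝒜 b (mem_filter.1 hb).1
        exact ⟨rot_mem _ a1, by show b.2.2 ≤ _; omega⟩)
      (by
        intro x hx x' hx'
        obtain ⟨b, hb, rfl⟩ := mem_image.1 hx
        obtain ⟨b', hb', rfl⟩ := mem_image.1 hx'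
        obtain ⟨a1, a2⟩ := mem_filter.1 hb
        obtain ⟨a3, a4⟩ := mem_filter.1 hb'
        have := ha b a1 b' a3
        unfold bl at this
        rw [a2, a4] at this
        exact this)
    rw [sum_image hinj] at h1
    simp only [pb_rot] at h1
    refine h1.trans ?_
    have h2 : ((n - q.l - q.d : ℕ) : ℝ) + 1 ≤ n := by
      have : n - q.l - q.d + 1 ≤ n := by omega
      exact_mod_cast this
    have h3 : (0 : ℝ) ≤ q.l * Om m (n + q.r) k δ := mul_nonneg (Nat.cast_nonneg _) hO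
    calc _ ≤ (n : ℝ) * (q.l * Om m (n + q.r) k δ) := mul_le_mul_of_nonneg_right h2 h3
      _ = _ := by ring
  have hc : (0 : ℝ) < Fintype.card (Pm n) := by exact_mod_cast Fintype.card_pos
  rw [← sum_div, div_le_iff₀ hc,
    ← sum_fiberwise_of_maps_to (t := univ) (g := fun b => b.2.1) fun b _ => mem_univ _]
  refine (sum_le_sum fun π _ => key π).trans (le_of_eq ?_)
  rw [sum_const, card_univ, nsmul_eq_mul]
  ring

end Pool.Agent.Work.MP_84019e_co.Sg
end

-- merged part: Pool.Agent.Work.MP_84019e_co.Sg.MarkA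
section
set_option autoImplicit false

namespace Pool.Agent.Work.MP_84019e_co.Sg

open Finset Pool.Agent.Work.MP_84019e_co.Cube Pool.Agent.Work.MP_84019e_co.Str
open Filter Topology

variable {m n r k : ℕ} {δ : ℝ} {F : Finset (Fin (m + 1) → ℤ)} {a : ℕ → B r}

lemma rel_one (hP : Par m (n + r) k δ) (j : ℕ) :
    ∑ p ∈ pcs (m + 1) (n + r) k δ, pb k p * ind (Cr F a p j 0 n) ≤ n * Om m (n + r) k δ := by
  have h := steps_le hP (Fin.natAdd n) (Fin.natAdd_injective r n) (t := 0) (c := n) (by omega)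
    (fun i => by simp) (fun u z => ¬ UG F a u (j + 1) z)
    (fun u z z' h1 h2 h3 h4 => h3 (UG_mono h1 h2 (j + 1) h4))
  refine le_trans (le_of_eq (sum_congr rfl fun p _ => ?_)) h
  refine congrArg _ (ind_congr ?_)
  rw [Nat.zero_add, not_not]
  exact Iff.rfl

lemma rel_sub : rel n r k δ F a ⊆ pcs (m + 1) (n + r) k δ := by
  classical
  exact filter_subset _ _

lemma markA_sum (hP : Par m (n + r) k δ) :
    ∑ p ∈ pcs (m + 1) (n + r) k δ, pb k p * ∑ j ∈ range r, ind (Cr F a p j 0 n) ≤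
      r * (n * Om m (n + r) k δ) := by
  simp only [mul_sum]
  rw [sum_comm]
  calc _ ≤ ∑ _j ∈ range r, (n : ℝ) * Om m (n + r) k δ := sum_le_sum fun j _ => rel_one hP j
    _ = _ := by rw [sum_const, card_range, nsmul_eq_mul]

lemma rel_sum (hP : Par m (n + r) k δ) :
    ∑ p ∈ rel n r k δ F a, pb k p ≤ r * (n * Om m (n + r) k δ) := by
  classical
  refine le_trans ?_ (markA_sum (F := F) (a := a) hP)
  calc ∑ p ∈ rel n r k δ F a, pb k p
      ≤ ∑ p ∈ rel n r k δ F a, pb k p * ∑ j ∈ range r, ind (Cr F a p j 0 n) := by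
        refine sum_le_sum fun p hp => ?_
        have h0 := pb_nonneg (rel_sub hp)
        have h1 : ∃ j < r, Cr F a p j 0 n := by
          unfold rel at hp
          exact (mem_filter.1 hp).2
        obtain ⟨j, hj, hc⟩ := h1
        have h2 := ind_le_sum (range r) (p := True) (fun j => Cr F a p j 0 n)
          fun _ => ⟨j, mem_range.2 hj, hc⟩
        rw [ind_pos trivial] at h2
        exact le_mul_of_one_le_right h0 h2
    _ ≤ _ := sum_le_sum_of_subset_of_nonneg rel_sub fun p hp _ =>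
        mul_nonneg (pb_nonneg hp) (sum_nonneg fun _ _ => ind_nonneg _)

lemma markA_pt (hT : Top F a) {w s s' : ℕ} (h : s + s' + r ≤ w) {p : Pc (m + 1) (n + r)}
    (hp : Function.Injective p.2) (π : Pm (n + r)) {t : ℕ} (ht : t ≤ n + r) :
    ind (Ev (pH F w p) s π t) ≤
      ind (Ev (pH F w p) s π t ∧ Bad r (pH F w p) (ch π (t - s')) (ch π (t + s'))
        fun i => π (Fin.natAdd n i)) +
      ∑ j ∈ range r, ind (t + s' ≤ n ∧ Cr F a (rot p π) j (t - s') (t + s')) := by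
  have h0 : 0 ≤ ∑ j ∈ range r, ind (t + s' ≤ n ∧ Cr F a (rot p π) j (t - s') (t + s')) :=
    sum_nonneg fun _ _ => ind_nonneg _
  by_cases he : Ev (pH F w p) s π t
  · have hn : t + s' ≤ n := by
      obtain ⟨y, hy, h1, -⟩ := he
      have h2 := (mem_pH.1 hy).2.1
      have h3 := card_le_card h1
      rw [card_ch π (by omega)] at h3
      omega
    by_cases hc : ∀ j < r, ¬ Cr F a (rot p π) j (t - s') (t + s')
    · have hb := bad_of_not_cr hT hp π w (by omega) hn hc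
      rw [ind_pos he, ind_pos (And.intro he hb)]
      linarith only [h0]
    · push Not at hc
      obtain ⟨j, hj, hc⟩ := hc
      have h2 := ind_le_sum (range r) (p := Ev (pH F w p) s π t)
        (fun j => t + s' ≤ n ∧ Cr F a (rot p π) j (t - s') (t + s'))
        fun _ => ⟨j, mem_range.2 hj, hn, hc⟩
      exact h2.trans (le_add_of_nonneg_left (ind_nonneg _))
  · rw [ind_neg he]
    exact add_nonneg (ind_nonneg _) h0

lemma markA_one (hT : Top F a) {w s s' : ℕ} (h : s + s' + r ≤ w) {p : Pc (m + 1) (n + r)}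
    (hp : Function.Injective p.2) :
    MM (pH F w p) s ≤ NB (pH F w p) s s' +
      2 * s' * av fun π : Pm (n + r) => ∑ j ∈ range r, ind (Cr F a (rot p π) j 0 n) := by
  rw [MM, NB, ← av_sum, ← av_sum, ← av_mul_left, ← av_add]
  refine av_mono fun π => ?_
  refine (sum_le_sum fun t ht =>
    markA_pt hT h hp π (Nat.le_of_lt_succ (mem_range.1 ht))).trans ?_
  rw [sum_add_distrib, sum_comm, mul_sum]
  exact add_le_add le_rfl (sum_le_sum fun j _ => cr_count (rot_inj hp π) j s')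

/-- Paper, MK (a). -/
theorem mm_le (hP : Par m (n + r) k δ) (hT : Top F a) {w s s' : ℕ} (h : s + s' + r ≤ w) :
    ∑ p ∈ pcs (m + 1) (n + r) k δ, pb k p * MM (pH F w p) s ≤
      ∑ p ∈ pcs (m + 1) (n + r) k δ, pb k p * NB (pH F w p) s s' +
        2 * s' * r * (n * Om m (n + r) k δ) := by
  have h1 := sum_rot_av (D := m + 1) (L := n + r) (k := k) (δ := δ) (fun π : Pm (n + r) => π)
    fun p => ∑ j ∈ range r, ind (Cr F a p j 0 n)
  have h2 := markA_sum (F := F) (a := a) hP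
  rw [← h1] at h2
  have h3 := mul_le_mul_of_nonneg_left h2 (show (0 : ℝ) ≤ 2 * s' by positivity)
  rw [mul_sum] at h3
  calc _ ≤ ∑ p ∈ pcs (m + 1) (n + r) k δ, (pb k p * NB (pH F w p) s s' + 2 * s' * (pb k p *
          av fun π : Pm (n + r) => ∑ j ∈ range r, ind (Cr F a (rot p π) j 0 n))) := by
        refine sum_le_sum fun p hp => ?_
        have h4 := mul_le_mul_of_nonneg_left (markA_one hT h (mem_pcs.1 hp).2.1) (pb_nonneg hp)
        linarith only [h4]
    _ ≤ _ := by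
        rw [sum_add_distrib]
        linarith only [h3]

lemma markA_mm {L : ℕ} (F : Finset (Fin (m + 1) → ℤ)) (w s : ℕ) {p : Pc (m + 1) L}
    (hp : p.1 ∈ box (m + 1) k) :
    MM (pH F w p) s ≤ ((L : ℝ) + 1) * ind (p.1 ∈ nbr k F) := by
  classical
  calc _ ≤ ∑ _t ∈ range (L + 1), ind (p.1 ∈ nbr k F) := by
        refine sum_le_sum fun t _ => av_le fun π => ind_mono ?_
        rintro ⟨y, hy, -, -⟩
        unfold nbr
        refine mem_filter.2 ⟨hp, pt p y, (mem_pH.1 hy).2.2, fun l => ?_⟩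
        simp only [pt]
        split_ifs <;> omega
    _ = _ := by
        rw [sum_const, card_range, nsmul_eq_mul]
        push_cast
        rfl

/-- Paper, MK (b). -/
theorem mm_term {L : ℕ} (hP : Par m L k δ) (F : Finset (Fin (m + 1) → ℤ)) (w s : ℕ) :
    ∑ p ∈ pcs (m + 1) L k δ, pb k p * MM (pH F w p) s ≤
      ((L : ℝ) + 1) * (nbr k F).card * (((m : ℝ) + 1) * (k : ℝ) ^ 2 * (1 / 6 + 4 * δ)) ^ L := by
  classical
  have hδ := hP.pos
  have hnb : ∀ x ∈ nbr k F, x ∈ box (m + 1) k := fun x hx => by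
    unfold nbr at hx
    exact (mem_filter.1 hx).1
  let S := (nbr k F).filter fun x => ¬ Atyp k (2 * δ) x
  have h1 : ∑ p ∈ pcs (m + 1) L k δ, pb k p * ind (p.1 ∈ nbr k F) ≤
      ∑ p ∈ S ×ˢ (univ : Finset (Fin L → Fin (m + 1))), pb k p := by
    simp only [ind_eq_ite, mul_ite, mul_one, mul_zero]
    rw [← sum_filter]
    refine sum_le_sum_of_subset_of_nonneg (fun p hp => ?_) fun p hp _ => ?_
    · obtain ⟨h2, h3⟩ := mem_filter.1 hp
      exact mem_product.2 ⟨mem_filter.2 ⟨h3, (mem_pcs.1 h2).2.2.1⟩, mem_univ _⟩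
    · have h2 := mem_box.1 (hnb _ (mem_filter.1 (mem_product.1 hp).1).1)
      exact prod_nonneg fun i _ => lam_nonneg (h2 _).1 (h2 _).2
  have h2 : ∑ p ∈ S ×ˢ (univ : Finset (Fin L → Fin (m + 1))), pb k p ≤
      (nbr k F).card * (((m : ℝ) + 1) * (k : ℝ) ^ 2 * (1 / 6 + 4 * δ)) ^ L := by
    rw [sum_product]
    calc _ ≤ ∑ _x ∈ S, (((m : ℝ) + 1) * (k : ℝ) ^ 2 * (1 / 6 + 4 * δ)) ^ L := by
          refine sum_le_sum fun x hx => ?_
          obtain ⟨h3, h4⟩ := mem_filter.1 hx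
          have h5 := mem_box.1 (hnb x h3)
          have e : ∑ u : Fin L → Fin (m + 1), pb k ((x, u) : Pc (m + 1) L) = Lam k x ^ L := by
            rw [Lam, ← Fin.prod_const, Fintype.prod_sum]
            rfl
          rw [e]
          refine pow_le_pow_left₀ (sum_nonneg fun i _ => lam_nonneg (h5 i).1 (h5 i).2) ?_ L
          have h6 := (abs_lt.1 (not_le.1 h4)).2
          push_cast at h6
          have h7 : 0 ≤ δ * (((m : ℝ) + 1) * (k : ℝ) ^ 2) := by positivity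
          show Lam k x ≤ _
          linarith only [h6, h7]
      _ ≤ _ := by
          rw [sum_const, nsmul_eq_mul]
          refine mul_le_mul_of_nonneg_right ?_ (by positivity)
          exact_mod_cast card_filter_le _ _
  calc _ ≤ ∑ p ∈ pcs (m + 1) L k δ, ((L : ℝ) + 1) * (pb k p * ind (p.1 ∈ nbr k F)) := by
        refine sum_le_sum fun p hp => ?_
        have h3 := mul_le_mul_of_nonneg_left (markA_mm F w s (mem_pcs.1 hp).1) (pb_nonneg hp)
        linarith only [h3]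
    _ ≤ _ := by
        rw [← mul_sum, mul_assoc]
        exact mul_le_mul_of_nonneg_left (h1.trans h2) (by positivity)

end Pool.Agent.Work.MP_84019e_co.Sg
end

-- merged part: Pool.Agent.Work.MP_84019e_co.Str.NonRob
section
set_option autoImplicit false

namespace Pool.Agent.Work.MP_84019e_co.Str

open Finset Pool.Agent.Work.MP_84019e_co.Cube

variable {n : ℕ}

lemma nr_ch {b t : ℕ} (ht : t ≤ b) (π σ : Pm n) (h : ∀ i : Fin n, i.val < b → σ i = i) :
    ch (π * σ) t = ch π t := by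
  rw [ch, ch, img_mul]
  refine congrArg (img π) (eq_of_subset_of_card_le (fun x hx => ?_) (card_img _ _).ge)
  have h1 := mem_init.1 (mem_img.1 hx)
  have h2 := h _ (h1.trans_le ht)
  rw [Equiv.apply_symm_apply] at h2
  rw [h2]
  exact mem_init.2 h1

lemma nr_mem (π : Pm n) (I : B n) (x : Fin n) : π x ∈ img π I ↔ x ∈ I := by
  rw [mem_img, Equiv.symm_apply_apply]

/-- A random tuple may be replaced by the next `r` positions. -/
lemma bad_next {r a b : ℕ} (hab : a ≤ b) (hb : b + r ≤ n) (F : Finset (B n)) (E : Pm n → Prop)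
    (hE : ∀ π σ : Pm n, (∀ i : Fin n, i.val < b → σ i = i) → (E (π * σ) ↔ E π))
    (v : Fin r → Fin n) (hv : ∀ i, (v i).val = b + i.val) :
    (av fun π : Pm n => ind (E π) *
        av fun W : Fin r → Fin n => ind (Bad r F (ch π a) (ch π b) W)) ≤
      av fun π : Pm n => ind (E π ∧ Bad r F (ch π a) (ch π b) fun i => π (v i)) := by
  have h1 : ∀ π : Pm n, ind (E π) * (av fun W : Fin r → Fin n => ind (Bad r F (ch π a) (ch π b) W))
      = av fun u : Fin r → Fin n => ind (E π ∧ Bad r F (ch π a) (ch π b) fun i => π (u i)) := by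
    intro π
    rw [← av_equiv (Equiv.arrowCongr (Equiv.refl (Fin r)) π), ← av_mul_left]
    simp only [ind_and]
    rfl
  simp only [h1]
  rw [av_comm]
  have : Nonempty (Fin r → Fin n) := ⟨v⟩
  refine av_le fun u => ?_
  by_cases hu : Function.Injective u ∧ ∀ i, b ≤ (u i).val
  · have inj : ∀ x : Fin r → Fin n, Function.Injective x → (∀ i, b ≤ (x i).val) →
        Function.Injective (Sum.elim Subtype.val x : {i : Fin n // i.val < b} ⊕ Fin r → Fin n) :=
      fun x h2 h3 => Subtype.val_injective.sumElim h2 fun i j e => by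
        have h4 := i.2
        have h5 := h3 j
        rw [e] at h4
        omega
    obtain ⟨σ, hσ⟩ := Equiv.Perm.exists_extending_pair _ _
      (inj v (fun i j e => Fin.ext (by have := hv i; have := hv j; rw [e] at *; omega))
        fun i => by rw [hv]; omega) (inj u hu.1 hu.2)
    have s1 : ∀ i : Fin n, i.val < b → σ i = i := fun i hi => hσ (Sum.inl ⟨i, hi⟩)
    have s2 : ∀ i, σ (v i) = u i := fun i => hσ (Sum.inr i)
    rw [← av_mul_perm σ fun π => ind (E π ∧ Bad r F (ch π a) (ch π b) fun i => π (v i))]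
    refine le_of_eq (congrArg av (funext fun π => ?_))
    simp only [hE π σ s1, nr_ch hab π σ s1, nr_ch le_rfl π σ s1, Equiv.Perm.mul_apply, s2]
  · refine le_trans (av_le fun π => (ind_neg fun h => hu ⟨?_, fun i => ?_⟩).le)
      (av_nonneg fun _ => ind_nonneg _)
    · exact fun i j e => h.2.1 (congrArg π e)
    · exact not_lt.1 fun h2 => h.2.2.1 i ((nr_mem π _ _).2 (mem_init.2 h2))

/-- One position, paper section R3. -/
lemma bad_pos {r a s s' t : ℕ} (ha : a + 2 * s' + r ≤ n) (h0 : 0 < s') (h1 : 2 * s ≤ s')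
    (h2 : r ≤ s') (h3 : 4 * r * t ≤ s') (F : Finset (B n)) (v : Fin r → Fin n)
    (hv : ∀ i, (v i).val = a + 2 * s' + i.val) :
    (av fun π : Pm n => ind (Ev F s π (a + s') ∧
        Bad r F (ch π a) (ch π (a + 2 * s')) fun i => π (v i))) ≤
      2 * (r : ℝ) ^ 2 * t / s' * (av fun π : Pm n => ind (Ev F s π (a + s'))) +
      (1 - 1 / 12 ^ r) ^ t * av fun π : Pm n => ind (Ev F (s' + r) π (a + s')) := by
  rw [← av_Av (seg n a (a + 2 * s' + r)),
    ← av_Av (seg n a (a + 2 * s' + r)) fun π : Pm n => ind (Ev F s π (a + s')),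
    ← av_mul_left, ← av_mul_left, ← av_add]
  refine av_mono fun π => ?_
  obtain ⟨H, hH⟩ : ∃ H : Finset (B n), ∀ y, y ∈ H ↔
      img π y ∈ F ∧ init n a ⊆ y ∧ y ⊆ init n (a + 2 * s' + r) :=
    ⟨univ.filter fun y => img π y ∈ F ∧ init n a ⊆ y ∧ y ⊆ init n (a + 2 * s' + r),
      fun y => by simp⟩
  have c1 : ∀ σ : Fx (seg n a (a + 2 * s' + r)), ch σ.1 a = init n a := fun σ =>
    Fx.img_eq σ (Or.inr (disjoint_left.2 fun i a1 a2 => by
      have := (mem_seg.1 a1).1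
      have := mem_init.1 a2
      omega))
  have c2 : ∀ σ : Fx (seg n a (a + 2 * s' + r)),
      ch σ.1 (a + 2 * s' + r) = init n (a + 2 * s' + r) := fun σ =>
    Fx.img_eq σ (Or.inl fun i a1 => mem_init.2 (mem_seg.1 a1).2)
  have c3 : ∀ (σ : Pm n) k, ch (π * σ) k = img π (ch σ k) := fun σ k => img_mul _ _ _
  refine le_trans (av_mono fun σ => ind_mono ?_)
    ((shatter ha h0 h1 h2 h3 H v hv).trans (add_le_add
      (mul_le_mul_of_nonneg_left (av_mono fun σ => ind_mono ?_) (by positivity))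
      (mul_le_mul_of_nonneg_left (ind_mono ?_) (pow_nonneg (sub_nonneg.2 ?_) _))))
  · rintro ⟨⟨y, b1, b2, b3⟩, -, -, a0, b4⟩
    have e : img π (img π⁻¹ y) = y := by
      rw [← img_mul, mul_inv_cancel]
      ext x
      exact mem_img
    rw [c3, ← e, img_subset] at b2 b3
    refine ⟨⟨img π⁻¹ y, (hH _).2 ⟨e.symm ▸ b1, ?_, ?_⟩, b2, b3⟩, fun hS => ?_⟩
    · exact c1 σ ▸ (ch_mono _ (by omega)).trans b2
    · exact c2 σ ▸ b3.trans (ch_mono _ (by omega))
    obtain ⟨z, b5, b6⟩ := hS a0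
    obtain ⟨b7, b8, b9⟩ := (hH z).1 b5
    refine b4 _ b7 ⟨union_subset ?_ fun x hx => ?_, fun x hx => ?_⟩
    · rw [c3, c1]
      exact img_subset.2 b8
    · obtain ⟨i, hi, rfl⟩ := mem_image.1 hx
      exact (nr_mem π _ _).2 ((b6 i).2 hi)
    · obtain ⟨j, rfl⟩ := (π * σ.1).surjective x
      have d1 : σ.1 j ∈ z := (nr_mem π _ _).1 hx
      have d2 : j.val < a + 2 * s' + r := by
        have := b9 d1
        rw [← c2 σ, ch, nr_mem] at this
        exact mem_init.1 this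
      by_cases d3 : j.val < a + 2 * s'
      · exact mem_union_left _ ((nr_mem _ _ _).2 (mem_init.2 d3))
      · have d4 : v ⟨j.val - (a + 2 * s'), by omega⟩ = j := Fin.ext (by rw [hv]; simp; omega)
        exact mem_union_right _ (mem_image.2 ⟨_, (b6 _).1 (d4.symm ▸ d1), by rw [d4]⟩)
  · rintro ⟨y, b1, b2, b3⟩
    exact ⟨img π y, ((hH y).1 b1).1, c3 _ _ ▸ img_subset.2 b2, c3 _ _ ▸ img_subset.2 b3⟩
  · rintro ⟨y, b1⟩
    obtain ⟨b2, b3, b4⟩ := (hH y).1 b1
    exact ⟨img π y, b2, img_subset.2 ((init_mono (by omega)).trans b3),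
      img_subset.2 (b4.trans (init_mono (by omega)))⟩
  · exact div_le_one_of_le₀ (one_le_pow₀ (by norm_num)) (by positivity)

/-- Paper, section R3. -/
theorem NN_le {r w w' s s' t : ℕ} (hr : 0 < r) {F : Finset (B n)} (hF : Mid F w) (h0 : 0 < s')
    (h1 : 2 * s ≤ s') (h2 : r ≤ s') (h3 : 4 * r * t ≤ s') (h4 : s + s' + r + w' ≤ w) :
    th r * NN r w' F s s' ≤
      2 * (r : ℝ) ^ 2 * t / s' * MM F s + (1 - 1 / 12 ^ r) ^ t * MM F (s' + r) := by
  rw [NN, MM, MM, mul_sum, mul_sum, mul_sum, ← sum_add_distrib]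
  refine sum_le_sum fun k hk => ?_
  have hk' : k ≤ n := Nat.lt_succ_iff.1 (mem_range.1 hk)
  have hq : (0 : ℝ) ≤ (1 - 1 / 12 ^ r) ^ t :=
    pow_nonneg (sub_nonneg.2 (div_le_one_of_le₀ (one_le_pow₀ (by norm_num)) (by positivity))) _
  by_cases hE : ∃ π : Pm n, Ev F s π k
  swap
  · have e : (fun π : Pm n =>
        ind (Ev F s π k ∧ ¬ Rob r w' F (ch π (k - s')) (ch π (k + s')))) = fun _ => 0 :=
      funext fun π => ind_neg fun h => hE ⟨π, h.1⟩
    rw [e, av_zero, mul_zero]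
    exact add_nonneg (mul_nonneg (by positivity) (av_nonneg fun _ => ind_nonneg _))
      (mul_nonneg hq (av_nonneg fun _ => ind_nonneg _))
  obtain ⟨π0, y, b1, b2, b3⟩ := hE
  obtain ⟨b4, b5⟩ := hF y b1
  have b6 := card_le_card b2
  rw [card_ch _ (by omega)] at b6
  have b7 : w ≤ k + s := by
    by_cases h : k + s ≤ n
    · have := card_le_card b3
      rw [card_ch _ h] at this
      omega
    · omega
  obtain ⟨a, rfl⟩ : ∃ a, k = a + s' := ⟨k - s', by omega⟩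
  have ha : a + 2 * s' + r ≤ n := by omega
  let v : Fin r → Fin n := fun i => ⟨a + 2 * s' + i.val, by have := i.2; omega⟩
  refine le_trans ?_ ((bad_next (by omega) ha F (fun π => Ev F s π (a + s')) (fun π σ h => ?_) v
    fun _ => rfl).trans (bad_pos ha h0 h1 h2 h3 F v fun _ => rfl))
  · rw [← av_mul_left, Nat.add_sub_cancel, show a + s' + s' = a + 2 * s' by omega]
    refine av_mono fun π => ?_
    by_cases h : Ev F s π (a + s') ∧ ¬ Rob r w' F (ch π a) (ch π (a + 2 * s'))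
    · rw [ind_pos h, ind_pos h.1, mul_one, one_mul]
      refine le_of_not_ge fun h5 => h.2 ⟨ch_mono _ (by omega), ?_, ?_, h5⟩
      · rw [card_ch _ (by omega)]
        omega
      · rw [card_ch _ (by omega)]
        omega
    · rw [ind_neg h, mul_zero]
      exact mul_nonneg (ind_nonneg _) (av_nonneg fun _ => ind_nonneg _)
  · simp only [Ev]
    rw [nr_ch (by omega) π σ h, nr_ch (by omega) π σ h]

end Pool.Agent.Work.MP_84019e_co.Str
end

-- merged part: Pool.Agent.Work.MP_84019e_co.Str.Mark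
section
set_option autoImplicit false

namespace Pool.Agent.Work.MP_84019e_co.Str

open Finset Pool.Agent.Work.MP_84019e_co.Cube

variable {n : ℕ}

lemma mark_one {U : B n → Prop} (hU : IsUp U) (s : ℕ) (π : Pm n) :
    ∑ k ∈ range (n + 1), ind (¬ U (ch π (k - s)) ∧ U (ch π (k + s))) ≤ 2 * s := by
  classical
  rw [sum_ind]
  by_cases h : ∃ t, U (ch π t)
  · have hsub : ((range (n + 1)).filter fun k => ¬ U (ch π (k - s)) ∧ U (ch π (k + s))) ⊆
        Ico (Nat.find h - s) (Nat.find h + s) := by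
      intro k hk
      obtain ⟨-, h1, h2⟩ := mem_filter.1 hk
      have h3 : Nat.find h ≤ k + s := Nat.find_min' h h2
      have h4 : k - s < Nat.find h := by
        by_contra hc
        exact h1 (hU _ _ (ch_mono π (not_lt.1 hc)) (Nat.find_spec h))
      rw [mem_Ico]
      omega
    have h5 := card_le_card hsub
    rw [Nat.card_Ico] at h5
    have h6 : ((range (n + 1)).filter fun k => ¬ U (ch π (k - s)) ∧ U (ch π (k + s))).card ≤
        2 * s := by omega
    exact_mod_cast h6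
  · have : ((range (n + 1)).filter fun k => ¬ U (ch π (k - s)) ∧ U (ch π (k + s))) = ∅ :=
      filter_eq_empty_iff.2 fun k _ hk => h ⟨_, hk.2⟩
    rw [this, card_empty, Nat.cast_zero]
    positivity

/-- At most `2 s r` marked positions on a chain. -/
theorem Mk_count {r w : ℕ} {V : ℕ → B n → Prop} (hV : Sys r w V) (s : ℕ) (π : Pm n) :
    ∑ k ∈ range (n + 1), ind (Mk r V s π k) ≤ 2 * s * r := by
  calc ∑ k ∈ range (n + 1), ind (Mk r V s π k)
      ≤ ∑ k ∈ range (n + 1), ∑ j ∈ range r,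
          ind (¬ V j (ch π (k - s)) ∧ V j (ch π (k + s))) :=
        sum_le_sum fun k _ => ind_le_sum _ _ fun ⟨j, hj, h⟩ => ⟨j, mem_range.2 hj, h⟩
    _ = ∑ j ∈ range r, ∑ k ∈ range (n + 1),
          ind (¬ V j (ch π (k - s)) ∧ V j (ch π (k + s))) := sum_comm
    _ ≤ ∑ _j ∈ range r, (2 * s : ℝ) :=
        sum_le_sum fun j hj => mark_one (hV.bulk j (mem_range.1 hj)).up s π
    _ = 2 * s * r := by
        rw [sum_const, card_range, nsmul_eq_mul, mul_comm]

lemma mark_av {r w : ℕ} {V : ℕ → B n → Prop} (hV : Sys r w V) (s : ℕ) :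
    ∑ k ∈ range (n + 1), (av fun π : Pm n => ind (Mk r V s π k)) ≤ 2 * s * r := by
  rw [← av_sum (range (n + 1)) fun k (π : Pm n) => ind (Mk r V s π k)]
  exact av_le fun π => Mk_count hV s π

lemma zs_nonneg (r : ℕ) (F : Finset (B n)) (V : ℕ → B n → Prop) (s a : ℕ) :
    0 ≤ zs r F V s a :=
  sum_nonneg fun _ _ => sum_nonneg fun _ _ => av_nonneg fun _ => ind_nonneg _

theorem zs_sum {r w : ℕ} {V : ℕ → B n → Prop} (hV : Sys r w V) (F : Finset (B n)) (s K : ℕ) :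
    ∑ a ∈ range K, zs r F V s a ≤ 2 * s * r ^ 2 := by
  have key : ∀ j ∈ range r, ∀ k : ℕ, ∑ a ∈ range K, (av fun π : Pm n =>
      ind (a < k ∧ ch π k ∈ F ∧ Mk r V s π k ∧ V j (ch π (k - a)) ∧
        ¬ V j (ch π (k - a - 1)))) ≤ av fun π : Pm n => ind (Mk r V s π k) := by
    intro j hj k
    have hU := (hV.bulk j (mem_range.1 hj)).up
    rw [← av_sum (range K) fun a (π : Pm n) =>
      ind (a < k ∧ ch π k ∈ F ∧ Mk r V s π k ∧ V j (ch π (k - a)) ∧ ¬ V j (ch π (k - a - 1)))]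
    refine av_mono fun π => sum_ind_le _ _ (fun a _ h => h.2.2.1) ?_
    intro a _ b _ ha hb
    rcases lt_trichotomy a b with h | h | h
    · exact absurd (hU _ _ (ch_mono π (by omega)) hb.2.2.2.1) ha.2.2.2.2
    · exact h
    · exact absurd (hU _ _ (ch_mono π (by omega)) ha.2.2.2.1) hb.2.2.2.2
  unfold zs
  rw [sum_comm]
  calc _ ≤ ∑ _j ∈ range r, (2 * s * r : ℝ) := by
        refine sum_le_sum fun j hj => ?_
        rw [sum_comm]
        exact (sum_le_sum fun k _ => key j hj k).trans (mark_av hV s)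
    _ = 2 * s * r ^ 2 := by
        rw [sum_const, card_range, nsmul_eq_mul]
        ring

lemma mark_Ev_zero (F : Finset (B n)) (π : Pm n) (k : ℕ) : Ev F 0 π k ↔ ch π k ∈ F := by
  refine ⟨fun ⟨y, hy, h1, h2⟩ => ?_, fun h => ⟨_, h, Subset.refl _, Subset.refl _⟩⟩
  have : ch π k = y := Subset.antisymm h1 h2
  rwa [this]

lemma MM_zero (F : Finset (B n)) : MM F 0 = Lub F := by
  unfold MM Lub pd
  simp only [mark_Ev_zero]

lemma MM_mono (F : Finset (B n)) {s s' : ℕ} (h : s ≤ s') : MM F s ≤ MM F s' :=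
  sum_le_sum fun k _ => av_mono fun π => ind_mono fun ⟨y, hy, h1, h2⟩ =>
    ⟨y, hy, (ch_mono π (by omega)).trans h1, h2.trans (ch_mono π (by omega))⟩

lemma MM_nonneg (F : Finset (B n)) (s : ℕ) : 0 ≤ MM F s :=
  sum_nonneg fun _ _ => av_nonneg fun _ => ind_nonneg _

lemma MM_le_succ (F : Finset (B n)) (s : ℕ) : MM F s ≤ n + 1 := by
  calc MM F s ≤ ∑ _k ∈ range (n + 1), (1 : ℝ) :=
        sum_le_sum fun k _ => av_le fun π => ind_le_one _
    _ = n + 1 := by simp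

/-- Robust positions are marked. -/
lemma MM_le_NN {r w : ℕ} {F : Finset (B n)} (hw : 2 * w ≤ n) (h : ∀ x, ¬ UU r w F r x)
    (s s' : ℕ) : MM F s ≤ NN r w F s s' + 2 * s' * r := by
  refine le_trans ?_ (add_le_add le_rfl (mark_av (VV_sys r F hw) s'))
  unfold MM NN
  rw [← sum_add_distrib]
  refine sum_le_sum fun k _ => ?_
  rw [← av_add]
  refine av_mono fun π => le_trans (ind_mono fun hE => ?_) (ind_or_le _ _)
  by_cases hR : Rob r w F (ch π (k - s')) (ch π (k + s'))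
  · exact Or.inr (rob_cross h hR)
  · exact Or.inl ⟨hE, hR⟩

lemma lamM_ge {r w : ℕ} {F : Finset (B n)} (h : ∀ x, ¬ UU r w F r x) (s : ℕ) :
    Lub F - NN r w F 0 s ≤ lamM r F (VV r w F) s := by
  rw [sub_le_iff_le_add, ← MM_zero]
  unfold MM NN lamM
  rw [← sum_add_distrib]
  refine sum_le_sum fun k _ => ?_
  rw [← av_add]
  refine av_mono fun π => le_trans (ind_mono fun hE => ?_) (ind_or_le _ _)
  by_cases hR : Rob r w F (ch π (k - s)) (ch π (k + s))
  · exact Or.inl ⟨(mark_Ev_zero F π k).1 hE, rob_cross h hR⟩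
  · exact Or.inr ⟨hE, hR⟩

end Pool.Agent.Work.MP_84019e_co.Str
end

-- merged part: Pool.Agent.Work.MP_84019e_co.Str.RobMain
section
set_option autoImplicit false

namespace Pool.Agent.Work.MP_84019e_co.Str

open Finset Pool.Agent.Work.MP_84019e_co.Cube

lemma robm_th {r : ℕ} (hr : 0 < r) : 0 < th r := by
  unfold th
  positivity

lemma robm_q0 (r : ℕ) : (0 : ℝ) ≤ 1 - 1 / 12 ^ r := by
  have : (1 : ℝ) / 12 ^ r ≤ 1 := by
    rw [div_le_one (by positivity)]
    exact one_le_pow₀ (by norm_num)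
  linarith

lemma robm_q1 (r : ℕ) : (1 : ℝ) - 1 / 12 ^ r < 1 := by
  have : (0 : ℝ) < 1 / 12 ^ r := by positivity
  linarith

variable (P : Type) [PartialOrder P] [Fintype P] [Nonempty P]

/-- Paper, section R4. -/
theorem MM_lin : ∃ s0 A : ℕ, ∀ (n w : ℕ) (F : Finset (B n)), Sr P n w F →
    ∀ s, s0 ≤ s → MM F s ≤ A * s := by
  obtain ⟨r, hrP⟩ : ∃ r, r = Fintype.card P := ⟨_, rfl⟩
  have hr : 0 < r := hrP ▸ Fintype.card_pos
  have hθ := robm_th hr
  obtain ⟨t, ht⟩ := exists_pow_lt_of_lt_one (show 0 < th r / 16 by positivity) (robm_q1 r)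
  obtain ⟨u, hu⟩ := exists_nat_ge (2 * (r : ℝ) ^ 2 * t / th r)
  refine ⟨r + 2 * r * t + u, 41 + 16 * r, fun n w F hF => ?_⟩
  have key : ∀ k s : ℕ, w ≤ s + k → r + 2 * r * t + u ≤ s →
      MM F s ≤ ((41 + 16 * r : ℕ) : ℝ) * s := by
    intro k
    have far : ∀ s : ℕ, ¬ s + 2 * s + r + w / 2 ≤ w → r + 2 * r * t + u ≤ s →
        MM F s ≤ ((41 + 16 * r : ℕ) : ℝ) * s := fun s h hs => by
      have h5 := hF.five
      have h1 : n + 1 ≤ 41 * s := by omega
      have h2 : n + 1 ≤ (41 + 16 * r) * s :=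
        h1.trans (Nat.mul_le_mul_right _ (Nat.le_add_right _ _))
      refine (MM_le_succ F s).trans ?_
      exact_mod_cast h2
    induction k with
    | zero => exact fun s h hs => far s (by omega) hs
    | succ k ih =>
      intro s h hs
      by_cases hc : s + 2 * s + r + w / 2 ≤ w
      · have hs0 : (0 : ℝ) < s := by exact_mod_cast (show 0 < s by omega)
        have a1 := NN_le (s := s) (s' := 2 * s) (t := t) (w' := w / 2) hr hF.mid (by omega) le_rfl
          (by omega) (by have : 4 * r * t = 2 * (2 * r * t) := by ring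
                         omega) hc
        have a2 := MM_le_NN (r := r) (w := w / 2) (F := F) (by have := hF.two; omega)
          (fun x => hrP ▸ not_UU hF x) s (2 * s)
        have a3 := ih (2 * s + r) (by omega) (by omega)
        have a4 : 2 * (r : ℝ) ^ 2 * t / ((2 * s : ℕ) : ℝ) ≤ th r / 2 := by
          have b1 : (u : ℝ) ≤ s := by exact_mod_cast (show u ≤ s by omega)
          have b2 := (div_le_iff₀ hθ).1 (hu.trans b1)
          push_cast
          rw [div_le_iff₀ (by positivity)]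
          linarith
        have a5 := mul_le_mul_of_nonneg_right a4 (MM_nonneg F s)
        have a6 := mul_le_mul_of_nonneg_right ht.le (MM_nonneg F (2 * s + r))
        have a7 : th r * NN r (w / 2) F s (2 * s) ≤
            th r * (MM F s / 2 + MM F (2 * s + r) / 16) := by linarith
        have a8 := le_of_mul_le_mul_left a7 hθ
        have a9 : (r : ℝ) ≤ s := by exact_mod_cast (show r ≤ s by omega)
        have a10 : (0 : ℝ) ≤ r := Nat.cast_nonneg _
        push_cast at a2 a3 ⊢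
        nlinarith [mul_le_mul_of_nonneg_left a9 a10]
      · exact far s hc hs
  exact fun s hs => key w s (Nat.le_add_left _ _) hs

theorem Lub_bdd : ∃ Λ : ℝ, 0 ≤ Λ ∧ ∀ (n w : ℕ) (F : Finset (B n)), Sr P n w F → Lub F ≤ Λ := by
  obtain ⟨s0, A, h⟩ := MM_lin P
  refine ⟨A * s0, by positivity, fun n w F hF => ?_⟩
  rw [← MM_zero]
  exact (MM_mono F (Nat.zero_le _)).trans (h n w F hF s0 le_rfl)

/-- Paper, theorem R. -/
theorem rob_main {ε : ℝ} (hε : 0 < ε) : ∃ s W : ℕ, 1 ≤ s ∧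
    ∀ (n w : ℕ) (F : Finset (B n)), Sr P n w F → W ≤ w →
      Lub F - ε ≤ lamM (Fintype.card P) F (VV (Fintype.card P) (w / 2) F) s := by
  obtain ⟨s0, A, hA⟩ := MM_lin P
  obtain ⟨Λ, hΛ0, hΛ⟩ := Lub_bdd P
  obtain ⟨r, hrP⟩ : ∃ r, r = Fintype.card P := ⟨_, rfl⟩
  have hr : 0 < r := hrP ▸ Fintype.card_pos
  have hθ := robm_th hr
  obtain ⟨u, hu⟩ := exists_nat_ge (4 * (r : ℝ) ^ 2 * Λ / (th r * ε))
  obtain ⟨K, hK⟩ : ∃ K, K = 4 * r + s0 + u := ⟨_, rfl⟩
  have hlim := (tendsto_self_mul_const_pow_of_lt_one (robm_q0 r) (robm_q1 r)).eventually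
    (gt_mem_nhds (show 0 < th r * ε / 2 / (A * (K + r) + 1) by positivity))
  obtain ⟨t, ht, ht1⟩ := (hlim.and (Filter.eventually_ge_atTop 1)).exists
  have hKt : K ≤ K * t := Nat.le_mul_of_pos_right _ ht1
  refine ⟨K * t, 2 * (K * t + r) + 2, by omega, fun n w F hF hW => ?_⟩
  rw [← hrP]
  have a1 := NN_le (s := 0) (s' := K * t) (t := t) (w' := w / 2) hr hF.mid (by omega)
    (by omega) (by omega) (Nat.mul_le_mul_right _ (by omega)) (by omega)
  have a2 := lamM_ge (r := r) (w := w / 2) (F := F) (fun x => hrP ▸ not_UU hF x) (K * t)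
  have a3 := hA n w F hF (K * t + r) (by omega)
  have t0 : (1 : ℝ) ≤ t := by exact_mod_cast ht1
  have K0 : (0 : ℝ) < K := by exact_mod_cast (show 0 < K by omega)
  have a4 : 2 * (r : ℝ) ^ 2 * t / ((K * t : ℕ) : ℝ) * MM F 0 ≤ th r * ε / 2 := by
    have b1 : (u : ℝ) ≤ K := by exact_mod_cast (show u ≤ K by omega)
    have b2 := (div_le_iff₀ (by positivity : 0 < th r * ε)).1 (hu.trans b1)
    have b3 : 2 * (r : ℝ) ^ 2 * t / ((K * t : ℕ) : ℝ) = 2 * (r : ℝ) ^ 2 / K := by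
      push_cast
      field_simp
    rw [b3, MM_zero]
    refine (mul_le_mul_of_nonneg_left (hΛ n w F hF) (by positivity)).trans ?_
    rw [div_mul_eq_mul_div, div_le_iff₀ K0]
    linarith
  have a5 : (1 - 1 / 12 ^ r) ^ t * MM F (K * t + r) ≤ th r * ε / 2 := by
    have q0 : (0 : ℝ) ≤ (1 - 1 / 12 ^ r) ^ t := pow_nonneg (robm_q0 r) _
    have b1 : MM F (K * t + r) ≤ t * (A * (K + r) + 1) := by
      refine a3.trans ?_
      have r0 : (0 : ℝ) ≤ r := Nat.cast_nonneg _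
      have A0 : (0 : ℝ) ≤ A := Nat.cast_nonneg _
      push_cast
      nlinarith [mul_le_mul_of_nonneg_left t0 (mul_nonneg A0 r0)]
    have b2 := (lt_div_iff₀ (by positivity : (0 : ℝ) < A * (K + r) + 1)).1 ht
    have b3 := mul_le_mul_of_nonneg_left b1 q0
    linarith
  have a6 : th r * NN r (w / 2) F 0 (K * t) ≤ th r * ε := by linarith
  have a7 := le_of_mul_le_mul_left a6 hθ
  linarith

end Pool.Agent.Work.MP_84019e_co.Str
end

-- merged part: Pool.Agent.Work.MP_84019e_co.Str.Main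
section
set_option autoImplicit false

namespace Pool.Agent.Work.MP_84019e_co.Str

open Finset Pool.Agent.Work.MP_84019e_co.Cube
open Filter Topology

lemma main_num {X r Z l d c K A e σ η t2 L M : ℝ} (he : 0 < e) (hσ : 0 < σ) (hη : 0 < η)
    (hL : 0 ≤ L) (hc : 0 < c) (hZ : 0 ≤ Z) (hZl : Z ≤ l) (hd : d ≤ l) (hl : 0 < l)
    (hrK : r * K ≤ c * e) (hrK0 : 0 ≤ r * K) (h1 : 4 * X * r * A ≤ e * σ)
    (h2 : 2 * X * r * t2 ≤ e * η) (h3 : (1 - e) * l ≤ Z - X)
    (h4 : 2 * X * r * (2 * M ^ 2 / σ + M / η) ≤ l * e) :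
    (1 - e) * L - 5 * e ≤ ((Z - X) * L - r * (l + d) * (K / c) -
      2 * X * r * (2 * (Z * A + M ^ 2) / σ + (Z * t2 + M) / η)) / l := by
  rw [le_div_iff₀ hl]
  have a1 : (1 - e) * l * L ≤ (Z - X) * L := mul_le_mul_of_nonneg_right h3 hL
  have a2 : r * (l + d) * (K / c) ≤ 2 * l * e := by
    have b1 : r * K / c ≤ e := by
      rw [div_le_iff₀ hc]
      linarith
    have b2 : 0 ≤ r * K / c := div_nonneg hrK0 hc.le
    calc r * (l + d) * (K / c) = (l + d) * (r * K / c) := by ring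
      _ ≤ (2 * l) * (r * K / c) := mul_le_mul_of_nonneg_right (by linarith) b2
      _ ≤ 2 * l * e := mul_le_mul_of_nonneg_left b1 (by linarith)
  have a3 : 4 * X * r * A / σ ≤ e := by
    rw [div_le_iff₀ hσ]
    exact h1
  have a4 : 2 * X * r * t2 / η ≤ e := by
    rw [div_le_iff₀ hη]
    exact h2
  have a5 : 2 * X * r * (2 * (Z * A + M ^ 2) / σ + (Z * t2 + M) / η) =
      Z * (4 * X * r * A / σ) + Z * (2 * X * r * t2 / η) +
        2 * X * r * (2 * M ^ 2 / σ + M / η) := by ring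
  have a6 := mul_le_mul_of_nonneg_left a3 hZ
  have a7 := mul_le_mul_of_nonneg_left a4 hZ
  have a8 := mul_le_mul_of_nonneg_right hZl he.le
  rw [a5]
  linarith

/-- The last parameters. -/
lemma last_params (r d s T T2 M : ℕ) {e σ η T1 t1 t2 L : ℝ} (he : 0 < e) (hσ : 0 < σ)
    (hη : 0 < η) (hL : 0 ≤ L) (hT1 : 0 ≤ T1) (ht1 : 0 ≤ t1) (ht2 : 0 ≤ t2)
    (h1 : 4 * ((T : ℝ) + s) * r * (T1 + M * t1) ≤ e * σ) (h2 : 2 * ((T : ℝ) + s) * r * t2 ≤ e * η) :
    ∃ c l : ℕ, 1 ≤ c ∧ M ≤ c ^ 2 ∧ c ^ 2 + d + M + c ^ 2 ≤ l ∧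
      (1 - e) * L - 5 * e ≤ lowv ⟨r, d, l, c, s, T, T2, M⟩ σ η T1 t1 t2 L / l := by
  obtain ⟨K, hK⟩ : ∃ K : ℝ, K = M * ((T : ℝ) + s) +
      16 * ((T : ℝ) + s) * d * 2 ^ d * (M : ℝ) ^ 2 / η := ⟨_, rfl⟩
  have hK0 : 0 ≤ K := by
    rw [hK]
    positivity
  obtain ⟨c0, hc0⟩ := exists_nat_ge (r * K / e)
  rw [div_le_iff₀ he] at hc0
  obtain ⟨c, hc⟩ : ∃ c, c = c0 + M + 1 := ⟨_, rfl⟩
  obtain ⟨l1, hl1⟩ := exists_nat_ge ((2 * (c : ℝ) ^ 2 + d + ((T : ℝ) + s)) / e)
  obtain ⟨l2, hl2⟩ := exists_nat_ge (2 * ((T : ℝ) + s) * r * (2 * (M : ℝ) ^ 2 / σ + M / η) / e)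
  rw [div_le_iff₀ he] at hl1 hl2
  obtain ⟨l, hl⟩ : ∃ l, l = l1 + l2 + (c ^ 2 + d + M + c ^ 2) := ⟨_, rfl⟩
  have hc1 : 1 ≤ c := by omega
  have hcc : c ≤ c ^ 2 := Nat.le_self_pow two_ne_zero c
  refine ⟨c, l, hc1, by omega, by omega, ?_⟩
  have hcr : (0 : ℝ) < c := by exact_mod_cast hc1
  have hhi : (((⟨r, d, l, c, s, T, T2, M⟩ : Pr).hi : ℕ) : ℝ) = l - (c : ℝ) ^ 2 := by
    show ((l - c ^ 2 : ℕ) : ℝ) = _
    rw [Nat.cast_sub (by omega), Nat.cast_pow]
  have hlo : (((⟨r, d, l, c, s, T, T2, M⟩ : Pr).lo : ℕ) : ℝ) = (c : ℝ) ^ 2 + d := by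
    show ((c ^ 2 + d : ℕ) : ℝ) = _
    rw [Nat.cast_add, Nat.cast_pow]
  have q1 : (l1 : ℝ) ≤ l := by exact_mod_cast (by omega : l1 ≤ l)
  have q2 : (l2 : ℝ) ≤ l := by exact_mod_cast (by omega : l2 ≤ l)
  have q3 : (c : ℝ) ^ 2 + d + (c : ℝ) ^ 2 ≤ l := by
    exact_mod_cast (by omega : c ^ 2 + d + c ^ 2 ≤ l)
  have q4 : (c0 : ℝ) ≤ c := by exact_mod_cast (by omega : c0 ≤ c)
  have q5 : (0 : ℝ) ≤ d := Nat.cast_nonneg d
  have q6 : (0 : ℝ) < (c : ℝ) ^ 2 := by positivity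
  have key := main_num (X := (T : ℝ) + s) (r := r) (Z := l - (c : ℝ) ^ 2 - ((c : ℝ) ^ 2 + d))
    (l := l) (d := d) (c := c) (K := K) (A := T1 + M * t1) (t2 := t2) (M := M) he hσ hη hL hcr
    (by linarith) (by linarith) (by linarith) (by linarith)
    (hc0.trans (mul_le_mul_of_nonneg_right q4 he.le)) (by positivity) h1 h2
    (by linarith [mul_le_mul_of_nonneg_right q1 he.le])
    (hl2.trans (mul_le_mul_of_nonneg_right q2 he.le))
  refine key.trans (le_of_eq ?_)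
  unfold lowv
  rw [hhi, hlo, hK]
  simp only
  congr 2
  field_simp

/-- The tail of one up-set is a part of the tail of the whole source. -/
lemma main_tail {n r w s : ℕ} {F : Finset (B n)} {V : ℕ → B n → Prop} (hV : Sys r w V)
    {T K j : ℕ} (hj : j < r) {τ : ℝ} (hτ : 0 ≤ τ)
    (h : ∑ a ∈ Ico T K, (zs r F V s a + ∑ j ∈ range r, (Y (V j) a - Y (V j) (a + 1))) ≤ τ) :
    Y (V j) T - Y (V j) K ≤ τ := by
  rcases le_total T K with c | c
  · refine le_trans ?_ h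
    have e1 := sum_Ico_sub (fun a => -Y (V j) a) c
    have e2 : ∑ a ∈ Ico T K, (-Y (V j) (a + 1) - -Y (V j) a) ≤
        ∑ a ∈ Ico T K, (zs r F V s a + ∑ j ∈ range r, (Y (V j) a - Y (V j) (a + 1))) := by
      refine sum_le_sum fun a _ => ?_
      have b1 := single_le_sum (f := fun j => Y (V j) a - Y (V j) (a + 1))
        (fun j _ => sub_nonneg.2 (Y_succ_le (hV.up j) a)) (mem_range.2 hj)
      have b3 := zs_nonneg r F V s a
      linarith only [b1, b3]
    linarith only [e1, e2]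
  · have := Y_anti (hV.up j) c
    linarith only [this, hτ]

lemma main_tot {n r w s : ℕ} (F : Finset (B n)) {V : ℕ → B n → Prop} (hV : Sys r w V) (K : ℕ) :
    ∑ a ∈ range K, (zs r F V s a + ∑ j ∈ range r, (Y (V j) a - Y (V j) (a + 1))) ≤
      2 * s * (r : ℝ) ^ 2 + r := by
  rw [sum_add_distrib]
  refine add_le_add (zs_sum hV F s K) ?_
  rw [sum_comm]
  refine (sum_le_card_nsmul _ _ (1 : ℝ) fun j _ => ?_).trans (by simp)
  rw [sum_range_sub']
  have := Y_zero_le (hV.up j)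
  have := Y_nonneg (V j) K
  linarith

variable {P : Type} [PartialOrder P] [Fintype P] [Nonempty P]

/-- One source and one set of parameters. -/
lemma main_one {n w m S : ℕ} {F : Finset (B n)} (hF : StrongFree P F) (hM : Mid F w) {p : Pr}
    (hp : p.Ok n w) {V : ℕ → B n → Prop} (hV : Sys p.r w V) {σ σ' η e t1 t2 L : ℝ} {T1 : ℕ}
    (hσ : 0 < σ) (hη : 0 < η) (he : 0 < e) (hm : 0 < m) (hmd : m ≤ p.d)
    (hd : 2 * p.r * ((p.T : ℝ) + p.s) * m * (2 / η + 3) ^ p.r ≤ p.d * e)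
    (hσ' : 2 + 2 * (σ + η) ≤ σ')
    (hOB : OBok m S p.r (p.T + p.s) (p.T2 + 1) (p.M + 1) e (2 * η) σ')
    (h0 : 0 ≤ t1) (h1 : ∀ j < p.r, Y (V j) T1 - Y (V j) p.M ≤ t1)
    (h2 : ∀ j < p.r, Y (V j) p.T2 - Y (V j) p.M ≤ t2)
    (hL : L ≤ lamM p.r F V p.s - ∑ a ∈ Ico p.T p.l, zs p.r F V p.s a) :
    (lowv p σ η T1 t1 t2 L / p.l - e - p.r * (e + 2 * η)) * (m.choose (m / 2) : ℝ) ≤
      LaStar (B m) P := by
  obtain ⟨π, kb, I, hI, hk, ho, hv⟩ := val_sel hp F hV hσ hη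
    (val_sum hp hM hV hσ hη h0 h1 h2 hL)
  obtain ⟨Sm, J, G, hJ, hG, hc⟩ := multi hp I hI (fun _ => F) (fun _ => V) (fun _ => π) kb
    (fun _ _ => hV) hk hσ hη he hm hmd hd hσ' hOB hv
  refine hc.trans ?_
  exact_mod_cast asm hF V π kb J Sm G (fun j hj => hk j (hJ hj))
    (fun j hj j' hj' => ho j (hJ hj) j' (hJ hj')) hG

/-- Paper, theorem M star. -/
theorem transfer_s {lam ε : ℝ} (hε : 0 < ε)
    (hs : ∀ W : ℕ, ∃ (n w : ℕ) (F : Finset (B n)), W ≤ w ∧ Sr P n w F ∧ lam ≤ Lub F) :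
    ∀ᶠ m : ℕ in atTop, (lam - ε) * m.choose (m / 2) ≤ LaStar (B m) P := by
  classical
  rcases le_or_gt lam ε with hl0 | hl0
  · refine Eventually.of_forall fun m => le_trans ?_ (Nat.cast_nonneg _)
    exact mul_nonpos_of_nonpos_of_nonneg (by linarith) (Nat.cast_nonneg _)
  obtain ⟨r, hr⟩ : ∃ r, r = Fintype.card P := ⟨_, rfl⟩
  have hr1 : (0 : ℝ) < r := by
    rw [hr]
    exact_mod_cast Fintype.card_pos
  have hD : 0 < lam + 8 + 2 * r := by linarith
  obtain ⟨e, hee⟩ : ∃ e : ℝ, e = ε / (lam + 8 + 2 * r) := ⟨_, rfl⟩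
  have he : 0 < e := hee ▸ div_pos hε hD
  have heD : e * (lam + 8 + 2 * r) = ε := by rw [hee, div_mul_cancel₀ _ hD.ne']
  have hL0 : 0 ≤ lam - 2 * e := by nlinarith
  obtain ⟨s, W0, hs1, hR⟩ := rob_main P he
  rw [← hr] at hR
  choose n w F hW hS hlam using hs
  have hw2 : ∀ W, 2 * (w W / 2) ≤ n W := fun W => by
    have := (hS W).two
    omega
  have hV : ∀ W, Sys r (w W / 2) (VV r (w W / 2) (F W)) := fun W => VV_sys r (F W) (hw2 W)
  let z : ℕ → ℕ → ℝ := fun W a => zs r (F W) (VV r (w W / 2) (F W)) s a +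
    ∑ j ∈ range r, (Y (VV r (w W / 2) (F W) j) a - Y (VV r (w W / 2) (F W) j) (a + 1))
  have hy : ∀ W a, 0 ≤ ∑ j ∈ range r,
      (Y (VV r (w W / 2) (F W) j) a - Y (VV r (w W / 2) (F W) j) (a + 1)) :=
    fun W a => sum_nonneg fun j _ => sub_nonneg.2 (Y_succ_le ((hV W).up j) a)
  have hz0 : ∀ W a, 0 ≤ z W a := fun W a => add_nonneg (zs_nonneg _ _ _ _ _) (hy W a)
  have hzC : ∀ W K, ∑ a ∈ range K, z W a ≤ 2 * s * (r : ℝ) ^ 2 + r :=
    fun W K => main_tot (F W) (hV W) K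
  obtain ⟨T, hT0, hT⟩ := tail_small (hyperfilter ℕ) z hz0 hzC he
  have hX : (0 : ℝ) < (T : ℝ) + s := by positivity
  obtain ⟨e1, he1, -, he1e, hO⟩ := ob_main he (T + s) r
  obtain ⟨η, hηe⟩ : ∃ η : ℝ, 2 * η = e1 := ⟨e1 / 2, by ring⟩
  have hη : 0 < η := by linarith
  rw [← hηe] at hO he1e
  obtain ⟨t2, ht2⟩ : ∃ t2 : ℝ, t2 = e * η / (2 * ((T : ℝ) + s) * r) := ⟨_, rfl⟩
  have ht20 : 0 < t2 := by
    rw [ht2]
    positivity
  obtain ⟨T2, -, hT2⟩ := tail_small (hyperfilter ℕ) z hz0 hzC ht20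
  obtain ⟨t0, ht0, hO⟩ := hO T2
  obtain ⟨t1, ht1⟩ : ∃ t1 : ℝ, t1 = t0 * e / (8 * ((T : ℝ) + s) * r) := ⟨_, rfl⟩
  have ht10 : 0 < t1 := by
    rw [ht1]
    positivity
  obtain ⟨T1, hT10, hT1⟩ := tail_small (hyperfilter ℕ) z hz0 hzC ht10
  have hT1r : (0 : ℝ) < T1 := by exact_mod_cast hT10
  filter_upwards [hO (2 + 2 * η + 8 * ((T : ℝ) + s) * r * T1 / e) (by positivity),
    eventually_gt_atTop 0] with m hm hm0
  obtain ⟨M, S, hM1, hM2, hM3, hOB⟩ := hm
  obtain ⟨σ, hσe⟩ : ∃ σ : ℝ, σ = 4 * ((T : ℝ) + s) * r * (T1 + M * t1) / e := ⟨_, rfl⟩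
  have hσ : 0 < σ := by
    rw [hσe]
    positivity
  obtain ⟨d0, hd0⟩ := exists_nat_ge (2 * r * ((T : ℝ) + s) * m * (2 / η + 3) ^ r / e)
  rw [div_le_iff₀ he] at hd0
  obtain ⟨c, l, hc1, hc2, hc3, hc4⟩ := last_params r (d0 + m) s T T2 M (T1 := T1) (t1 := t1)
    (t2 := t2) he hσ hη hL0 hT1r.le ht10.le ht20.le
    (by rw [hσe, mul_div_cancel₀ _ he.ne'])
    (by rw [ht2, mul_div_cancel₀ _ (by positivity)])
  obtain ⟨W, ⟨⟨w1, w2⟩, w3⟩, w4⟩ := ((((hT l).and (hT2 M)).and (hT1 M)).and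
    (Nat.hyperfilter_le_atTop (eventually_ge_atTop (W0 + 2 * (l + (d0 + m)))))).exists
  have hWw := hW W
  have hp : Pr.Ok ⟨r, d0 + m, l, c, s, T, T2, M⟩ (n W) (w W / 2) :=
    ⟨hc1, show 1 ≤ d0 + m by omega, hM3, hs1, hM1, hM2, hc2,
      show c ^ 2 + (d0 + m) + M ≤ l - c ^ 2 by omega, show l + (d0 + m) ≤ w W / 2 by omega, hw2 W⟩
  have hMid : Mid (F W) (w W / 2) := fun A hA => by
    have := (hS W).mid A hA
    omega
  have main := main_one (hS W).free hMid hp (hV W) (T1 := T1) (t1 := t1) (t2 := t2)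
    (L := lam - 2 * e) hσ hη he hm0 (show m ≤ d0 + m by omega)
    (hd0.trans (mul_le_mul_of_nonneg_right (by
      show (d0 : ℝ) ≤ ((d0 + m : ℕ) : ℝ)
      exact_mod_cast Nat.le_add_right d0 m) he.le))
    (le_of_eq (by
      rw [hσe, ht1]
      field_simp
      ring)) hOB ht10.le (fun j hj => main_tail (hV W) hj ht10.le w3)
    (fun j hj => main_tail (hV W) hj ht20.le w2)
    (by
      have a1 := hR (n W) (w W) (F W) (hS W) (by omega)
      have a2 : ∑ a ∈ Ico T l, zs r (F W) (VV r (w W / 2) (F W)) s a ≤ ∑ a ∈ Ico T l, z W a :=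
        sum_le_sum fun a _ => le_add_of_nonneg_right (hy W a)
      have a3 := hlam W
      show lam - 2 * e ≤ lamM r (F W) (VV r (w W / 2) (F W)) s -
        ∑ a ∈ Ico T l, zs r (F W) (VV r (w W / 2) (F W)) s a
      linarith only [a1, a2, a3, w1])
  refine le_trans (mul_le_mul_of_nonneg_right ?_ (Nat.cast_nonneg _)) main
  have a1 : (r : ℝ) * (e + 2 * η) ≤ r * (e + e) :=
    mul_le_mul_of_nonneg_left (by linarith only [he1e]) hr1.le
  have a2 := sq_nonneg e
  show lam - ε ≤ lowv ⟨r, d0 + m, l, c, s, T, T2, M⟩ σ η T1 t1 t2 (lam - 2 * e) / l - e -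
    r * (e + 2 * η)
  nlinarith only [a1, a2, hc4, heD]

end Pool.Agent.Work.MP_84019e_co.Str
end

-- merged part: Pool.Agent.Work.MP_84019e_co.Sg.One
section
set_option autoImplicit false

namespace Pool.Agent.Work.MP_84019e_co.Sg

open Finset Pool.Agent.Work.MP_84019e_co.Cube Pool.Agent.Work.MP_84019e_co.Str
open Filter Topology

variable {m n w k : ℕ} {δ : ℝ} {F : Finset (Fin (m + 1) → ℤ)}

lemma one_sys {r : ℕ} {a : ℕ → B r} (hw : 2 * w ≤ n) {p : Pc (m + 1) (n + r)}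
    (hp : Function.Injective p.2) : Sys r (w / 2) (VG F a (w / 2) p) :=
  VG_sys hp (by omega)

lemma one_inj {r : ℕ} {a : ℕ → B r} {p : Pc (m + 1) (n + r)} (hp : p ∈ rel n r k δ F a) :
    Function.Injective p.2 :=
  (mem_pcs.1 (rel_sub hp)).2.1

lemma one_y {r : ℕ} {a : ℕ → B r} (hw : 2 * w ≤ n) {p : Pc (m + 1) (n + r)}
    (hp : Function.Injective p.2) (t : ℕ) :
    0 ≤ ∑ j ∈ range r, (Y (VG F a (w / 2) p j) t - Y (VG F a (w / 2) p j) (t + 1)) :=
  sum_nonneg fun j _ => sub_nonneg.2 (Y_succ_le ((one_sys hw hp).up j) t)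

lemma z1_nonneg {r : ℕ} {a : ℕ → B r} (hw : 2 * w ≤ n) {p : Pc (m + 1) (n + r)}
    (hp : Function.Injective p.2) (s t : ℕ) : 0 ≤ z1 F a w s p t :=
  add_nonneg (zs_nonneg _ _ _ _ _) (one_y hw hp t)

lemma zz_nonneg {r : ℕ} {a : ℕ → B r} (hP : Par m (n + r) k δ) (hw : 2 * w ≤ n) (s t : ℕ) :
    0 ≤ zz n r k δ F a w s t := by
  have := Om_nonneg hP (n + r)
  exact div_nonneg (sum_nonneg fun p hp =>
    mul_nonneg (pb_nonneg (rel_sub hp)) (z1_nonneg hw (one_inj hp) s t)) (by positivity)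

lemma one_zsum {r : ℕ} (a : ℕ → B r) (s : ℕ) (I : Finset ℕ) :
    ∑ t ∈ I, zz n r k δ F a w s t =
      (∑ p ∈ rel n r k δ F a, pb k p * ∑ t ∈ I, z1 F a w s p t) /
        (r * (n * Om m (n + r) k δ)) := by
  unfold zz
  rw [← sum_div, sum_comm]
  simp only [mul_sum]

lemma zz_sum {r : ℕ} {a : ℕ → B r} (hP : Par m (n + r) k δ) (hw : 2 * w ≤ n) (s K : ℕ) :
    ∑ t ∈ range K, zz n r k δ F a w s t ≤ 2 * s * (r : ℝ) ^ 2 + r := by
  have h0 := Om_nonneg hP (n + r)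
  rw [one_zsum]
  refine div_le_of_le_mul₀ (by positivity) (by positivity) ?_
  refine le_trans (sum_le_sum fun p hp => mul_le_mul_of_nonneg_left
    (main_tot _ (one_sys hw (one_inj hp)) K) (pb_nonneg (rel_sub hp))) ?_
  rw [← sum_mul, mul_comm]
  exact mul_le_mul_of_nonneg_left (rel_sum hP) (by positivity)

/-- The lower bound is an affine function of the last three arguments. -/
lemma one_affine {q : Pr} (hq : q.Ok n w) {σ η : ℝ} (hσ : 0 < σ) (hη : 0 < η) (T1 : ℕ) :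
    ∃ α c0 c1 c2 : ℝ, 0 ≤ α ∧ 0 ≤ c0 ∧ 0 ≤ c1 ∧ 0 ≤ c2 ∧
      ∀ t1 t2 L, lowv q σ η T1 t1 t2 L = α * L - c0 - c1 * t1 - c2 * t2 := by
  have h1 : ((q.lo : ℝ) + (q.T + q.s)) ≤ q.hi := by
    have := hq.XM
    have := hq.zone
    exact_mod_cast (by omega : q.lo + (q.T + q.s) ≤ q.hi)
  have hX : (0 : ℝ) ≤ (q.T : ℝ) + q.s := by positivity
  obtain ⟨Z, hZ⟩ : ∃ Z : ℝ, Z = (q.hi : ℝ) - q.lo := ⟨_, rfl⟩
  have hZ0 : 0 ≤ Z := by linarith
  refine ⟨Z - (q.T + q.s), q.r * (q.l + q.d) * (q.M * (q.T + q.s) / q.c +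
      16 * (q.T + q.s) * q.d * 2 ^ q.d * (q.M : ℝ) ^ 2 / (q.c * η)) +
      2 * (q.T + q.s) * q.r * (2 * (Z * T1 + (q.M : ℝ) ^ 2) / σ + q.M / η),
    2 * (q.T + q.s) * q.r * (2 * (Z * q.M) / σ), 2 * (q.T + q.s) * q.r * (Z / η),
    by linarith, by positivity, by positivity, by positivity, fun t1 t2 L => ?_⟩
  unfold lowv
  rw [← hZ]
  ring

lemma one_piece {q : Pr} {a : ℕ → B q.r} (hq : q.Ok n (w / 2)) (hw : 2 * w ≤ n) {σ η : ℝ}
    (T1 : ℕ) (hσ : 0 < σ) (hη : 0 < η) {p : Pc (m + 1) (n + q.r)} (hp : Function.Injective p.2) :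
    lowv q σ η T1 (∑ t ∈ Ico T1 q.M, z1 F a w q.s p t) (∑ t ∈ Ico q.T2 q.M, z1 F a w q.s p t)
        (lamM q.r (pH F w (lo p)) (VG F a (w / 2) p) q.s - ∑ t ∈ Ico q.T q.l, z1 F a w q.s p t) ≤
      ∑ π : Pm n, ∑ k0 ∈ range (n - q.l - q.d + 1),
        bv q σ η F a w (p, π, k0) / Fintype.card (Pm n) := by
  have hV := one_sys (F := F) (a := a) hw hp
  have h0 : ∀ T, 0 ≤ ∑ t ∈ Ico T q.M, z1 F a w q.s p t := fun T =>
    sum_nonneg fun t _ => z1_nonneg hw hp _ t
  have : Nonempty (Fin q.d) := ⟨⟨0, hq.d1⟩⟩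
  have h1 := fun z => val_sum hq (pH_mid F (Nat.div_le_self w 2) (lo p)) hV hσ hη (h0 T1)
    (fun j hj => main_tail hV hj (h0 T1) le_rfl) (fun j hj => main_tail hV hj (h0 q.T2) le_rfl)
    (sub_le_sub_left (sum_le_sum fun t _ => le_add_of_nonneg_right
      (one_y (F := F) (a := a) hw hp t)) _) z
  refine (le_av h1).trans ?_
  rw [av_sum, sum_comm]
  refine sum_le_sum fun k0 _ => ?_
  rw [av_comm, ← sum_div]
  exact av_mono fun π => av_mono fun z => le_max_left _ _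

/-- Paper, VS: the weighted sum of the values of all blocks. -/
theorem val_grid {q : Pr} {a : ℕ → B q.r} (hP : Par m (n + q.r) k δ) (hq : q.Ok n (w / 2))
    (hw : 2 * w ≤ n) (hr : 0 < q.r) {σ η t1 t2 L : ℝ} {T1 : ℕ} (hσ : 0 < σ) (hη : 0 < η)
    (h1 : ∑ t ∈ Ico T1 q.M, zz n q.r k δ F a w q.s t ≤ t1)
    (h2 : ∑ t ∈ Ico q.T2 q.M, zz n q.r k δ F a w q.s t ≤ t2)
    (hL : (L + ∑ t ∈ Ico q.T q.l, zz n q.r k δ F a w q.s t) * (q.r * (n * Om m (n + q.r) k δ)) ≤
      mass n q.r k δ F a w q.s) :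
    lowv q σ η T1 t1 t2 L * (q.r * (n * Om m (n + q.r) k δ)) ≤
      ∑ b ∈ rel n q.r k δ F a ×ˢ (univ : Finset (Pm n)) ×ˢ range (n - q.l - q.d + 1),
        bv q σ η F a w b * (pb k b.1 / Fintype.card (Pm n)) := by
  have hn : 0 < n := by
    have := hq.d1
    have := hq.lw
    omega
  have h0 := Om_pos hP (n + q.r)
  have hΩ : (0 : ℝ) < q.r * (n * Om m (n + q.r) k δ) := by positivity
  obtain ⟨α, c0, c1, c2, b0, b1, b2, b3, hlow⟩ := one_affine hq hσ hη T1
  rw [one_zsum, div_le_iff₀ hΩ] at h1 h2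
  rw [one_zsum, add_mul, div_mul_cancel₀ _ hΩ.ne'] at hL
  have h3 := rel_sum (F := F) (a := a) hP
  have h4 := sum_le_sum fun p (hp : p ∈ rel n q.r k δ F a) => mul_le_mul_of_nonneg_left
    (one_piece (F := F) (a := a) hq hw T1 hσ hη (one_inj hp)) (pb_nonneg (rel_sub hp))
  refine le_trans ?_ (h4.trans (le_of_eq ?_))
  · simp only [hlow, mul_sub, sum_sub_distrib, mul_left_comm (pb k _), ← mul_sum, ← sum_mul]
    unfold mass at hL
    have a1 := mul_le_mul_of_nonneg_left hL b0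
    have a2 := mul_le_mul_of_nonneg_right h3 b1
    have a3 := mul_le_mul_of_nonneg_left h1 b2
    have a4 := mul_le_mul_of_nonneg_left h2 b3
    linarith
  · rw [sum_product]
    refine sum_congr rfl fun p _ => ?_
    rw [sum_product, mul_sum]
    refine sum_congr rfl fun π _ => ?_
    rw [mul_sum]
    exact sum_congr rfl fun k0 _ => by ring

/-- Paper, one source and one set of parameters. -/
theorem grid_one {P : Type} [PartialOrder P] {mm S : ℕ} {q : Pr} {a : ℕ → B q.r}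
    (hF : StrongFree P F) (hP : Par m (n + q.r) k δ) (hq : q.Ok n (w / 2))
    (hw : 2 * w ≤ n) (hr : 0 < q.r) {σ σ' η e t1 t2 L : ℝ} {T1 : ℕ} (hσ : 0 < σ) (hη : 0 < η)
    (he : 0 < e) (hm : 0 < mm) (hmd : mm ≤ q.d)
    (hd : 2 * q.r * ((q.T : ℝ) + q.s) * mm * (2 / η + 3) ^ q.r ≤ q.d * e)
    (hσ' : 2 + 2 * (σ + η) ≤ σ')
    (hOB : OBok mm S q.r (q.T + q.s) (q.T2 + 1) (q.M + 1) e (2 * η) σ')
    (h1 : ∑ t ∈ Ico T1 q.M, zz n q.r k δ F a w q.s t ≤ t1)
    (h2 : ∑ t ∈ Ico q.T2 q.M, zz n q.r k δ F a w q.s t ≤ t2)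
    (hL : (L + ∑ t ∈ Ico q.T q.l, zz n q.r k δ F a w q.s t) * (q.r * (n * Om m (n + q.r) k δ)) ≤
      mass n q.r k δ F a w q.s) :
    (q.r * (lowv q σ η T1 t1 t2 L / q.l) - e - q.r * (e + 2 * η)) * (mm.choose (mm / 2) : ℝ) ≤
      LaStar (B mm) P := by
  have hlw := hq.lw
  have hl : 0 < q.l := by
    have := hq.zone
    have := hq.M1
    have : q.hi = q.l - q.c ^ 2 := rfl
    omega
  have hn : 0 < n := by omega
  have h0 := Om_pos hP (n + q.r)
  have hΩ : (0 : ℝ) < n * Om m (n + q.r) k δ := by positivity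
  have hl' : (0 : ℝ) < q.l := by exact_mod_cast hl
  have hc : (0 : ℝ) < mm.choose (mm / 2) := by
    exact_mod_cast Nat.choose_pos (Nat.div_le_self mm 2)
  have hI : ∀ b ∈ rel n q.r k δ F a ×ˢ (univ : Finset (Pm n)) ×ˢ range (n - q.l - q.d + 1),
      b.1 ∈ rel n q.r k δ F a ∧ b.2.2 + q.l + q.d ≤ n := fun b hb => by
    have b1 := mem_product.1 hb
    have b2 := mem_range.1 (mem_product.1 b1.2).2
    exact ⟨b1.1, by omega⟩
  have key := antiblock (bl q) _ (fun _ _ _ _ _ _ => bl_trans q)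
    (fun b hb => bl_irr q hl (one_inj (hI b hb).1) (by have := (hI b hb).2; omega))
    (fun b => pb k b.1 / Fintype.card (Pm n)) _
    (fun A hA ha => bl_anti q hP hl (by omega) A
      (fun b hb => ⟨rel_sub (hI b (hA hb)).1, (hI b (hA hb)).2⟩) ha) _ (bv q σ η F a w)
    (LaStar (B mm) P / mm.choose (mm / 2) + e + q.r * (e + 2 * η)) le_rfl (fun b _ => bv_nonneg b)
    fun C hC hch => by
      have := bl_chain hF a hq hσ hη he hm hmd hd hσ' hOB C
        (fun b hb => ⟨one_inj (hI b (hC hb)).1, (hI b (hC hb)).2⟩) hch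
      rw [← le_div_iff₀ hc] at this
      linarith
  have h3 := (val_grid hP hq hw hr hσ hη h1 h2 hL).trans key
  rw [← mul_assoc, ← mul_assoc _ (q.l : ℝ)] at h3
  have h4 := le_of_mul_le_mul_right h3 hΩ
  rw [← le_div_iff₀ hc, ← mul_div_assoc, mul_comm (q.r : ℝ) (lowv _ _ _ _ _ _ _)]
  rw [← div_le_iff₀ hl'] at h4
  linarith

end Pool.Agent.Work.MP_84019e_co.Sg
end

-- merged part: Pool.Agent.Work.MP_84019e_co.Sg.Nb
section
set_option autoImplicit false

namespace Pool.Agent.Work.MP_84019e_co.Sg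

open Finset Pool.Agent.Work.MP_84019e_co.Cube Pool.Agent.Work.MP_84019e_co.Str
open Filter Topology

/-- Any `r` late positions may be replaced by any other `r` late positions. -/
lemma nb_move {n r a b : ℕ} (hab : a ≤ b) (F : Finset (B n)) (E : Pm n → Prop)
    (hE : ∀ π σ : Pm n, (∀ i : Fin n, i.val < b → σ i = i) → (E (π * σ) ↔ E π))
    (u v : Fin r → Fin n) (hu : Function.Injective u) (hu' : ∀ i, b ≤ (u i).val)
    (hv : Function.Injective v) (hv' : ∀ i, b ≤ (v i).val) :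
    (av fun π : Pm n => ind (E π ∧ Bad r F (ch π a) (ch π b) fun i => π (u i))) =
      av fun π : Pm n => ind (E π ∧ Bad r F (ch π a) (ch π b) fun i => π (v i)) := by
  have inj : ∀ x : Fin r → Fin n, Function.Injective x → (∀ i, b ≤ (x i).val) →
      Function.Injective (Sum.elim Subtype.val x : {i : Fin n // i.val < b} ⊕ Fin r → Fin n) :=
    fun x h2 h3 => Subtype.val_injective.sumElim h2 fun i j e => by
      have h4 := i.2
      have h5 := h3 j
      rw [e] at h4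
      omega
  obtain ⟨σ, hσ⟩ := Equiv.Perm.exists_extending_pair _ _ (inj v hv hv') (inj u hu hu')
  have s1 : ∀ i : Fin n, i.val < b → σ i = i := fun i hi => hσ (Sum.inl ⟨i, hi⟩)
  have s2 : ∀ i, σ (v i) = u i := fun i => hσ (Sum.inr i)
  rw [← av_mul_perm σ fun π => ind (E π ∧ Bad r F (ch π a) (ch π b) fun i => π (v i))]
  refine congrArg av (funext fun π => ?_)
  simp only [hE π σ s1, nr_ch hab π σ s1, nr_ch le_rfl π σ s1, Equiv.Perm.mul_apply, s2]

/-- Paper, NB. -/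
theorem NB_le {n r w s s' t : ℕ} {H : Finset (B (n + r))} (hH : Mid H w) (h0 : 0 < s')
    (h1 : 2 * s ≤ s') (h2 : r ≤ s') (h3 : 4 * r * t ≤ s') (h4 : s + s' + r ≤ w) :
    NB H s s' ≤ 2 * (r : ℝ) ^ 2 * t / s' * MM H s + (1 - 1 / 12 ^ r) ^ t * MM H (s' + r) := by
  rw [NB, MM, MM, mul_sum, mul_sum, ← sum_add_distrib]
  refine sum_le_sum fun k hk => ?_
  have hk' : k ≤ n + r := Nat.lt_succ_iff.1 (mem_range.1 hk)
  have hq : (0 : ℝ) ≤ (1 - 1 / 12 ^ r) ^ t :=
    pow_nonneg (sub_nonneg.2 (div_le_one_of_le₀ (one_le_pow₀ (by norm_num)) (by positivity))) _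
  by_cases hE : ∃ π : Pm (n + r), Ev H s π k
  swap
  · have e : (fun π : Pm (n + r) => ind (Ev H s π k ∧
        Bad r H (ch π (k - s')) (ch π (k + s')) fun i => π (Fin.natAdd n i))) = fun _ => 0 :=
      funext fun π => ind_neg fun h => hE ⟨π, h.1⟩
    rw [e, av_zero]
    exact add_nonneg (mul_nonneg (by positivity) (av_nonneg fun _ => ind_nonneg _))
      (mul_nonneg hq (av_nonneg fun _ => ind_nonneg _))
  obtain ⟨π0, y, b1, b2, b3⟩ := hE
  obtain ⟨b4, b5⟩ := hH y b1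
  have b6 := card_le_card b2
  rw [card_ch _ (by omega)] at b6
  have b7 : w ≤ k + s := by
    by_cases h : k + s ≤ n + r
    · have := card_le_card b3
      rw [card_ch _ h] at this
      omega
    · omega
  obtain ⟨a, rfl⟩ : ∃ a, k = a + s' := ⟨k - s', by omega⟩
  have ha : a + 2 * s' + r ≤ n + r := by omega
  let v : Fin r → Fin (n + r) := fun i => ⟨a + 2 * s' + i.val, by have := i.2; omega⟩
  refine le_trans (le_of_eq ?_) (bad_pos ha h0 h1 h2 h3 H v fun _ => rfl)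
  rw [Nat.add_sub_cancel, show a + s' + s' = a + 2 * s' by omega]
  refine nb_move (by omega) H (fun π => Ev H s π (a + s')) (fun π σ h => ?_) _ v
    (Fin.natAdd_injective _ _) (fun i => ?_) (fun i j e => Fin.ext ?_) fun i => ?_
  · simp only [Ev]
    rw [nr_ch (by omega) π σ h, nr_ch (by omega) π σ h]
  · rw [Fin.val_natAdd]
    omega
  · have e2 : a + 2 * s' + i.val = a + 2 * s' + j.val := congrArg Fin.val e
    omega
  · exact Nat.le_add_right _ _

end Pool.Agent.Work.MP_84019e_co.Sg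
end

-- merged part: Pool.Agent.Work.MP_84019e_co.Sg.Rec
section
set_option autoImplicit false

namespace Pool.Agent.Work.MP_84019e_co.Sg

open Finset Pool.Agent.Work.MP_84019e_co.Cube Pool.Agent.Work.MP_84019e_co.Str
open Filter Topology

/-- The hypotheses of the recursion over scales. -/
structure RH (r w t : ℕ) (Ω K : ℝ) (M : ℕ → ℝ) (N : ℕ → ℕ → ℝ) : Prop where
  tw : 6 * r ^ 2 * t + r ≤ w
  om : 0 ≤ Ω
  nn : ∀ s, 0 ≤ M s
  mono : ∀ s s', s ≤ s' → M s ≤ M s'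
  term : ∀ s, M s ≤ K
  few : (1 - 1 / 12 ^ r) ^ t * K ≤ Ω
  cr : ∀ s s', s + s' + r ≤ w → M s ≤ N s s' + 2 * s' * r * Ω
  nb : ∀ s s' u, 0 < s' → 2 * s ≤ s' → r ≤ s' → 4 * r * u ≤ s' → s + s' + r ≤ w →
    N s s' ≤ 2 * (r : ℝ) ^ 2 * u / s' * M s + (1 - 1 / 12 ^ r) ^ u * M (s' + r)

lemma rec_q0 (r : ℕ) : (0 : ℝ) ≤ 1 - 1 / 12 ^ r :=
  sub_nonneg.2 (div_le_one_of_le₀ (one_le_pow₀ (by norm_num)) (by positivity))

lemma rec_q1 (r : ℕ) : (1 : ℝ) - 1 / 12 ^ r < 1 := by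
  have : (0 : ℝ) < 1 / 12 ^ r := by positivity
  linarith

lemma rec_step {r w t : ℕ} {Ω K : ℝ} {M : ℕ → ℝ} {N : ℕ → ℕ → ℝ} (h : RH r w t Ω K M N)
    (hr : 0 < r) {s u : ℕ} (h1 : r ≤ s) (h2 : 2 * r ^ 2 * u ≤ s) (h3 : 3 * s + r ≤ w) :
    M s ≤ 2 * ((1 - 1 / 12 ^ r) ^ u * M (2 * s + r)) + 8 * s * r * Ω := by
  have a0 : r * u ≤ r ^ 2 * u := Nat.mul_le_mul_right u (Nat.le_self_pow two_ne_zero r)
  have a1 := h.cr s (2 * s) (by omega)
  have a2 := h.nb s (2 * s) u (by omega) le_rfl (by omega) (by nlinarith) (by omega)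
  have s0 : (0 : ℝ) < s := by exact_mod_cast (by omega : 0 < s)
  have a3 : 2 * (r : ℝ) ^ 2 * u / ((2 * s : ℕ) : ℝ) ≤ 1 / 2 := by
    have : (2 : ℝ) * (r : ℝ) ^ 2 * u ≤ s := by exact_mod_cast h2
    push_cast
    rw [div_le_iff₀ (by positivity)]
    linarith
  have a4 := mul_le_mul_of_nonneg_right a3 (h.nn s)
  push_cast at a1
  linarith

/-- Paper, REC: linear growth. -/
theorem rec_lin {r : ℕ} (hr : 0 < r) : ∃ s0 : ℕ, r ≤ s0 ∧ ∀ (w t : ℕ) (Ω K : ℝ) (M : ℕ → ℝ)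
    (N : ℕ → ℕ → ℝ), RH r w t Ω K M N → ∀ s, s0 ≤ s → 3 * s + r ≤ w →
      M s ≤ 26 * r * s * Ω := by
  obtain ⟨t0, ht0⟩ := exists_pow_lt_of_lt_one (show (0 : ℝ) < 1 / 16 by norm_num) (rec_q1 r)
  refine ⟨r + 2 * r ^ 2 * t0, by omega, fun w t Ω K M N h => ?_⟩
  have hr1 : (1 : ℝ) ≤ r := by exact_mod_cast hr
  have hΩ := h.om
  have key : ∀ j s : ℕ, w ≤ s + j → r + 2 * r ^ 2 * t0 ≤ s → 3 * s + r ≤ w →
      M s ≤ 26 * r * s * Ω := by
    intro j
    induction j with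
    | zero => intro s a b c; omega
    | succ j ih =>
      intro s a b c
      have s1 : (1 : ℝ) ≤ s := by exact_mod_cast (by omega : 1 ≤ s)
      have rs : (r : ℝ) ≤ s := by exact_mod_cast (by omega : r ≤ s)
      have p0 : 0 ≤ (r : ℝ) * s * Ω := by positivity
      by_cases hc : 3 * (2 * s + r) + r ≤ w
      · have b1 := ih (2 * s + r) (by omega) (by omega) hc
        have b2 := rec_step h hr (s := s) (u := t0) (by omega) (by omega) c
        have b3 := mul_le_mul_of_nonneg_right ht0.le (h.nn (2 * s + r))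
        have b4 : (r : ℝ) * r * Ω ≤ r * s * Ω := by gcongr
        push_cast at b1
        nlinarith
      · have tw := h.tw
        have b1 := rec_step h hr (s := (w - r) / 3) (u := t) (by omega)
          (by
            have : 6 * r ^ 2 * t = 3 * (2 * r ^ 2 * t) := by ring
            omega) (by omega)
        have b2 := (mul_le_mul_of_nonneg_left (h.term (2 * ((w - r) / 3) + r))
          (pow_nonneg (rec_q0 r) t)).trans h.few
        have b3 := h.mono s ((w - r) / 3) (by omega)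
        have b4 : (((w - r) / 3 : ℕ) : ℝ) ≤ 3 * s := by
          exact_mod_cast (by omega : (w - r) / 3 ≤ 3 * s)
        have b5 : (((w - r) / 3 : ℕ) : ℝ) * (r * Ω) ≤ 3 * s * (r * Ω) := by gcongr
        have b6 : 1 * Ω ≤ r * s * Ω := by
          gcongr
          nlinarith
        nlinarith
  exact fun s a b => key w s (by omega) a b

/-- Paper, REC: the unmarked mass is small. -/
theorem rec_small {r : ℕ} (hr : 0 < r) {ε : ℝ} (hε : 0 < ε) : ∃ s W : ℕ, 1 ≤ s ∧ s ≤ W ∧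
    ∀ (w t : ℕ) (Ω K : ℝ) (M : ℕ → ℝ) (N : ℕ → ℕ → ℝ), RH r w t Ω K M N → W ≤ w →
      N 0 s ≤ ε * Ω := by
  obtain ⟨s0, hs0, H⟩ := rec_lin hr
  obtain ⟨v, hv⟩ := exists_nat_ge (104 * (r : ℝ) ^ 3 * s0 / ε)
  obtain ⟨K0, hK⟩ : ∃ K0, K0 = 4 * r + s0 + v := ⟨_, rfl⟩
  have hK0 : (0 : ℝ) < K0 := by exact_mod_cast (by omega : 0 < K0)
  have lim := tendsto_self_mul_const_pow_of_lt_one (rec_q0 r) (rec_q1 r)
  obtain ⟨u, hu1, hu2⟩ := ((lim.eventually (gt_mem_nhds
    (show 0 < ε / (104 * r * K0) by positivity))).and (eventually_ge_atTop 1)).exists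
  have hKu : K0 ≤ K0 * u := Nat.le_mul_of_pos_right _ hu2
  refine ⟨K0 * u, 3 * (K0 * u + r) + r, by omega, by omega, fun w t Ω K M N h hW => ?_⟩
  have a1 := h.nb 0 (K0 * u) u (by omega) (by omega) (by omega)
    (Nat.mul_le_mul_right u (by omega)) (by omega)
  have a2 := (h.mono 0 s0 (Nat.zero_le _)).trans (H w t Ω K M N h s0 le_rfl (by omega))
  have a3 := H w t Ω K M N h (K0 * u + r) (by omega) hW
  have hΩ := h.om
  have u0 : (0 : ℝ) < u := by exact_mod_cast hu2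
  have b1 : 2 * (r : ℝ) ^ 2 * u / ((K0 * u : ℕ) : ℝ) * (26 * r * s0 * Ω) ≤ ε / 2 * Ω := by
    rw [← mul_assoc]
    refine mul_le_mul_of_nonneg_right ?_ hΩ
    have c1 : (v : ℝ) ≤ K0 := by exact_mod_cast (by omega : v ≤ K0)
    rw [div_le_iff₀ hε] at hv
    have c2 := mul_le_mul_of_nonneg_right c1 hε.le
    push_cast
    rw [div_mul_eq_mul_div, div_le_iff₀ (by positivity)]
    nlinarith
  have b2 : (1 - 1 / 12 ^ r) ^ u * (26 * r * ((K0 * u + r : ℕ) : ℝ) * Ω) ≤ ε / 2 * Ω := by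
    rw [← mul_assoc]
    refine mul_le_mul_of_nonneg_right ?_ hΩ
    have c1 : ((K0 * u + r : ℕ) : ℝ) ≤ 2 * (K0 * u) := by
      exact_mod_cast (by omega : K0 * u + r ≤ 2 * (K0 * u))
    rw [lt_div_iff₀ (by positivity)] at hu1
    have c2 := pow_nonneg (rec_q0 r) u
    calc _ ≤ ((1 : ℝ) - 1 / 12 ^ r) ^ u * (26 * r * (2 * (K0 * u))) := by gcongr
      _ ≤ _ := by nlinarith
  have b3 := mul_le_mul_of_nonneg_left a2
    (show 0 ≤ 2 * (r : ℝ) ^ 2 * u / ((K0 * u : ℕ) : ℝ) by positivity)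
  have b4 := mul_le_mul_of_nonneg_left a3 (pow_nonneg (rec_q0 r) u)
  linarith

end Pool.Agent.Work.MP_84019e_co.Sg
end

-- merged part: Pool.Agent.Work.MP_84019e_co.Sg.MarkB
section
set_option autoImplicit false

namespace Pool.Agent.Work.MP_84019e_co.Sg

open Finset Pool.Agent.Work.MP_84019e_co.Cube Pool.Agent.Work.MP_84019e_co.Str
open Filter Topology

section aux

variable {m n r k w s : ℕ} {δ : ℝ} {F : Finset (Fin (m + 1) → ℤ)} {a : ℕ → B r}

lemma markB_low (hP : Par m (n + r) k δ) (hB : F ⊆ box (m + 1) k) (hw : 2 * w ≤ n) :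
    ((n : ℝ) - 2 * w + 1) * (typ k δ F).card *
        (((m : ℝ) + 1) * (k : ℝ) ^ 2 * (1 / 6 - 2 * δ)) ^ (n + r) ≤
      ∑ p ∈ pcs (m + 1) (n + r) k δ, pb k p *
        ∑ u ∈ Icc w (n - w), ind (pt p (init (n + r) u) ∈ F) := by
  classical
  have hs : typ k δ F ⊆ F := by
    unfold typ
    exact filter_subset _ _
  have ht : ∀ z ∈ typ k δ F, ¬ Atyp k δ z := fun z hz => by
    unfold typ at hz
    exact (mem_filter.1 hz).2
  have hl : ((n + r : ℕ) : ℝ) ≤ 2 * δ * ((m + 1 : ℕ) : ℝ) := by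
    have := hP.len
    push_cast at this ⊢
    exact this
  have h1 : ∀ u ∈ Icc w (n - w), ((typ k δ F).card : ℝ) *
      (((m : ℝ) + 1) * (k : ℝ) ^ 2 * (1 / 6 - 2 * δ)) ^ (n + r) ≤
      ∑ p ∈ pcs (m + 1) (n + r) k δ, pb k p * ind (pt p (init (n + r) u) ∈ F) := by
    intro u _
    have h2 := gl_set hP.pos hP.small hl hP.side F (typ k δ F) hs (hs.trans hB) ht
      (init (n + r) u)
    rw [sum_filter] at h2
    push_cast at h2
    refine h2.trans (le_of_eq (sum_congr rfl fun p _ => ?_))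
    rw [ind_eq_ite, mul_ite, mul_one, mul_zero]
  have h3 := sum_le_sum h1
  rw [sum_const, Nat.card_Icc, nsmul_eq_mul, sum_comm] at h3
  have e : ((n - w + 1 - w : ℕ) : ℝ) = (n : ℝ) - 2 * w + 1 := by
    have e1 : n - w + 1 - w + 2 * w = n + 1 := by omega
    have e2 := congrArg (Nat.cast : ℕ → ℝ) e1
    push_cast at e2
    linarith only [e2]
  rw [e, ← mul_assoc] at h3
  simpa only [mul_sum] using h3

lemma markB_un (hT : Top F a) (hw : 2 * w ≤ n) (hs : s ≤ w) {p : Pc (m + 1) (n + r)}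
    (hp : Function.Injective p.2) :
    (av fun π : Pm (n + r) => ∑ u ∈ Icc w (n - w), ind (pt (rot p π) (init (n + r) u) ∈ F ∧
      ¬ ∃ j < r, Cr F a (rot p π) j (u - s) (u + s))) ≤ NB (pH F w p) 0 s := by
  rw [NB, ← av_sum]
  refine av_mono fun π => ?_
  refine le_trans (sum_le_sum fun u hu => ?_)
    (sum_le_sum_of_subset_of_nonneg (s := Icc w (n - w)) (fun u hu => ?_)
      fun _ _ _ => ind_nonneg _)
  · obtain ⟨h1, h2⟩ := mem_Icc.1 hu
    refine ind_mono fun ⟨h3, h4⟩ => ⟨(mark_Ev_zero _ _ _).2 ?_, ?_⟩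
    · rw [pt_rot] at h3
      refine mem_pH.2 ⟨?_, ?_, h3⟩
      · rw [card_ch π (by omega)]
        exact h1
      · rw [card_ch π (by omega)]
        omega
    · exact bad_of_not_cr hT hp π w (by omega) (by omega) fun j hj hc => h4 ⟨j, hj, hc⟩
  · have := (mem_Icc.1 hu).2
    exact mem_range.2 (by omega)

lemma markB_mk (hw : 2 * w ≤ n) (hs : s ≤ w) {p : Pc (m + 1) (n + r)}
    (hp : Function.Injective p.2) :
    (av fun π : Pm n => ∑ u ∈ Icc w (n - w),
      ind (pt (rot p (ext r π)) (init (n + r) u) ∈ F ∧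
        ∃ j < r, Cr F a (rot p (ext r π)) j (u - s) (u + s))) ≤
      ind (∃ j < r, Cr F a p j 0 n) * lamM r (pH F w (lo p)) (VG F a (w / 2) p) s := by
  rw [lamM, ← av_sum, ← av_mul_left]
  refine av_mono fun π => ?_
  rw [mul_sum]
  refine le_trans (sum_le_sum fun u hu => ?_)
    (sum_le_sum_of_subset_of_nonneg (s := Icc w (n - w)) (fun u hu => ?_)
      fun _ _ _ => mul_nonneg (ind_nonneg _) (ind_nonneg _))
  · obtain ⟨h1, h2⟩ := mem_Icc.1 hu
    rw [← ind_and]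
    refine ind_mono fun ⟨h3, j, hj, hc⟩ =>
      ⟨⟨j, hj, cr_of_ext hp π (by omega) (by omega) hc⟩, ?_, j, hj, ?_, hj, Or.inl ⟨?_, ?_⟩⟩
    · rw [pt_ext_init p π (by omega)] at h3
      refine mem_pH.2 ⟨?_, ?_, h3⟩
      · rw [card_ch π (by omega)]
        exact h1
      · rw [card_ch π (by omega)]
        omega
    · rintro ⟨-, h5 | h5⟩
      · have h6 := hc.1
        rw [hiW_rot, pt_ext_init p π (by omega)] at h6
        exact h6 h5.2
      · rw [card_ch π (by omega)] at h5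
        omega
    · rw [card_ch π (by omega)]
      omega
    · have h6 := hc.2
      rw [hiW_rot, pt_ext_init p π (by omega)] at h6
      exact h6
  · have := (mem_Icc.1 hu).2
    exact mem_range.2 (by omega)

end aux

/-- Paper, MK (c). -/
theorem mass_low {m n r k w s : ℕ} {δ : ℝ} {F : Finset (Fin (m + 1) → ℤ)} {a : ℕ → B r}
    (hP : Par m (n + r) k δ) (hB : F ⊆ box (m + 1) k) (hT : Top F a) (hw : 2 * w ≤ n)
    (hs : s ≤ w) :
    ((n : ℝ) - 2 * w + 1) * (typ k δ F).card *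
        (((m : ℝ) + 1) * (k : ℝ) ^ 2 * (1 / 6 - 2 * δ)) ^ (n + r) ≤
      mass n r k δ F a w s + ∑ p ∈ pcs (m + 1) (n + r) k δ, pb k p * NB (pH F w p) 0 s := by
  classical
  refine (markB_low hP hB hw).trans ?_
  have h1 := sum_rot_av (D := m + 1) (L := n + r) (k := k) (δ := δ) (fun π : Pm (n + r) => π)
    fun p => ∑ u ∈ Icc w (n - w), ind (pt p (init (n + r) u) ∈ F ∧
      ¬ ∃ j < r, Cr F a p j (u - s) (u + s))
  have h2 := sum_rot_av (D := m + 1) (L := n + r) (k := k) (δ := δ) (fun π : Pm n => ext r π)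
    fun p => ∑ u ∈ Icc w (n - w), ind (pt p (init (n + r) u) ∈ F ∧
      ∃ j < r, Cr F a p j (u - s) (u + s))
  have h3 : ∑ p ∈ pcs (m + 1) (n + r) k δ, pb k p * (ind (∃ j < r, Cr F a p j 0 n) *
      lamM r (pH F w (lo p)) (VG F a (w / 2) p) s) = mass n r k δ F a w s := by
    unfold mass rel
    rw [sum_filter]
    refine sum_congr rfl fun p _ => ?_
    rw [ind_eq_ite, ite_mul, one_mul, zero_mul, mul_ite, mul_zero]
  have h4 := sum_le_sum fun p (hp : p ∈ pcs (m + 1) (n + r) k δ) =>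
    mul_le_mul_of_nonneg_left (markB_un hT hw hs (mem_pcs.1 hp).2.1) (pb_nonneg hp)
  have h5 := sum_le_sum fun p (hp : p ∈ pcs (m + 1) (n + r) k δ) =>
    mul_le_mul_of_nonneg_left (markB_mk (F := F) (a := a) hw hs (mem_pcs.1 hp).2.1)
      (pb_nonneg hp)
  rw [h1] at h4
  rw [h2, h3] at h5
  refine le_trans (le_of_eq ?_) (add_le_add h5 h4)
  rw [← sum_add_distrib]
  refine sum_congr rfl fun p _ => ?_
  rw [← mul_add, ← sum_add_distrib]
  refine congrArg _ (sum_congr rfl fun u _ => ?_)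
  rw [ind_and, ind_and, ind_not]
  ring

/-- Paper, MK. -/
theorem mark_grid (P : Type) [PartialOrder P] {r : ℕ} (hr : 0 < r) {ε : ℝ} (hε : 0 < ε) :
    ∃ s W : ℕ, 1 ≤ s ∧ ∀ (m n w k t : ℕ) (δ lam : ℝ) (F : Finset (Fin (m + 1) → ℤ))
      (a : ℕ → B r), Gr P r m n w k t δ lam F → Top F a → W ≤ w →
        (lam - ε) * (n * Om m (n + r) k δ) ≤ mass n r k δ F a w s := by
  obtain ⟨s, W, h1, h2, h3⟩ := rec_small hr hε
  refine ⟨s, W, h1, fun m n w k t δ lam F a hG hT hW => ?_⟩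
  have hP := hG.par
  have hδ := hP.pos
  have hb : (0 : ℝ) ≤ (((m : ℝ) + 1) * (k : ℝ) ^ 2 * (1 / 6 + 4 * δ)) ^ (n + r) := by positivity
  have hR : RH r w t (n * Om m (n + r) k δ)
      ((((n + r : ℕ) : ℝ) + 1) * (nbr k F).card *
        (((m : ℝ) + 1) * (k : ℝ) ^ 2 * (1 / 6 + 4 * δ)) ^ (n + r))
      (fun s => ∑ p ∈ pcs (m + 1) (n + r) k δ, pb k p * MM (pH F w p) s)
      (fun s s' => ∑ p ∈ pcs (m + 1) (n + r) k δ, pb k p * NB (pH F w p) s s') :=
    { tw := hG.tw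
      om := by
        unfold Om
        positivity
      nn := fun s => sum_nonneg fun p hp => mul_nonneg (pb_nonneg hp) (MM_nonneg _ _)
      mono := fun s s' h => sum_le_sum fun p hp =>
        mul_le_mul_of_nonneg_left (MM_mono _ h) (pb_nonneg hp)
      term := fun s => mm_term hP F w s
      few := by
        have h4 := mul_le_mul_of_nonneg_right hG.few hb
        unfold Om
        push_cast
        linarith only [h4]
      cr := fun s s' h => mm_le hP hT h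
      nb := fun s s' u a1 a2 a3 a4 a5 => by
        rw [mul_sum, mul_sum, ← sum_add_distrib]
        refine sum_le_sum fun p hp => ?_
        have h4 := mul_le_mul_of_nonneg_left
          (NB_le (pH_mid F le_rfl p) a1 a2 a3 a4 a5) (pb_nonneg hp)
        linarith only [h4] }
  have h5 := h3 _ _ _ _ _ _ hR hW
  have h6 := mass_low (s := s) hP hG.sub hT hG.two (h2.trans hW)
  have h7 := hG.big
  linarith only [h5, h6, h7]

end Pool.Agent.Work.MP_84019e_co.Sg
end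

-- merged part: Pool.Agent.Work.MP_84019e_co.Sg.Trans
section
set_option autoImplicit false

namespace Pool.Agent.Work.MP_84019e_co.Sg

open Finset Pool.Agent.Work.MP_84019e_co.Cube Pool.Agent.Work.MP_84019e_co.Str
open Filter Topology

variable {P : Type} [PartialOrder P] [Fintype P] [Nonempty P]

/-- Paper, theorem G star. -/
theorem transfer_g {lam ε : ℝ} (hε : 0 < ε)
    (hs : ∀ W : ℕ, ∃ (m n w k t : ℕ) (δ : ℝ) (F : Finset (Fin (m + 1) → ℤ)), W ≤ w ∧
      Gr P (Fintype.card P) m n w k t δ lam F) :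
    ∀ᶠ mm : ℕ in atTop, (lam - ε) * mm.choose (mm / 2) ≤ LaStar (B mm) P := by
  classical
  rcases le_or_gt lam ε with hl0 | hl0
  · refine Eventually.of_forall fun m => le_trans ?_ (Nat.cast_nonneg _)
    exact mul_nonpos_of_nonpos_of_nonneg (by linarith) (Nat.cast_nonneg _)
  obtain ⟨r, hr⟩ : ∃ r, r = Fintype.card P := ⟨_, rfl⟩
  have hr0 : 0 < r := hr ▸ Fintype.card_pos
  have hr1 : (0 : ℝ) < r := by exact_mod_cast hr0
  rw [← hr] at hs
  obtain ⟨a, ha⟩ := exists_top P hr.symm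
  have hD : 0 < lam + 2 + 8 * r := by linarith
  obtain ⟨e, hee⟩ : ∃ e : ℝ, e = ε / (lam + 2 + 8 * r) := ⟨_, rfl⟩
  have he : 0 < e := hee ▸ div_pos hε hD
  have heD : e * (lam + 2 + 8 * r) = ε := by rw [hee, div_mul_cancel₀ _ hD.ne']
  obtain ⟨L, hLe⟩ : ∃ L : ℝ, L = (lam - e) / r - e := ⟨_, rfl⟩
  have hLr : r * L = lam - e - r * e := by
    rw [hLe]
    field_simp
  have hL0 : 0 ≤ L := by
    refine le_of_mul_le_mul_left ?_ hr1
    rw [hLr]
    nlinarith
  obtain ⟨s, W0, hs1, hR⟩ := mark_grid P hr0 he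
  choose m n w k t δ F hW hS using hs
  let z : ℕ → ℕ → ℝ := fun W u => zz (n W) r (k W) (δ W) (F W) a (w W) s u
  have hz0 : ∀ W u, 0 ≤ z W u := fun W u => zz_nonneg (hS W).par (hS W).two s u
  have hzC : ∀ W K, ∑ u ∈ range K, z W u ≤ 2 * s * (r : ℝ) ^ 2 + r :=
    fun W K => zz_sum (hS W).par (hS W).two s K
  obtain ⟨T, hT0, hT⟩ := tail_small (hyperfilter ℕ) z hz0 hzC he
  have hX : (0 : ℝ) < (T : ℝ) + s := by positivity
  obtain ⟨e1, he1, -, he1e, hO⟩ := ob_main he (T + s) r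
  obtain ⟨η, hηe⟩ : ∃ η : ℝ, 2 * η = e1 := ⟨e1 / 2, by ring⟩
  have hη : 0 < η := by linarith
  rw [← hηe] at hO he1e
  obtain ⟨t2, ht2⟩ : ∃ t2 : ℝ, t2 = e * η / (2 * ((T : ℝ) + s) * r) := ⟨_, rfl⟩
  have ht20 : 0 < t2 := by
    rw [ht2]
    positivity
  obtain ⟨T2, -, hT2⟩ := tail_small (hyperfilter ℕ) z hz0 hzC ht20
  obtain ⟨t0, ht0, hO⟩ := hO T2
  obtain ⟨t1, ht1⟩ : ∃ t1 : ℝ, t1 = t0 * e / (8 * ((T : ℝ) + s) * r) := ⟨_, rfl⟩
  have ht10 : 0 < t1 := by
    rw [ht1]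
    positivity
  obtain ⟨T1, hT10, hT1⟩ := tail_small (hyperfilter ℕ) z hz0 hzC ht10
  have hT1r : (0 : ℝ) < T1 := by exact_mod_cast hT10
  filter_upwards [hO (2 + 2 * η + 8 * ((T : ℝ) + s) * r * T1 / e) (by positivity),
    eventually_gt_atTop 0] with mm hm hm0
  obtain ⟨M, S, hM1, hM2, hM3, hOB⟩ := hm
  obtain ⟨σ, hσe⟩ : ∃ σ : ℝ, σ = 4 * ((T : ℝ) + s) * r * (T1 + M * t1) / e := ⟨_, rfl⟩
  have hσ : 0 < σ := by
    rw [hσe]
    positivity
  obtain ⟨d0, hd0⟩ := exists_nat_ge (2 * r * ((T : ℝ) + s) * mm * (2 / η + 3) ^ r / e)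
  rw [div_le_iff₀ he] at hd0
  obtain ⟨c, l, hc1, hc2, hc3, hc4⟩ := last_params r (d0 + mm) s T T2 M (T1 := T1) (t1 := t1)
    (t2 := t2) he hσ hη hL0 hT1r.le ht10.le ht20.le
    (by rw [hσe, mul_div_cancel₀ _ he.ne'])
    (by rw [ht2, mul_div_cancel₀ _ (by positivity)])
  obtain ⟨W, ⟨⟨w1, w2⟩, w3⟩, w4⟩ := ((((hT l).and (hT2 M)).and (hT1 M)).and
    (Nat.hyperfilter_le_atTop (eventually_ge_atTop (W0 + 2 * (l + (d0 + mm)))))).exists
  have hWw := hW W
  have h2w := (hS W).two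
  have hp : Pr.Ok ⟨r, d0 + mm, l, c, s, T, T2, M⟩ (n W) (w W / 2) :=
    ⟨hc1, show 1 ≤ d0 + mm by omega, hM3, hs1, hM1, hM2, hc2,
      show c ^ 2 + (d0 + mm) + M ≤ l - c ^ 2 by omega, show l + (d0 + mm) ≤ w W / 2 by omega,
      by omega⟩
  have main := grid_one (q := ⟨r, d0 + mm, l, c, s, T, T2, M⟩) (a := a) (hS W).free (hS W).par hp
    h2w hr0 (T1 := T1) (t1 := t1) (t2 := t2) (L := L) hσ hη he hm0 (show mm ≤ d0 + mm by omega)
    (hd0.trans (mul_le_mul_of_nonneg_right (by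
      show (d0 : ℝ) ≤ ((d0 + mm : ℕ) : ℝ)
      exact_mod_cast Nat.le_add_right d0 mm) he.le))
    (le_of_eq (by
      rw [hσe, ht1]
      field_simp
      ring)) hOB w3 w2
    (by
      have a1 := hR _ _ _ _ _ _ _ _ a (hS W) (ha _ _ (hS W).free) (by omega)
      have a2 : (0 : ℝ) ≤ n W * Om (m W) (n W + r) (k W) (δ W) :=
        mul_nonneg (Nat.cast_nonneg _) (Om_nonneg (hS W).par _)
      refine le_trans ?_ a1
      show (L + ∑ u ∈ Ico T l, z W u) * (r * (n W * Om (m W) (n W + r) (k W) (δ W))) ≤ _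
      rw [← mul_assoc]
      refine mul_le_mul_of_nonneg_right ?_ a2
      have a3 := mul_le_mul_of_nonneg_left w1 hr1.le
      linarith)
  refine le_trans (mul_le_mul_of_nonneg_right ?_ (Nat.cast_nonneg _)) main
  have a1 : (r : ℝ) * (e + 2 * η) ≤ r * (e + e) :=
    mul_le_mul_of_nonneg_left (by linarith only [he1e]) hr1.le
  have a2 := mul_le_mul_of_nonneg_left hc4 hr1.le
  have a3 : (r : ℝ) * ((1 - e) * L - 5 * e) = (1 - e) * (lam - e - r * e) - 5 * r * e := by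
    rw [← hLr]
    ring
  have a4 : 0 ≤ e * (e + r * e) := by positivity
  show lam - ε ≤ r * (lowv ⟨r, d0 + mm, l, c, s, T, T2, M⟩ σ η T1 t1 t2 L / l) - e -
    r * (e + 2 * η)
  nlinarith only [a1, a2, a3, a4, heD]

end Pool.Agent.Work.MP_84019e_co.Sg
end

-- merged part: Pool.Agent.Work.MP_84019e_co.Sg.ApStep
section
set_option autoImplicit false

namespace Pool.Agent.Work.MP_84019e_co.Sg

open Finset Pool.Agent.Work.MP_84019e_co.Cube Pool.Agent.Work.MP_84019e_co.Str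
open Filter Topology

variable {P : Type} [PartialOrder P]

lemma strict_of_strong {D : ℕ} {S : Finset (Fin D → ℤ)} (h : StrongFree P S) :
    StrictFree P S := by
  rintro ⟨f, hm, h1, h2⟩
  have key : ∀ p q, p ≤ q ↔ f p ≤ f q := by
    intro p q
    constructor
    · intro hpq
      rcases hpq.eq_or_lt with rfl | hlt
      · exact le_rfl
      · exact fun l => (h1 p q hlt l).le
    · intro hf
      by_contra hn
      obtain ⟨l, hl⟩ := h2 p q hn
      exact absurd (hf l) (not_le.2 hl)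
  exact h ⟨f, fun p q hpq => le_antisymm ((key p q).2 hpq.le) ((key q p).2 hpq.ge), hm, key⟩

lemma StrictFree.mono {D : ℕ} {S S' : Finset (Fin D → ℤ)} (h : StrictFree P S) (hs : S' ⊆ S) :
    StrictFree P S' := by
  rintro ⟨f, hm, h1, h2⟩
  exact h ⟨f, fun p => hs (hm p), h1, h2⟩

lemma ap_lt_of_div {a b g : ℤ} (hg : 0 < g) (h : a / g < b / g) : a < b := by
  by_contra hn
  exact absurd (Int.ediv_le_ediv hg (not_lt.1 hn)) (not_le.2 h)

/-- Contraction of all coordinates. -/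
lemma StrictFree.div {D : ℕ} {S : Finset (Fin D → ℤ)} (h : StrictFree P S) {g : ℕ} (hg : 0 < g) :
    StrictFree P (ctr g S) := by
  classical
  rintro ⟨f, hm, h1, h2⟩
  have hg' : (0 : ℤ) < g := by exact_mod_cast hg
  choose x hx hxe using fun p => mem_image.1 (hm p)
  have hxl : ∀ p l, x p l / (g : ℤ) = f p l := fun p l => congrFun (hxe p) l
  refine h ⟨x, hx, fun p q hpq l => ap_lt_of_div hg' ?_, fun p q hpq => ?_⟩
  · rw [hxl, hxl]
    exact h1 p q hpq l
  · obtain ⟨l, hl⟩ := h2 p q hpq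
    refine ⟨l, ap_lt_of_div hg' ?_⟩
    rw [hxl, hxl]
    exact hl

/-- Translation. -/
lemma StrictFree.shift {D : ℕ} {S : Finset (Fin D → ℤ)} (h : StrictFree P S) (c : Fin D → ℤ) :
    StrictFree P (S.image fun x => x - c) := by
  classical
  rintro ⟨f, hm, h1, h2⟩
  choose x hx hxe using fun p => mem_image.1 (hm p)
  have hxl : ∀ p l, x p l - c l = f p l := fun p l => congrFun (hxe p) l
  refine h ⟨x, hx, fun p q hpq l => ?_, fun p q hpq => ?_⟩
  · have := h1 p q hpq l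
    rw [← hxl, ← hxl] at this
    omega
  · obtain ⟨l, hl⟩ := h2 p q hpq
    rw [← hxl, ← hxl] at hl
    exact ⟨l, by omega⟩

lemma ap_idx {D r b : ℕ} (hb : b < D / r) (i : Fin r) : b * r + i.val < D := by
  have h1 : (b + 1) * r ≤ D / r * r := Nat.mul_le_mul_right _ hb
  have h2 : D / r * r ≤ D := Nat.div_mul_le_self _ _
  have h3 := i.isLt
  have h4 : (b + 1) * r = b * r + r := by ring
  omega

/-- Points of a box that avoid one pattern on each of the consecutive tuples. -/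
lemma avoid_count {D r g : ℕ} (hr : 0 < r) (hg : 0 < g) (σ : ℕ → Fin r → ℤ)
    (hσ : ∀ b i, 0 ≤ σ b i ∧ σ b i < g) (S : Finset (Fin D → ℤ)) (hS : S ⊆ box D g)
    (h : ∀ x ∈ S, ∀ b < D / r, ∃ (i : Fin r) (l : Fin D), l.val = b * r + i.val ∧ x l ≠ σ b i) :
    (S.card : ℝ) ≤ (1 - 1 / (g : ℝ) ^ r) ^ (D / r) * (g : ℝ) ^ D := by
  classical
  have hT : D / r * r ≤ D := Nat.div_mul_le_self _ _
  let Φ : (Fin D → ℤ) → (Fin (D / r) → Fin r → ℤ) × (Fin (D - D / r * r) → ℤ) := fun x =>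
    (fun b i => x ⟨b.val * r + i.val, ap_idx b.isLt i⟩,
      fun u => x ⟨D / r * r + u.val, by have := u.isLt; omega⟩)
  have hinj : Function.Injective Φ := by
    intro x y hxy
    funext l
    by_cases hl : l.val < D / r * r
    · have h1 : l.val / r < D / r := (Nat.div_lt_iff_lt_mul hr).2 hl
      have h2 := congrFun (congrFun (congrArg Prod.fst hxy) ⟨l.val / r, h1⟩)
        ⟨l.val % r, Nat.mod_lt _ hr⟩
      have h3 : (⟨l.val / r * r + l.val % r, by rw [Nat.div_add_mod']; exact l.isLt⟩ : Fin D) = l :=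
        Fin.ext (Nat.div_add_mod' _ _)
      simp only [Φ] at h2
      rw [h3] at h2
      exact h2
    · have h2 := congrFun (congrArg Prod.snd hxy) ⟨l.val - D / r * r, by have := l.isLt; omega⟩
      have h3 : (⟨D / r * r + (l.val - D / r * r), by have := l.isLt; omega⟩ : Fin D) = l :=
        Fin.ext (by simp only; omega)
      simp only [Φ] at h2
      rw [h3] at h2
      exact h2
  have hσb : ∀ b, σ b ∈ box r g := fun b => mem_box.2 (hσ b)
  have hle : S.card ≤ ((Fintype.piFinset fun b : Fin (D / r) => (box r g).erase (σ b.val)) ×ˢ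
      box (D - D / r * r) g).card := by
    refine card_le_card_of_injOn Φ (fun x hx => ?_) hinj.injOn
    have hx' : x ∈ S := hx
    have hb := mem_box.1 (hS hx')
    rw [mem_coe, mem_product, Fintype.mem_piFinset]
    refine ⟨fun b => mem_erase.2 ⟨?_, mem_box.2 fun i => hb _⟩, mem_box.2 fun u => hb _⟩
    intro he
    obtain ⟨i, l, hl, hne⟩ := h x hx' b.val b.isLt
    apply hne
    have h2 := congrFun he i
    have h3 : (⟨b.val * r + i.val, ap_idx b.isLt i⟩ : Fin D) = l := Fin.ext hl.symm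
    simp only [Φ] at h2
    rw [h3] at h2
    exact h2
  rw [card_product, Fintype.card_piFinset, card_box] at hle
  simp only [card_erase_of_mem (hσb _), card_box, prod_const, card_univ, Fintype.card_fin] at hle
  have hg1 : 1 ≤ g ^ r := Nat.one_le_pow _ _ hg
  have hg' : (0 : ℝ) < (g : ℝ) ^ r := by positivity
  have h5 : (S.card : ℝ) ≤ ((g : ℝ) ^ r - 1) ^ (D / r) * (g : ℝ) ^ (D - D / r * r) := by
    have := (Nat.cast_le (α := ℝ)).2 hle
    rw [Nat.cast_mul, Nat.cast_pow, Nat.cast_sub hg1] at this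
    simpa using this
  have h6 : ((g : ℝ) ^ r - 1) = (1 - 1 / (g : ℝ) ^ r) * (g : ℝ) ^ r := by field_simp
  have h7 : (g : ℝ) ^ D = ((g : ℝ) ^ r) ^ (D / r) * (g : ℝ) ^ (D - D / r * r) := by
    rw [← pow_mul, ← pow_add]
    congr 1
    rw [mul_comm r]
    omega
  rw [h6, mul_pow, mul_assoc, ← h7] at h5
  exact h5

lemma ap_enum [Fintype P] {r : ℕ} (hr : Fintype.card P = r) :
    ∃ e : P ≃ Fin r, ∀ p q, p < q → e p < e q := by
  classical
  have : Fintype (LinearExtension P) := inferInstanceAs (Fintype P)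
  have hcard0 : Fintype.card (LinearExtension P) = Fintype.card P :=
    Fintype.card_congr (Equiv.refl P)
  have hcard : Fintype.card (LinearExtension P) = r := hcard0.trans hr
  let e := monoEquivOfFin (LinearExtension P) hcard
  refine ⟨(Equiv.refl P).trans e.symm.toEquiv, fun p q hpq => ?_⟩
  have h1 : e.symm (toLinearExtension p) ≤ e.symm (toLinearExtension q) :=
    e.symm.monotone (toLinearExtension.monotone hpq.le)
  refine lt_of_le_of_ne h1 fun h2 => hpq.ne ?_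
  exact e.symm.injective h2

/-- Points of the box with a zero coordinate. -/
lemma ap_zero (m K : ℕ) (Z : Finset (Fin (m + 1) → ℤ))
    (hZ : ∀ y ∈ Z, y ∈ box (m + 1) K ∧ ∃ l, y l = 0) : Z.card ≤ (m + 1) * K ^ m := by
  classical
  have h1 : Z ⊆ univ.biUnion fun l : Fin (m + 1) => (box m K).image fun y => Fin.insertNth l 0 y := by
    intro y hy
    obtain ⟨hb, l, hl⟩ := hZ y hy
    refine mem_biUnion.2 ⟨l, mem_univ _, mem_image.2 ⟨Fin.removeNth l y, ?_, ?_⟩⟩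
    · exact mem_box.2 fun i => mem_box.1 hb _
    · rw [← hl]
      exact Fin.insertNth_self_removeNth l y
  refine (card_le_card h1).trans (card_biUnion_le.trans ?_)
  refine (sum_le_sum fun l _ => card_image_le).trans ?_
  simp [card_box]

/-- The state of element number `j` on the reserved directions. -/
noncomputable def apSt {r : ℕ} (e : P ≃ Fin r) (j i : Fin r) : ℤ :=
  open Classical in if e.symm i ≤ e.symm j then (r : ℤ) + j.val else j.val

lemma apSt_mem {r : ℕ} (e : P ≃ Fin r) (j i : Fin r) :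
    0 ≤ apSt e j i ∧ apSt e j i < ((2 * r : ℕ) : ℤ) := by
  have := j.isLt
  unfold apSt
  split_ifs <;> omega

/-- The cell `c` shows all states on the directions `W`. -/
def apRich {D r : ℕ} (e : P ≃ Fin r) (S : Finset (Fin D → ℤ)) (W : Fin r → Fin D)
    (c : Fin D → ℤ) : Prop :=
  ∀ j, ∃ x ∈ S, (∀ l, x l / ((2 * r : ℕ) : ℤ) = c l) ∧
    ∀ i, x (W i) = ((2 * r : ℕ) : ℤ) * c (W i) + apSt e j i

lemma ap_diag {D r : ℕ} (e : P ≃ Fin r) (he : ∀ p q, p < q → e p < e q) (h0 : 0 < r)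
    {S : Finset (Fin D → ℤ)} (hF : StrictFree P S) (W : Fin r → Fin D) (c : Fin r → Fin D → ℤ)
    (hc : ∀ j, apRich e S W (c j)) (h1 : ∀ j j' i, c j (W i) = c j' (W i))
    (h2 : ∀ j j' l, j < j' → (¬ ∃ i, W i = l) → c j l < c j' l) : False := by
  have hq : (0 : ℤ) < ((2 * r : ℕ) : ℤ) := by omega
  choose x hx hxc hxs using fun j => hc j j
  refine hF ⟨fun p => x (e p), fun p => hx _, fun p q hpq l => ?_, fun p q hpq => ⟨W (e p), ?_⟩⟩
  · have hlt := he p q hpq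
    by_cases hl : ∃ i, W i = l
    · obtain ⟨i, rfl⟩ := hl
      show x (e p) (W i) < x (e q) (W i)
      rw [hxs, hxs, h1 (e p) (e q)]
      have hv : (e p).val < (e q).val := hlt
      have : apSt e (e p) i < apSt e (e q) i := by
        unfold apSt
        split_ifs with ha hb
        · omega
        · rw [e.symm_apply_apply] at ha hb
          exact absurd (ha.trans hpq.le) hb
        · omega
        · omega
      omega
    · refine ap_lt_of_div hq ?_
      show x (e p) l / _ < x (e q) l / _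
      rw [hxc, hxc]
      exact h2 _ _ l hlt hl
  · show x (e q) (W (e p)) < x (e p) (W (e p))
    rw [hxs, hxs, h1 (e p) (e q)]
    have hv := (e q).isLt
    have : apSt e (e q) (e p) < apSt e (e p) (e p) := by
      unfold apSt
      rw [if_neg (by rw [e.symm_apply_apply, e.symm_apply_apply]; exact hpq), if_pos le_rfl]
      omega
    omega

/-- Few cells are rich. -/
lemma ap_rich {r m K : ℕ} (e : P ≃ Fin r) (he : ∀ p q, p < q → e p < e q) (h0 : 0 < r)
    (hm : r ≤ m) {S : Finset (Fin (m + 1) → ℤ)} (hF : StrictFree P S) (W : Fin r → Fin (m + 1))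
    (R : Finset (Fin (m + 1) → ℤ)) (hR : ∀ c ∈ R, c ∈ box (m + 1) K ∧ apRich e S W c) :
    R.card ≤ r * ((m + 1) * K ^ m) := by
  classical
  have hne : (univ.filter fun l : Fin (m + 1) => ¬ ∃ i, W i = l).Nonempty := by
    by_contra hn
    rw [not_nonempty_iff_eq_empty, filter_eq_empty_iff] at hn
    have hs : Function.Surjective W := fun l => by
      have := hn (mem_univ l)
      exact not_not.1 this
    have := Fintype.card_le_of_surjective W hs
    simp only [Fintype.card_fin] at this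
    omega
  let μ : (Fin (m + 1) → ℤ) → ℤ := fun c => (univ.filter fun l => ¬ ∃ i, W i = l).inf' hne c
  let φ : (Fin (m + 1) → ℤ) → Fin (m + 1) → ℤ := fun c l =>
    if ∃ i, W i = l then c l else c l - μ c
  have hμ1 : ∀ c l, (¬ ∃ i, W i = l) → μ c ≤ c l := fun c l hl =>
    inf'_le c (mem_filter.2 ⟨mem_univ _, hl⟩)
  have hμ2 : ∀ c, ∃ l, (¬ ∃ i, W i = l) ∧ μ c = c l := fun c => by
    obtain ⟨l, hl, h⟩ := exists_mem_eq_inf' hne c
    exact ⟨l, (mem_filter.1 hl).2, h⟩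
  refine (card_le_mul_card_image (f := φ) R r fun y _ => ?_).trans
    (Nat.mul_le_mul_left _ (ap_zero m K _ fun y hy => ?_))
  · by_contra hn
    have hinj : Set.InjOn μ (R.filter fun c => φ c = y : Finset _) := by
      intro c hc c' hc' hcc
      have e1 := (mem_filter.1 hc).2
      have e2 := (mem_filter.1 hc').2
      funext l
      have e3 := congrFun (e1.trans e2.symm) l
      simp only [φ] at e3
      split_ifs at e3
      · exact e3
      · omega
    have hcard : r ≤ ((R.filter fun c => φ c = y).image μ).card := by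
      rw [card_image_of_injOn hinj]
      omega
    let t := orderEmbOfCardLe _ hcard
    choose c hc hct using fun j => mem_image.1 (orderEmbOfCardLe_mem _ hcard j)
    have hφ : ∀ j, φ (c j) = y := fun j => (mem_filter.1 (hc j)).2
    refine ap_diag e he h0 hF W c (fun j => (hR _ (mem_filter.1 (hc j)).1).2) (fun j j' i => ?_)
      fun j j' l hj hl => ?_
    · have e3 := congrFun ((hφ j).trans (hφ j').symm) (W i)
      simp only [φ] at e3
      rw [if_pos ⟨i, rfl⟩, if_pos ⟨i, rfl⟩] at e3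
      exact e3
    · have e3 := congrFun ((hφ j).trans (hφ j').symm) l
      simp only [φ] at e3
      rw [if_neg hl, if_neg hl, hct, hct] at e3
      have := (orderEmbOfCardLe _ hcard).strictMono hj
      omega
  · obtain ⟨c, hc, rfl⟩ := mem_image.1 hy
    have hb := mem_box.1 (hR c hc).1
    obtain ⟨l0, hl0, hl1⟩ := hμ2 c
    refine ⟨mem_box.2 fun l => ?_, l0, ?_⟩
    · simp only [φ]
      split_ifs with hl
      · exact hb l
      · have := hμ1 c l hl
        have := hb l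
        have := hb l0
        omega
    · simp only [φ]
      rw [if_neg hl0]
      omega

/-- The members of one cell, moved to the origin. -/
lemma ap_cell {D g : ℕ} (hg : 0 < g) (S : Finset (Fin D → ℤ)) (c : Fin D → ℤ) :
    ∃ S' ⊆ box D g, S'.card = (S.filter fun x => (fun l => x l / (g : ℤ)) = c).card ∧
      ∀ y ∈ S', ∃ x ∈ S, (∀ l, x l / (g : ℤ) = c l) ∧ ∀ l, x l = (g : ℤ) * c l + y l := by
  classical
  have hg' : (0 : ℤ) < g := by exact_mod_cast hg
  refine ⟨(S.filter fun x => (fun l => x l / (g : ℤ)) = c).image fun x l => x l - g * c l,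
    fun y hy => ?_, card_image_of_injective _ fun x x' h => ?_, fun y hy => ?_⟩
  · obtain ⟨x, hx, rfl⟩ := mem_image.1 hy
    refine mem_box.2 fun l => ?_
    have h1 : x l / (g : ℤ) = c l := congrFun (mem_filter.1 hx).2 l
    have h2 := Int.emod_nonneg (x l) hg'.ne'
    have h3 := Int.emod_lt_of_pos (x l) hg'
    have h4 := Int.emod_def (x l) g
    rw [h1] at h4
    show 0 ≤ x l - g * c l ∧ x l - g * c l < g
    rw [← h4]
    exact ⟨h2, h3⟩
  · funext l
    have : x l - g * c l = x' l - g * c l := congrFun h l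
    omega
  · obtain ⟨x, hx, rfl⟩ := mem_image.1 hy
    exact ⟨x, (mem_filter.1 hx).1, fun l => congrFun (mem_filter.1 hx).2 l, fun l => by ring⟩

/-- The directions of tuple number `b`. -/
def apW (D r : ℕ) (b : Fin (D / r)) (i : Fin r) : Fin D := ⟨b.val * r + i.val, ap_idx b.isLt i⟩

lemma ap_rich_all {r m K : ℕ} (e : P ≃ Fin r) (he : ∀ p q, p < q → e p < e q) (h0 : 0 < r)
    (hm : r ≤ m) {S : Finset (Fin (m + 1) → ℤ)} (hF : StrictFree P S)
    (R : Finset (Fin (m + 1) → ℤ))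
    (hR : ∀ c ∈ R, c ∈ box (m + 1) K ∧ ∃ b, apRich e S (apW (m + 1) r b) c) :
    (R.card : ℝ) ≤ ((m : ℝ) + 1) ^ 2 * (K : ℝ) ^ m := by
  classical
  have h1 : R ⊆ univ.biUnion fun b => R.filter fun c => apRich e S (apW (m + 1) r b) c := by
    intro c hc
    obtain ⟨-, b, hb⟩ := hR c hc
    exact mem_biUnion.2 ⟨b, mem_univ _, mem_filter.2 ⟨hc, hb⟩⟩
  have h2 : R.card ≤ (m + 1) / r * (r * ((m + 1) * K ^ m)) := by
    refine (card_le_card h1).trans (card_biUnion_le.trans ?_)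
    refine (sum_le_sum fun b _ => ap_rich (K := K) e he h0 hm hF (apW (m + 1) r b) _ fun c hc =>
      ⟨(hR c (mem_filter.1 hc).1).1, (mem_filter.1 hc).2⟩).trans ?_
    simp
  have h3 : (m + 1) / r * (r * ((m + 1) * K ^ m)) ≤ (m + 1) * ((m + 1) * K ^ m) := by
    rw [← mul_assoc]
    exact Nat.mul_le_mul_right _ (Nat.div_mul_le_self _ _)
  have h4 := (Nat.cast_le (α := ℝ)).2 (h2.trans h3)
  push_cast at h4
  calc (R.card : ℝ) ≤ _ := h4
    _ = _ := by ring

lemma ap_poor {r D : ℕ} (e : P ≃ Fin r) (h0 : 0 < r) (S : Finset (Fin D → ℤ)) (c : Fin D → ℤ)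
    (hc : ¬ ∃ b, apRich e S (apW D r b) c) :
    ((S.filter fun x => (fun l => x l / ((2 * r : ℕ) : ℤ)) = c).card : ℝ) ≤
      (1 - 1 / (2 * r : ℝ) ^ r) ^ (D / r) * (2 * r : ℝ) ^ D := by
  have hq : 0 < 2 * r := by omega
  obtain ⟨S', hS', hcard, hmem⟩ := ap_cell hq S c
  rw [← hcard]
  have hj : ∀ b : ℕ, ∃ j : Fin r, ∀ hb : b < D / r, ¬ ∃ x ∈ S,
      (∀ l, x l / ((2 * r : ℕ) : ℤ) = c l) ∧ ∀ i, x (apW D r ⟨b, hb⟩ i) =
        ((2 * r : ℕ) : ℤ) * c (apW D r ⟨b, hb⟩ i) + apSt e j i := by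
    intro b
    by_cases hb : b < D / r
    · have : ¬ apRich e S (apW D r ⟨b, hb⟩) c := fun h => hc ⟨_, h⟩
      obtain ⟨j, hj⟩ := not_forall.1 this
      exact ⟨j, fun _ => hj⟩
    · exact ⟨⟨0, h0⟩, fun h => absurd h hb⟩
  choose j hj using hj
  have h1 := avoid_count h0 hq (fun b => apSt e (j b)) (fun b i => apSt_mem e _ i) S' hS'
    fun y hy b hb => by
      obtain ⟨x, hx, h1, h2⟩ := hmem y hy
      by_contra hn
      refine hj b hb ⟨x, hx, h1, fun i => ?_⟩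
      rw [h2]
      congr 1
      by_contra hne
      exact hn ⟨i, apW D r ⟨b, hb⟩ i, rfl, hne⟩
  rw [Nat.cast_mul, Nat.cast_ofNat] at h1
  exact h1

lemma ap_any {g D : ℕ} (hg : 0 < g) (S : Finset (Fin D → ℤ)) (c : Fin D → ℤ) :
    ((S.filter fun x => (fun l => x l / (g : ℤ)) = c).card : ℝ) ≤ (g : ℝ) ^ D := by
  obtain ⟨S', hS', hcard, -⟩ := ap_cell hg S c
  rw [← hcard]
  have h1 := card_le_card hS'
  rw [card_box] at h1
  exact_mod_cast h1

lemma ap_sum {g D : ℕ} (S : Finset (Fin D → ℤ)) : S.card = ∑ c ∈ ctr g S,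
    (S.filter fun x => (fun l => x l / (g : ℤ)) = c).card :=
  card_eq_sum_card_image (fun (x : Fin D → ℤ) l => x l / (g : ℤ)) S

lemma ap_split {α : Type} (C : Finset α) (f : α → ℕ) (p : α → Prop) {Q θ X : ℝ} (hQ : 0 ≤ Q)
    (hθ : 0 ≤ θ) (h1 : ∀ c, (f c : ℝ) ≤ Q) (h2 : ∀ c, ¬ p c → (f c : ℝ) ≤ θ * Q)
    (h3 : ∀ R : Finset α, (∀ c ∈ R, c ∈ C ∧ p c) → (R.card : ℝ) ≤ X) :
    ((∑ c ∈ C, f c : ℕ) : ℝ) ≤ Q * (X + θ * C.card) := by
  classical
  rw [Nat.cast_sum, ← sum_filter_add_sum_filter_not C p, mul_add]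
  refine add_le_add ?_ ?_
  · refine (sum_le_sum fun c _ => h1 c).trans ?_
    rw [sum_const, nsmul_eq_mul, mul_comm]
    exact mul_le_mul_of_nonneg_left (h3 _ fun c hc => mem_filter.1 hc) hQ
  · refine (sum_le_sum fun c hc => h2 c (mem_filter.1 hc).2).trans ?_
    rw [sum_const, nsmul_eq_mul]
    have h4 : ((C.filter fun c => ¬ p c).card : ℝ) ≤ C.card := by
      exact_mod_cast card_filter_le _ _
    calc _ ≤ (C.card : ℝ) * (θ * Q) := mul_le_mul_of_nonneg_right h4 (mul_nonneg hθ hQ)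
      _ = _ := by ring

/-- Paper, AP: one contraction by `2 r`. -/
theorem ap_step [Fintype P] {r m K : ℕ} (hr : Fintype.card P = r) (h0 : 0 < r) (hm : r ≤ m)
    {S : Finset (Fin (m + 1) → ℤ)} (hF : StrictFree P S) (hK : ctr (2 * r) S ⊆ box (m + 1) K) :
    (S.card : ℝ) ≤ (2 * r : ℝ) ^ (m + 1) * (((m : ℝ) + 1) ^ 2 * (K : ℝ) ^ m +
      (1 - 1 / (2 * r : ℝ) ^ r) ^ ((m + 1) / r) * ((ctr (2 * r) S).card : ℝ)) := by
  obtain ⟨e, he⟩ := ap_enum hr
  have hq : 0 < 2 * r := by omega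
  have hr1 : (1 : ℝ) ≤ r := by exact_mod_cast h0
  have hθ0 : 0 ≤ (1 - 1 / (2 * r : ℝ) ^ r) ^ ((m + 1) / r) := by
    apply pow_nonneg
    have : (1 : ℝ) ≤ (2 * r : ℝ) ^ r := one_le_pow₀ (by linarith)
    rw [sub_nonneg, div_le_one (by linarith)]
    exact this
  have hQ : (0 : ℝ) ≤ (2 * r : ℝ) ^ (m + 1) := by positivity
  rw [ap_sum (g := 2 * r) S]
  refine ap_split _ _ (fun c => ∃ b, apRich e S (apW (m + 1) r b) c) hQ hθ0 (fun c => ?_)
    (fun c hc => ap_poor e h0 S c hc) fun R hR =>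
      ap_rich_all e he h0 hm hF R fun c hc => ⟨hK (hR c hc).1, (hR c hc).2⟩
  have h1 := ap_any hq S c
  rw [Nat.cast_mul (α := ℝ), Nat.cast_ofNat] at h1
  exact h1

end Pool.Agent.Work.MP_84019e_co.Sg
end

-- merged part: Pool.Agent.Work.MP_84019e_co.Sg.Ap
section
set_option autoImplicit false

namespace Pool.Agent.Work.MP_84019e_co.Sg

open Finset Pool.Agent.Work.MP_84019e_co.Cube Pool.Agent.Work.MP_84019e_co.Str
open Filter Topology

lemma ap_pow {a b : ℝ} {m : ℕ} (ha : 0 < a) (hb : 0 ≤ b) (h : 2 * (m * b) ≤ a) :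
    (a + b) ^ m ≤ 2 * a ^ m := by
  have hx : 0 ≤ b / a := div_nonneg hb ha.le
  have h1 : (m : ℝ) * (b / a) ≤ 1 / 2 := by
    rw [← mul_div_assoc, div_le_iff₀ ha]
    linarith
  have h2 : (1 + b / a) ^ m ≤ 2 := by
    calc (1 + b / a) ^ m ≤ Real.exp (b / a) ^ m := by
          apply pow_le_pow_left₀ (by linarith)
          have := Real.add_one_le_exp (b / a)
          linarith
      _ = Real.exp (m * (b / a)) := (Real.exp_nat_mul _ _).symm
      _ ≤ Real.exp (1 / 2) := Real.exp_le_exp.2 h1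
      _ ≤ 1 / (1 - 1 / 2) := Real.exp_bound_div_one_sub_of_interval (by norm_num) (by norm_num)
      _ = 2 := by norm_num
  have h3 : a + b = (1 + b / a) * a := by field_simp
  rw [h3, mul_pow]
  exact mul_le_mul_of_nonneg_right h2 (by positivity)

lemma ap_pow3 (D : ℕ) (hD : 0 < D) : ((D : ℝ) + 1) ^ D ≤ 3 * (D : ℝ) ^ D := by
  have hD' : (0 : ℝ) < D := by exact_mod_cast hD
  have h2 : (1 + 1 / (D : ℝ)) ^ D ≤ 3 := by
    calc (1 + 1 / (D : ℝ)) ^ D ≤ Real.exp (1 / D) ^ D := by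
          apply pow_le_pow_left₀ (by positivity)
          have := Real.add_one_le_exp (1 / (D : ℝ))
          linarith
      _ = Real.exp (D * (1 / D)) := (Real.exp_nat_mul _ _).symm
      _ = Real.exp 1 := by
          congr 1
          field_simp
      _ ≤ 3 := by
          have := Real.exp_one_lt_d9
          linarith
  have h3 : (D : ℝ) + 1 = (1 + 1 / (D : ℝ)) * D := by field_simp
  rw [h3, mul_pow]
  exact mul_le_mul_of_nonneg_right h2 (by positivity)

lemma ctr_box {D K g : ℕ} (hg : 0 < g) {S : Finset (Fin D → ℤ)} (hS : S ⊆ box D K) :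
    ctr g S ⊆ box D ((K / g + 1 : ℕ) : ℤ) := by
  intro c hc
  obtain ⟨x, hx, rfl⟩ := mem_image.1 hc
  have hg' : (0 : ℤ) < g := by exact_mod_cast hg
  refine mem_box.2 fun l => ?_
  have hb := mem_box.1 (hS hx) l
  have h1 := Int.ediv_nonneg hb.1 hg'.le
  have h2 := Int.ediv_le_ediv hg' hb.2.le
  refine ⟨h1, ?_⟩
  show x l / (g : ℤ) < _
  push_cast
  omega

lemma ap_mul_div (K g : ℕ) : (g : ℝ) * ((K / g + 1 : ℕ) : ℝ) ≤ K + g := by
  have h1 : g * (K / g + 1) ≤ K + g := by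
    have := Nat.mul_div_le K g
    rw [mul_add, mul_one]
    omega
  exact_mod_cast h1

lemma ap_theta {r : ℕ} (h0 : 0 < r) : ∀ᶠ m : ℕ in atTop,
    (1 - 1 / (2 * r : ℝ) ^ r) ^ ((m + 1) / r) ≤ 1 / (8 * r) := by
  have hr1 : (1 : ℝ) ≤ r := by exact_mod_cast h0
  have h1 : (1 : ℝ) ≤ (2 * r : ℝ) ^ r := one_le_pow₀ (by linarith)
  have h2 : 0 ≤ 1 - 1 / (2 * r : ℝ) ^ r := by
    rw [sub_nonneg, div_le_one (by linarith)]
    exact h1
  have h3 : 1 - 1 / (2 * r : ℝ) ^ r < 1 := by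
    have : 0 < 1 / (2 * r : ℝ) ^ r := by positivity
    linarith
  have h4 := (tendsto_pow_atTop_nhds_zero_of_lt_one h2 h3).eventually
    (ge_mem_nhds (show (0 : ℝ) < 1 / (8 * r) by positivity))
  obtain ⟨N, hN⟩ := eventually_atTop.1 h4
  filter_upwards [eventually_ge_atTop (N * r)] with m hm
  exact hN _ ((Nat.le_div_iff_mul_le h0).2 (by omega))

variable (P : Type) [PartialOrder P] [Fintype P] [Nonempty P]

/-- Paper, AP. -/
theorem ap_strict : ∀ᶠ m : ℕ in atTop, ∀ (K : ℕ) (S : Finset (Fin (m + 1) → ℤ)),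
    S ⊆ box (m + 1) K → StrictFree P S →
      (S.card : ℝ) ≤ 8 * Fintype.card P * ((m : ℝ) + 1) ^ 2 * (K : ℝ) ^ m := by
  have h0 : 0 < Fintype.card P := Fintype.card_pos
  obtain ⟨r, hr⟩ : ∃ r, Fintype.card P = r := ⟨_, rfl⟩
  rw [hr] at h0 ⊢
  filter_upwards [ap_theta h0, eventually_ge_atTop r] with m hθ hm
  have hr1 : (1 : ℝ) ≤ r := by exact_mod_cast h0
  have hm0 : (0 : ℝ) ≤ m := Nat.cast_nonneg m
  intro K
  induction K using Nat.strong_induction_on with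
  | _ K ih =>
  intro S hS hF
  by_cases hK : (K : ℝ) ≤ 8 * r * ((m : ℝ) + 1) ^ 2
  · have h1 := card_le_card hS
    rw [card_box] at h1
    have h2 : (S.card : ℝ) ≤ (K : ℝ) ^ (m + 1) := by exact_mod_cast h1
    rw [pow_succ, mul_comm] at h2
    exact h2.trans (mul_le_mul_of_nonneg_right hK (by positivity))
  · rw [not_le] at hK
    have hq : 0 < 2 * r := by omega
    have hA : (8 : ℝ) * r * (m + 1) ≤ 8 * r * ((m : ℝ) + 1) ^ 2 := by
      have : (m : ℝ) + 1 ≤ ((m : ℝ) + 1) ^ 2 := by nlinarith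
      exact mul_le_mul_of_nonneg_left this (by positivity)
    have hK8 : (8 : ℝ) < K := by nlinarith
    have hK8' : 8 < K := by exact_mod_cast hK8
    have hlt : K / (2 * r) + 1 < K := by
      have : K / (2 * r) ≤ K / 2 := Nat.div_le_div_left (by omega) (by norm_num)
      omega
    have hc := ctr_box hq hS
    have h1 := ih _ hlt _ hc (hF.div hq)
    have h2 := ap_step hr h0 hm hF hc
    have h3 := ap_mul_div K (2 * r)
    rw [Nat.cast_mul, Nat.cast_ofNat] at h3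
    have hK0 : (0 : ℝ) ≤ ((K / (2 * r) + 1 : ℕ) : ℝ) := Nat.cast_nonneg _
    have hc0 : (0 : ℝ) ≤ (ctr (2 * r) S).card := Nat.cast_nonneg _
    generalize ((K / (2 * r) + 1 : ℕ) : ℝ) = K' at h1 h2 h3 hK0
    generalize ((ctr (2 * r) S).card : ℝ) = c at h1 h2 hc0
    generalize (1 - 1 / (2 * r : ℝ) ^ r) ^ ((m + 1) / r) = θ at h2 hθ
    have h4 : (2 * r * K') ^ m ≤ 2 * (K : ℝ) ^ m :=
      (pow_le_pow_left₀ (by positivity) h3 m).trans
        (ap_pow (by linarith) (by positivity) (by nlinarith))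
    have h5 : θ * c ≤ ((m : ℝ) + 1) ^ 2 * K' ^ m := by
      calc θ * c ≤ 1 / (8 * r) * c := mul_le_mul_of_nonneg_right hθ hc0
        _ ≤ 1 / (8 * r) * (8 * r * ((m : ℝ) + 1) ^ 2 * K' ^ m) :=
            mul_le_mul_of_nonneg_left h1 (by positivity)
        _ = _ := by field_simp
    calc (S.card : ℝ) ≤ _ := h2
      _ ≤ (2 * r : ℝ) ^ (m + 1) * (((m : ℝ) + 1) ^ 2 * K' ^ m + ((m : ℝ) + 1) ^ 2 * K' ^ m) :=
          mul_le_mul_of_nonneg_left (add_le_add le_rfl h5) (by positivity)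
      _ = 4 * r * ((m : ℝ) + 1) ^ 2 * (2 * r * K') ^ m := by
          rw [mul_pow (2 * (r : ℝ)) K', pow_succ]
          ring
      _ ≤ 4 * r * ((m : ℝ) + 1) ^ 2 * (2 * (K : ℝ) ^ m) :=
          mul_le_mul_of_nonneg_left h4 (by positivity)
      _ = _ := by ring

lemma nbr_le {D k g : ℕ} (hg : 0 < g) (F : Finset (Fin D → ℤ)) :
    (nbr k F).card ≤ (ctr g F).card * (g + 1) ^ D := by
  classical
  have hg' : (0 : ℤ) < g := by exact_mod_cast hg
  have h1 : nbr k F ⊆ (ctr g F).biUnion fun c =>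
      Fintype.piFinset fun l => Ico ((g : ℤ) * c l - 1) (g * c l + g) := by
    intro x hx
    unfold nbr at hx
    obtain ⟨-, y, hy, hxy⟩ := mem_filter.1 hx
    refine mem_biUnion.2 ⟨_, mem_image_of_mem _ hy, Fintype.mem_piFinset.2 fun l => ?_⟩
    have h2 := Int.emod_nonneg (y l) hg'.ne'
    have h3 := Int.emod_lt_of_pos (y l) hg'
    have h4 := Int.emod_def (y l) g
    have h5 := hxy l
    rw [mem_Ico]
    constructor <;> linarith [h5.1, h5.2]
  refine (card_le_card h1).trans (card_biUnion_le.trans ?_)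
  refine (sum_le_card_nsmul _ _ ((g + 1) ^ D) fun c _ => ?_).trans (by simp)
  rw [Fintype.card_piFinset]
  have h6 : ∀ l, (Ico ((g : ℤ) * c l - 1) (g * c l + g)).card = g + 1 := fun l => by
    rw [Int.card_Ico]
    have : (g : ℤ) * c l + g - (g * c l - 1) = ((g + 1 : ℕ) : ℤ) := by
      push_cast
      ring
    rw [this, Int.toNat_natCast]
  simp [h6]

/-- Paper, AP, corners of unit cubes that meet the family. -/
theorem ap_near : ∀ᶠ m : ℕ in atTop, ∀ᶠ k : ℕ in atTop, ∀ F : Finset (Fin (m + 1) → ℤ),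
    F ⊆ box (m + 1) k → StrongFree P F →
      ((nbr k F).card : ℝ) ≤ 48 * Fintype.card P * ((m : ℝ) + 1) ^ 3 * (k : ℝ) ^ m := by
  filter_upwards [ap_strict P] with m hm
  filter_upwards [eventually_ge_atTop (2 * (m * (m + 1)) + 1)] with k hk F hF hP
  have hD : 0 < m + 1 := Nat.succ_pos m
  have h1 := hm _ _ (ctr_box hD hF) ((strict_of_strong hP).div hD)
  have h2 : ((nbr k F).card : ℝ) ≤ (ctr (m + 1) F).card * (((m + 1 : ℕ) : ℝ) + 1) ^ (m + 1) := by
    exact_mod_cast nbr_le (k := k) hD F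
  have h3 := ap_pow3 (m + 1) hD
  have h4 := ap_mul_div k (m + 1)
  have hK0 : (0 : ℝ) ≤ ((k / (m + 1) + 1 : ℕ) : ℝ) := Nat.cast_nonneg _
  have hc0 : (0 : ℝ) ≤ (ctr (m + 1) F).card := Nat.cast_nonneg _
  generalize ((k / (m + 1) + 1 : ℕ) : ℝ) = K' at h1 h4 hK0
  generalize ((ctr (m + 1) F).card : ℝ) = c at h1 h2 hc0
  have hk' : (2 * (m * (m + 1)) + 1 : ℝ) ≤ k := by exact_mod_cast hk
  have hm0 : (0 : ℝ) ≤ m := Nat.cast_nonneg m
  rw [Nat.cast_add, Nat.cast_one] at h2 h3 h4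
  have h5 : (((m : ℝ) + 1) * K') ^ m ≤ 2 * (k : ℝ) ^ m :=
    (pow_le_pow_left₀ (by positivity) h4 m).trans
      (ap_pow (by nlinarith) (by positivity) (by linarith))
  calc ((nbr k F).card : ℝ) ≤ _ := h2
    _ ≤ (8 * Fintype.card P * ((m : ℝ) + 1) ^ 2 * K' ^ m) * (3 * ((m : ℝ) + 1) ^ (m + 1)) :=
        mul_le_mul h1 h3 (by positivity) (by positivity)
    _ = 24 * Fintype.card P * ((m : ℝ) + 1) ^ 3 * (((m : ℝ) + 1) * K') ^ m := by
        rw [mul_pow ((m : ℝ) + 1) K', pow_succ ((m : ℝ) + 1) m]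
        ring
    _ ≤ 24 * Fintype.card P * ((m : ℝ) + 1) ^ 3 * (2 * (k : ℝ) ^ m) :=
        mul_le_mul_of_nonneg_left h5 (by positivity)
    _ = _ := by ring

end Pool.Agent.Work.MP_84019e_co.Sg
end

-- merged part: Pool.Agent.Work.MP_84019e_co.Sg.Hoef
section
set_option autoImplicit false

namespace Pool.Agent.Work.MP_84019e_co.Sg

open Finset Pool.Agent.Work.MP_84019e_co.Cube Pool.Agent.Work.MP_84019e_co.Str
open Filter Topology

/-- Exponential moment bound on the box. -/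
lemma exp_tail {D k : ℕ} (g : ℤ → ℝ) (h0 : ∑ u ∈ Ico (0 : ℤ) k, g u = 0)
    (hB : ∀ u ∈ Ico (0 : ℤ) k, |g u| ≤ 1 / 4) {δ : ℝ} (hδ : 0 < δ) (hδ1 : δ ≤ 1) :
    (((box D k).filter fun x => δ * D / 4 ≤ ∑ i, g (x i)).card : ℝ) ≤
      Real.exp (-(δ ^ 2 * D / 8)) * (k : ℝ) ^ D := by
  have h1 : ∑ u ∈ Ico (0 : ℤ) k, Real.exp (δ * g u) ≤ k * Real.exp (δ ^ 2 / 16) := by
    have a : ∀ u ∈ Ico (0 : ℤ) k, Real.exp (δ * g u) ≤ Real.exp (δ ^ 2 / 16) + δ * g u := by
      intro u hu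
      have b := hB u hu
      have b1 : |δ * g u| ≤ δ / 4 := by
        rw [abs_mul, abs_of_pos hδ]
        have := mul_le_mul_of_nonneg_left b hδ.le
        linarith only [this]
      have b2 := (abs_le.1 (Real.abs_exp_sub_one_sub_id_le (x := δ * g u)
        (by linarith only [b1, hδ1]))).2
      have b3 : (δ * g u) ^ 2 ≤ (δ / 4) ^ 2 := by
        rw [← sq_abs]
        exact pow_le_pow_left₀ (abs_nonneg _) b1 2
      have b4 := Real.add_one_le_exp (δ ^ 2 / 16)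
      linarith only [b2, b3, b4]
    refine (sum_le_sum a).trans (le_of_eq ?_)
    rw [sum_add_distrib, ← mul_sum, h0, sum_const, Int.card_Ico]
    simp
  have h2 : ∑ x ∈ box D k, Real.exp (δ * ∑ i, g (x i)) ≤ (k * Real.exp (δ ^ 2 / 16)) ^ D := by
    have e := prod_univ_sum (fun _ : Fin D => Ico (0 : ℤ) k) (fun _ u => Real.exp (δ * g u))
    simp only [mul_sum, Real.exp_sum]
    rw [box, ← e, prod_const, card_univ, Fintype.card_fin]
    exact pow_le_pow_left₀ (sum_nonneg fun u _ => (Real.exp_pos _).le) h1 D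
  have h3 : (((box D k).filter fun x => δ * D / 4 ≤ ∑ i, g (x i)).card : ℝ) *
      Real.exp (δ * (δ * D / 4)) ≤ (k * Real.exp (δ ^ 2 / 16)) ^ D := by
    refine le_trans ?_ h2
    rw [← nsmul_eq_mul, ← sum_const]
    refine (sum_le_sum fun x hx => ?_).trans
      (sum_le_sum_of_subset_of_nonneg (filter_subset _ _) fun x _ _ => (Real.exp_pos _).le)
    exact Real.exp_le_exp.2 (mul_le_mul_of_nonneg_left (mem_filter.1 hx).2 hδ.le)
  rw [← le_div_iff₀ (Real.exp_pos _), mul_pow, ← Real.exp_nat_mul,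
    mul_div_assoc ((k : ℝ) ^ D), ← Real.exp_sub, mul_comm ((k : ℝ) ^ D)] at h3
  refine h3.trans (mul_le_mul_of_nonneg_right (Real.exp_le_exp.2 ?_) (by positivity))
  have h4 : (0 : ℝ) ≤ δ ^ 2 * D := by positivity
  linarith only [h4]

open Classical in
/-- Paper, AT: atypical points are exponentially rare. -/
theorem atyp_exp {D k : ℕ} {δ : ℝ} (hδ : 0 < δ) (hδ1 : δ ≤ 1) (hk : 2 ≤ δ * (k : ℝ) ^ 2) :
    (((box D k).filter (Atyp k (δ / 2))).card : ℝ) ≤
      2 * Real.exp (-(δ ^ 2 * D / 8)) * (k : ℝ) ^ D := by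
  have hk2 : (2 : ℝ) ≤ (k : ℝ) ^ 2 :=
    hk.trans (mul_le_of_le_one_left (sq_nonneg _) hδ1)
  have hk0 : (0 : ℝ) < (k : ℝ) ^ 2 := by linarith only [hk2]
  set g : ℤ → ℝ := fun u => (lam k (u + 1) - ((k : ℝ) ^ 2 - 1) / 6) / (k : ℝ) ^ 2 with hg
  have h0 : ∑ u ∈ Ico (0 : ℤ) k, g u = 0 := by
    simp only [hg]
    rw [← sum_div, sum_lam, zero_div]
  have hB : ∀ u ∈ Ico (0 : ℤ) k, |g u| ≤ 1 / 4 := fun u hu => by
    have a1 := lam_le k (u + 1)
    have a2 := lam_nonneg (mem_Ico.1 hu).1 (mem_Ico.1 hu).2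
    simp only [hg]
    rw [abs_div, abs_of_pos hk0, div_le_iff₀ hk0, abs_le]
    constructor <;> linarith only [a1, a2, hk2]
  have t1 := exp_tail (D := D) g h0 hB hδ hδ1
  have t2 := exp_tail (D := D) (fun u => -g u) (by rw [sum_neg_distrib, h0, neg_zero])
    (fun u hu => by rw [abs_neg]; exact hB u hu) hδ hδ1
  have hs : ((box D k).filter (Atyp k (δ / 2))) ⊆
      ((box D k).filter fun x => δ * D / 4 ≤ ∑ i, g (x i)) ∪
        ((box D k).filter fun x => δ * D / 4 ≤ ∑ i, -g (x i)) := fun x hx => by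
    obtain ⟨hx1, hx2⟩ := mem_filter.1 hx
    have e : (∑ i, g (x i)) * (k : ℝ) ^ 2 = Lam k x - D * (((k : ℝ) ^ 2 - 1) / 6) := by
      simp only [hg, Lam]
      rw [← sum_div, div_mul_cancel₀ _ hk0.ne', sum_sub_distrib, sum_const, card_univ,
        Fintype.card_fin, nsmul_eq_mul]
    have hD : (0 : ℝ) ≤ D := Nat.cast_nonneg D
    have f : (D : ℝ) * 2 ≤ D * (δ * (k : ℝ) ^ 2) := mul_le_mul_of_nonneg_left hk hD
    rw [mem_union, mem_filter, mem_filter, sum_neg_distrib]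
    rcases le_abs.1 hx2 with c | c
    · refine Or.inl ⟨hx1, le_of_mul_le_mul_right ?_ hk0⟩
      rw [e]
      linarith only [c, f, hD]
    · refine Or.inr ⟨hx1, le_of_mul_le_mul_right ?_ hk0⟩
      rw [neg_mul, e]
      linarith only [c, f, hD]
  have h5 := (card_le_card hs).trans (card_union_le _ _)
  have h6 := (Nat.cast_le (α := ℝ)).2 h5
  rw [Nat.cast_add] at h6
  linarith only [h6, t1, t2]

end Pool.Agent.Work.MP_84019e_co.Sg
end

-- merged part: Pool.Agent.Work.MP_84019e_co.Sg.ApAtyp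
section
set_option autoImplicit false

namespace Pool.Agent.Work.MP_84019e_co.Sg

open Finset Pool.Agent.Work.MP_84019e_co.Cube Pool.Agent.Work.MP_84019e_co.Str
open Filter Topology

variable (P : Type) [PartialOrder P] [Fintype P] [Nonempty P]

lemma apat_lam {k g : ℕ} {u v : ℤ} (hu0 : 0 ≤ u) (hu1 : u < k) (hv0 : 0 ≤ v) (hv1 : v < k)
    (h1 : u - v ≤ g) (h2 : v - u ≤ g) : |lam k (u + 1) - lam k (v + 1)| ≤ (g : ℝ) * k := by
  have e : lam k (u + 1) - lam k (v + 1) = ((u : ℝ) - v) * ((k : ℝ) - u - v - 2) := by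
    simp only [lam]
    push_cast
    ring
  have a1 : (0 : ℝ) ≤ u := by exact_mod_cast hu0
  have a2 : (u : ℝ) + 1 ≤ k := by exact_mod_cast hu1
  have a3 : (0 : ℝ) ≤ v := by exact_mod_cast hv0
  have a4 : (v : ℝ) + 1 ≤ k := by exact_mod_cast hv1
  have a5 : (u : ℝ) - v ≤ g := by exact_mod_cast h1
  have a6 : (v : ℝ) - u ≤ g := by exact_mod_cast h2
  rw [e, abs_mul]
  exact mul_le_mul (abs_le.2 ⟨by linarith, a5⟩) (abs_le.2 ⟨by linarith, by linarith⟩)
    (abs_nonneg _) (Nat.cast_nonneg g)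

lemma apat_move {D k g : ℕ} {δ : ℝ} (hk : k = D * g) (hD : 2 ≤ δ * (D : ℝ))
    {x y : Fin D → ℤ} (hx : x ∈ box D k) (hy : y ∈ box D k)
    (h : ∀ l, x l - y l ≤ g ∧ y l - x l ≤ g) (ha : Atyp k δ x) : Atyp k (δ / 2) y := by
  have h1 : |Lam k x - Lam k y| ≤ (k : ℝ) ^ 2 := by
    rw [Lam, Lam, ← sum_sub_distrib]
    refine (abs_sum_le_sum_abs _ _).trans ?_
    refine (sum_le_sum fun l _ => apat_lam (mem_box.1 hx l).1 (mem_box.1 hx l).2
      (mem_box.1 hy l).1 (mem_box.1 hy l).2 (h l).1 (h l).2).trans ?_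
    have hk' : (k : ℝ) = D * g := by exact_mod_cast hk
    rw [sum_const, card_univ, Fintype.card_fin, nsmul_eq_mul, ← mul_assoc, ← hk', sq]
  unfold Atyp at ha ⊢
  have h2 : |Lam k x - D * k ^ 2 / 6| ≤ |Lam k x - Lam k y| + |Lam k y - D * k ^ 2 / 6| :=
    abs_sub_le _ _ _
  have h3 : 2 * (k : ℝ) ^ 2 ≤ δ * D * (k : ℝ) ^ 2 :=
    mul_le_mul_of_nonneg_right hD (sq_nonneg _)
  linarith

open Classical in
lemma apat_cells {D k g : ℕ} {δ : ℝ} (hg : 0 < g) (hk : k = D * g) (hD : 2 ≤ δ * (D : ℝ))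
    {S : Finset (Fin D → ℤ)} (hS : S ⊆ box D k) (ha : ∀ x ∈ S, Atyp k δ x) :
    (ctr g S).card * g ^ D ≤ ((box D k).filter (Atyp k (δ / 2))).card := by
  have hg' : (0 : ℤ) < g := by exact_mod_cast hg
  have hk' : (k : ℤ) = D * g := by exact_mod_cast hk
  set T := (box D k).filter (Atyp k (δ / 2)) with hT
  have h1 : (T.filter fun x => (fun l => x l / (g : ℤ)) ∈ ctr g S).card = ∑ c ∈ ctr g S,
      ((T.filter fun x => (fun l => x l / (g : ℤ)) ∈ ctr g S).filter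
        fun x => (fun l => x l / (g : ℤ)) = c).card :=
    card_eq_sum_card_fiberwise fun x hx => (mem_filter.1 hx).2
  refine le_trans ?_ (card_filter_le T fun x => (fun l => x l / (g : ℤ)) ∈ ctr g S)
  rw [h1, ← smul_eq_mul, ← sum_const]
  refine sum_le_sum fun c hc => ?_
  rw [← card_cell g c]
  refine card_le_card fun y hy => ?_
  obtain ⟨x, hx, hxc⟩ := mem_image.1 hc
  have hy' : ∀ l, (g : ℤ) * c l ≤ y l ∧ y l < g * c l + g := mem_cellY.1 hy
  have hxl : ∀ l, (g : ℤ) * c l ≤ x l ∧ x l < g * c l + g := fun l => by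
    have e1 : x l / (g : ℤ) = c l := congrFun hxc l
    have h2 := Int.emod_nonneg (x l) hg'.ne'
    have h3 := Int.emod_lt_of_pos (x l) hg'
    have h4 := Int.emod_def (x l) g
    rw [e1] at h4
    constructor <;> linarith
  have hyc : (fun l => y l / (g : ℤ)) = c := by
    funext l
    apply le_antisymm
    · have : y l / (g : ℤ) < c l + 1 := by
        rw [Int.ediv_lt_iff_lt_mul hg']
        linarith [(hy' l).2]
      omega
    · rw [Int.le_ediv_iff_mul_le hg']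
      linarith [(hy' l).1]
  have hyb : y ∈ box D k := mem_box.2 fun l => by
    have e1 : x l / (g : ℤ) = c l := congrFun hxc l
    have b := mem_box.1 (hS hx) l
    have c0 : 0 ≤ c l := by
      rw [← e1]
      exact Int.ediv_nonneg b.1 hg'.le
    have c1 : c l < D := by
      rw [← e1, Int.ediv_lt_iff_lt_mul hg', ← hk']
      exact b.2
    have c2 : (g : ℤ) * (c l + 1) ≤ g * D := mul_le_mul_of_nonneg_left c1 hg'.le
    have c3 : 0 ≤ (g : ℤ) * c l := mul_nonneg hg'.le c0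
    constructor
    · linarith [(hy' l).1]
    · linarith [(hy' l).2]
  refine mem_filter.2 ⟨mem_filter.2 ⟨mem_filter.2 ⟨hyb, ?_⟩, ?_⟩, hyc⟩
  · refine apat_move hk hD (hS hx) hyb (fun l => ?_) (ha x hx)
    constructor <;> linarith [(hy' l).1, (hy' l).2, (hxl l).1, (hxl l).2]
  · rw [hyc]
    exact hc

lemma apat_fibre {P : Type} [PartialOrder P] {D g : ℕ} (hg : 0 < g) {S : Finset (Fin D → ℤ)}
    (hF : StrictFree P S) (c : Fin D → ℤ) :
    ∃ S' ⊆ box D g, S'.card = (S.filter fun x => (fun l => x l / (g : ℤ)) = c).card ∧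
      StrictFree P S' := by
  obtain ⟨S', h1, h2, h3⟩ := ap_cell hg S c
  refine ⟨S', h1, h2, (hF.shift fun l => (g : ℤ) * c l).mono fun y hy => ?_⟩
  obtain ⟨x, hx, -, hxy⟩ := h3 y hy
  refine mem_image.2 ⟨x, hx, ?_⟩
  funext l
  show x l - (g : ℤ) * c l = y l
  rw [hxy l]
  ring

/-- Paper, AT: few members of the family are atypical. -/
theorem ap_atyp : ∀ᶠ m : ℕ in atTop, ∀ (g k : ℕ) (δ : ℝ) (F : Finset (Fin (m + 1) → ℤ)),
    k = (m + 1) * g → 0 < δ → δ ≤ 1 → 2 ≤ δ * ((m : ℝ) + 1) → 2 ≤ δ * (k : ℝ) ^ 2 →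
    F ⊆ box (m + 1) k → StrongFree P F →
      (F.card : ℝ) ≤ (typ k δ F).card + 16 * Fintype.card P * ((m : ℝ) + 1) ^ 3 *
        Real.exp (-(δ ^ 2 * ((m : ℝ) + 1) / 8)) * (k : ℝ) ^ m := by
  classical
  filter_upwards [ap_strict P] with m hm g k δ F hk hδ hδ1 hD hk2 hF hP
  have hg : 0 < g := by
    rcases Nat.eq_zero_or_pos g with rfl | h
    · rw [hk] at hk2
      norm_num at hk2
    · exact h
  have hg' : (0 : ℝ) < g := by exact_mod_cast hg
  set S := F.filter (Atyp k δ) with hS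
  have hsub : S ⊆ F := filter_subset _ _
  have h0 : F.card = (typ k δ F).card + S.card := by
    rw [add_comm (typ k δ F).card]
    exact (card_filter_add_card_filter_not (s := F) (Atyp k δ)).symm
  have hD' : 2 ≤ δ * ((m + 1 : ℕ) : ℝ) := by
    push_cast
    exact hD
  have h1 := apat_cells hg hk hD' (hsub.trans hF) fun x hx => (mem_filter.1 hx).2
  have h2 := atyp_exp (D := m + 1) (k := k) hδ hδ1 hk2
  have h3 : ((ctr g S).card : ℝ) * (g : ℝ) ^ (m + 1) ≤
      2 * Real.exp (-(δ ^ 2 * ((m : ℝ) + 1) / 8)) * (k : ℝ) ^ (m + 1) := by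
    have h4 : (((ctr g S).card * g ^ (m + 1) : ℕ) : ℝ) ≤ _ := Nat.cast_le.2 h1
    have h5 := h4.trans h2
    push_cast at h5
    exact h5
  have hk' : (k : ℝ) = ((m : ℝ) + 1) * g := by
    rw [hk]
    push_cast
    ring
  have h4 : ((ctr g S).card : ℝ) * (g : ℝ) ^ m ≤
      2 * Real.exp (-(δ ^ 2 * ((m : ℝ) + 1) / 8)) * (((m : ℝ) + 1) * (k : ℝ) ^ m) := by
    refine le_of_mul_le_mul_right ?_ hg'
    calc ((ctr g S).card : ℝ) * (g : ℝ) ^ m * g = ((ctr g S).card : ℝ) * (g : ℝ) ^ (m + 1) := by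
          ring
      _ ≤ _ := h3
      _ = _ := by
          rw [pow_succ (k : ℝ) m]
          linear_combination (2 * Real.exp (-(δ ^ 2 * ((m : ℝ) + 1) / 8)) * (k : ℝ) ^ m) * hk'
  have hst : StrictFree P S := (strict_of_strong hP).mono hsub
  have h5 : (S.card : ℝ) ≤ ((ctr g S).card : ℝ) *
      (8 * Fintype.card P * ((m : ℝ) + 1) ^ 2 * (g : ℝ) ^ m) := by
    rw [ap_sum (g := g) S, Nat.cast_sum, ← nsmul_eq_mul, ← sum_const]
    refine sum_le_sum fun c _ => ?_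
    obtain ⟨S', a1, a2, a3⟩ := apat_fibre hg hst c
    rw [← a2]
    exact hm g S' a1 a3
  have h6 : (0 : ℝ) ≤ 8 * Fintype.card P * ((m : ℝ) + 1) ^ 2 := by positivity
  have h7 := mul_le_mul_of_nonneg_left h4 h6
  rw [h0, Nat.cast_add]
  linarith

end Pool.Agent.Work.MP_84019e_co.Sg
end

-- merged part: Pool.Agent.Work.MP_84019e_co.Sg.Gs
section
set_option autoImplicit false

namespace Pool.Agent.Work.MP_84019e_co.Sg

open Finset Pool.Agent.Work.MP_84019e_co.Cube Pool.Agent.Work.MP_84019e_co.Str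
open Filter Topology

variable {P : Type} [PartialOrder P]

lemma gs_bdd (d k : ℕ) :
    BddAbove {n | ∃ F : Finset (Fin d → ℤ), F ⊆ box d k ∧ StrongFree P F ∧ F.card = n} := by
  refine ⟨(box d k).card, ?_⟩
  rintro n ⟨F, hF, -, rfl⟩
  exact card_le_card hF

lemma le_GS {d k : ℕ} {F : Finset (Fin d → ℤ)} (hF : F ⊆ box d k) (hP : StrongFree P F) :
    F.card ≤ GS P d k := by
  exact le_csSup (gs_bdd d k) ⟨F, hF, hP, rfl⟩

lemma GS_spec [Nonempty P] (d k : ℕ) :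
    ∃ F : Finset (Fin d → ℤ), F ⊆ box d k ∧ StrongFree P F ∧ F.card = GS P d k := by
  refine Nat.sSup_mem
    (s := {n | ∃ F : Finset (Fin d → ℤ), F ⊆ box d k ∧ StrongFree P F ∧ F.card = n})
    ⟨0, ∅, by simp, ?_, rfl⟩ (gs_bdd d k)
  rintro ⟨f, -, hm, -⟩
  exact absurd (hm (Classical.arbitrary P)) (by simp)

lemma GS_mono [Nonempty P] (d : ℕ) {k k' : ℕ} (h : k ≤ k') : GS P d k ≤ GS P d k' := by
  refine csSup_le_csSup' (gs_bdd d k') ?_
  rintro n ⟨F, h1, h2, h3⟩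
  refine ⟨F, fun x hx => mem_box.2 fun i => ?_, h2, h3⟩
  have := mem_box.1 (h1 hx) i
  omega

lemma LaStar_eq_GS (d k : ℕ) : LaStar (Fin d → Fin k) P = GS P d k := by
  classical
  unfold LaStar GS
  congr 1
  ext n
  let e : (Fin d → Fin k) → (Fin d → ℤ) := fun x i => ((x i : ℕ) : ℤ)
  have he : Function.Injective e := by
    intro x y hxy
    funext i
    have := congrFun hxy i
    simp only [e, Nat.cast_inj] at this
    exact Fin.ext this
  have heo : ∀ x y, e x ≤ e y ↔ x ≤ y := by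
    intro x y
    simp only [e, Pi.le_def, Nat.cast_le]
    rfl
  constructor
  · rintro ⟨F, hF, rfl⟩
    refine ⟨F.image e, ?_, ?_, card_image_of_injective _ he⟩
    · intro x hx
      obtain ⟨y, -, rfl⟩ := mem_image.1 hx
      rw [mem_box]
      intro i
      exact ⟨by simp [e], by simp [e]⟩
    · rintro ⟨f, hf, hm, ho⟩
      choose g hg hge using fun p => mem_image.1 (hm p)
      refine hF ⟨g, fun p q hpq => hf (by rw [← hge p, ← hge q, hpq]), hg, fun p q => ?_⟩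
      rw [← heo, hge, hge]
      exact ho p q
  · rintro ⟨F, hB, hF, rfl⟩
    refine ⟨univ.filter fun x => e x ∈ F, ?_, ?_⟩
    · exact hF.of_map e (fun x hx => (mem_filter.1 hx).2) (fun x _ y _ => (heo x y).symm)
    · rw [← card_image_of_injective _ he]
      congr 1
      ext x
      simp only [mem_image, mem_filter, mem_univ, true_and]
      constructor
      · rintro ⟨y, hy, rfl⟩
        exact hy
      · intro hx
        have hb := mem_box.1 (hB hx)
        have hxe : e (fun i => ⟨(x i).toNat, by have := hb i; omega⟩) = x := by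
          funext i
          have := hb i
          simp only [e]
          omega
        exact ⟨_, by rw [hxe]; exact hx, hxe⟩

/-- The width changes little when the side is rounded up to a multiple of the dimension. -/
lemma width_round (m : ℕ) {ε : ℝ} (hε : 0 < ε) : ∀ᶠ k : ℕ in atTop,
    (G (Fin 2) (m + 1) ((m + 1) * (k / (m + 1) + 1)) : ℝ) ≤ (1 + ε) * G (Fin 2) (m + 1) k := by
  obtain ⟨L, hL⟩ := exists_lim (P := Fin 2) m
  have hL0 := lim_two_pos hL
  have h1 : Tendsto (fun k : ℕ => (G (Fin 2) (m + 1) (k + (m + 1)) : ℝ) /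
      ((k + (m + 1) : ℕ) : ℝ) ^ m) atTop (nhds L) := hL.comp (tendsto_add_atTop_nat (m + 1))
  have h2 : Tendsto (fun k : ℕ => (1 + ((m : ℝ) + 1) / k) ^ m) atTop (nhds ((1 + 0) ^ m)) :=
    ((tendsto_const_div_atTop_nhds_zero_nat ((m : ℝ) + 1)).const_add 1).pow m
  have h3 := h1.mul h2
  have h4 := hL.const_mul (1 + ε)
  have h5 : L * (1 + 0) ^ m < (1 + ε) * L := by
    rw [add_zero, one_pow]
    nlinarith only [mul_pos hε hL0]
  filter_upwards [h3.eventually_lt h4 h5, eventually_gt_atTop 0] with k hk hk0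
  have hk' : (0 : ℝ) < k := by exact_mod_cast hk0
  have h6 : (m + 1) * (k / (m + 1) + 1) ≤ k + (m + 1) := by
    have := Nat.mul_div_le k (m + 1)
    rw [mul_add, mul_one]
    omega
  have h7 : (G (Fin 2) (m + 1) ((m + 1) * (k / (m + 1) + 1)) : ℝ) ≤
      G (Fin 2) (m + 1) (k + (m + 1)) := by exact_mod_cast G_mono (P := Fin 2) (m + 1) h6
  have h8 : (1 + ((m : ℝ) + 1) / k) = ((k + (m + 1) : ℕ) : ℝ) / k := by
    push_cast
    field_simp
  have h9 : (0 : ℝ) < ((k + (m + 1) : ℕ) : ℝ) ^ m := by positivity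
  rw [h8, div_pow, div_mul_div_cancel₀ h9.ne', ← mul_div_assoc,
    div_lt_div_iff_of_pos_right (by positivity)] at hk
  exact h7.trans hk.le

end Pool.Agent.Work.MP_84019e_co.Sg
end

-- merged part: Pool.Agent.Work.MP_84019e_co.Sg.Param
section
set_option autoImplicit false

namespace Pool.Agent.Work.MP_84019e_co.Sg

open Finset Pool.Agent.Work.MP_84019e_co.Cube Pool.Agent.Work.MP_84019e_co.Str
open Filter Topology

lemma par_poly {θ : ℝ} (h0 : 0 ≤ θ) (h1 : θ < 1) (C : ℝ) (a : ℕ) {ε : ℝ} (hε : 0 < ε) :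
    ∀ᶠ t : ℕ in atTop, θ ^ t * (C * ((t : ℝ) + 1) ^ a) ≤ ε := by
  have h2 := (tendsto_pow_const_mul_const_pow_of_abs_lt_one a
    (show |θ| < 1 by rwa [abs_of_nonneg h0])).const_mul (|C| * 2 ^ a)
  rw [mul_zero] at h2
  filter_upwards [h2.eventually (gt_mem_nhds hε), eventually_ge_atTop 1] with t a1 a2
  have a3 : (1 : ℝ) ≤ t := by exact_mod_cast a2
  refine le_trans ?_ a1.le
  calc θ ^ t * (C * ((t : ℝ) + 1) ^ a) ≤ θ ^ t * (|C| * (2 * (t : ℝ)) ^ a) := by
        refine mul_le_mul_of_nonneg_left ?_ (pow_nonneg h0 t)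
        exact mul_le_mul (le_abs_self C) (pow_le_pow_left₀ (by positivity) (by linarith) a)
          (by positivity) (abs_nonneg C)
    _ = _ := by rw [mul_pow]; ring

lemma par_root (Q : ℕ) : ∀ᶠ m : ℕ in atTop, ∃ q, Q ≤ q ∧ 36 * q ^ 12 ≤ m + 1 ∧
    m + 1 ≤ 36 * (q + 1) ^ 12 := by
  filter_upwards [eventually_ge_atTop (36 * Q ^ 12)] with m hm
  have hex : ∃ q, m + 1 < 36 * (q + 1) ^ 12 := ⟨m + 1, by
    have := Nat.le_self_pow (n := 12) (by norm_num) (m + 1 + 1)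
    omega⟩
  refine ⟨Nat.find hex, ?_, ?_, (Nat.find_spec hex).le⟩
  · by_contra h
    have h1 := Nat.find_spec hex
    have h2 := Nat.pow_le_pow_left (Nat.succ_le_of_lt (not_le.1 h)) 12
    simp only [Nat.succ_eq_add_one] at h2
    omega
  · rcases Nat.eq_zero_or_pos (Nat.find hex) with h | h
    · rw [h]
      omega
    · have h1 := Nat.find_min hex (show Nat.find hex - 1 < Nat.find hex by omega)
      rw [Nat.sub_add_cancel h] at h1
      omega

/-- Paper, PA: the parameters for a large dimension. -/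
theorem par_exists {r : ℕ} (hr : 0 < r) (K W : ℕ) {C ε : ℝ} (hC : 0 ≤ C) (hε : 0 < ε) :
    ∀ᶠ m : ℕ in atTop, ∃ (w t : ℕ) (δ : ℝ), W ≤ w ∧ 6 * r ^ 2 * t + r ≤ w ∧ 0 < δ ∧ δ ≤ 1 / 20 ∧
      36 ≤ δ ^ 6 * ((m : ℝ) + 1) ∧ ((K * w + r : ℕ) : ℝ) ≤ 2 * δ * ((m : ℝ) + 1) ∧
      ((K * w + r : ℕ) : ℝ) * δ ^ 2 ≤ 1 ∧ 2 ≤ δ * ((m : ℝ) + 1) ∧
      (1 / 6 + 4 * δ) ^ (K * w + r) ≤ (1 + ε) * (1 / 6 - 2 * δ) ^ (K * w + r) ∧
      (1 - 1 / 12 ^ r) ^ t * (C * ((m : ℝ) + 1) ^ 4) ≤ 1 ∧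
      C * ((m : ℝ) + 1) ^ 4 * Real.exp (-(δ ^ 2 * ((m : ℝ) + 1) / 8)) ≤ ε := by
  have q0 : (0 : ℝ) ≤ 1 - 1 / 12 ^ r :=
    sub_nonneg.2 (div_le_one_of_le₀ (one_le_pow₀ (by norm_num)) (by positivity))
  have q1 : (1 : ℝ) - 1 / 12 ^ r < 1 := by
    have : (0 : ℝ) < 1 / 12 ^ r := by positivity
    linarith
  have e1 := (Nat.tendsto_div_const_atTop (show 6 * r ^ 2 ≠ 0 by positivity)).comp
    (tendsto_sub_atTop_nat r) |>.eventually
      (par_poly q0 q1 (C * (36 * (8 * (r : ℝ) ^ 2) ^ 12) ^ 4) 48 one_pos)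
  have e2 := par_poly (Real.exp_pos (-1)).le (Real.exp_lt_one_iff.2 (by norm_num)) (C * 36 ^ 4) 48 hε
  have hl : 0 < Real.log (1 + ε) := Real.log_pos (by linarith)
  obtain ⟨Q, hQ⟩ := eventually_atTop.1 (e1.and (e2.and ((ev_ge_mul hl (90 * (K + 1))).and
    (eventually_ge_atTop (W + r + K + 5)))))
  filter_upwards [par_root Q] with m ⟨q, a0, a1, a2⟩
  obtain ⟨b1, b2, b3, b4⟩ := hQ q a0
  have a1' : 36 * (q : ℝ) ^ 12 ≤ m + 1 := by exact_mod_cast a1
  have a2' : (m : ℝ) + 1 ≤ 36 * ((q : ℝ) + 1) ^ 12 := by exact_mod_cast a2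
  have c5 : (5 : ℝ) ≤ q := by exact_mod_cast (by omega : 5 ≤ q)
  have c0 : (0 : ℝ) < q := by linarith
  have c1 : (1 : ℝ) ≤ q := by linarith
  have cL : ((K * q + r : ℕ) : ℝ) ≤ (K + 1) * q := by
    exact_mod_cast (by rw [Nat.add_mul]; omega : K * q + r ≤ (K + 1) * q)
  have cK : (K : ℝ) + 1 ≤ q := by exact_mod_cast (by omega : K + 1 ≤ q)
  have cL2 : ((K * q + r : ℕ) : ℝ) ≤ q ^ 2 :=
    cL.trans ((mul_le_mul_of_nonneg_right cK c0.le).trans_eq (sq _).symm)
  have d0 : (0 : ℝ) < 1 / (q : ℝ) ^ 2 := by positivity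
  have d1 : 1 / (q : ℝ) ^ 2 ≤ 1 / 20 :=
    one_div_le_one_div_of_le (by norm_num) (by nlinarith only [c5])
  have p : ∀ i j : ℕ, i ≤ j → (q : ℝ) ^ i ≤ q ^ j := fun i j h => pow_le_pow_right₀ c1 h
  have d2 : 36 * (q : ℝ) ^ 10 ≤ 1 / (q : ℝ) ^ 2 * (m + 1) := by
    rw [one_div, inv_mul_eq_div, le_div_iff₀ (by positivity), mul_assoc, ← pow_add]
    exact a1'
  have d3 : (1 : ℝ) ≤ q ^ 2 := one_le_pow₀ c1
  have d4 := p 2 10 (by norm_num)
  refine ⟨q, (q - r) / (6 * r ^ 2), 1 / (q : ℝ) ^ 2, by omega, ?_, d0, d1, ?_,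
    by linarith only [cL2, d2, d3, d4], ?_, by linarith only [d2, d3, d4], ?_, ?_, ?_⟩
  · have := Nat.mul_div_le (q - r) (6 * r ^ 2)
    omega
  · rw [one_div, inv_pow, ← pow_mul, inv_mul_eq_div, le_div_iff₀ (by positivity)]
    exact a1'
  · rw [one_div, inv_pow, ← pow_mul, ← div_eq_mul_inv, div_le_one (by positivity)]
    exact cL2.trans (p _ _ (by norm_num))
  · obtain ⟨δ, hδ⟩ : ∃ δ : ℝ, δ = 1 / (q : ℝ) ^ 2 := ⟨_, rfl⟩
    rw [← hδ] at d0 d1 ⊢
    have f1 : 1 / 6 + 4 * δ ≤ Real.exp (90 * δ) * (1 / 6 - 2 * δ) := by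
      have := mul_le_mul_of_nonneg_right (Real.add_one_le_exp (90 * δ))
        (show 0 ≤ 1 / 6 - 2 * δ by linarith only [d1])
      nlinarith only [this, d0, d1]
    refine (pow_le_pow_left₀ (by positivity) f1 _).trans ?_
    rw [mul_pow, ← Real.exp_nat_mul]
    refine mul_le_mul_of_nonneg_right ?_ (pow_nonneg (by linarith) _)
    rw [← Real.le_log_iff_exp_le (by linarith)]
    have f2 : δ * q * q = 1 := by
      rw [hδ]
      field_simp
    have f3 := mul_le_mul_of_nonneg_right cL (show 0 ≤ 90 * δ by positivity)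
    have f4 := mul_le_mul_of_nonneg_right b3 (show 0 ≤ δ * q by positivity)
    have f5 : Real.log (1 + ε) * q * (δ * q) = Real.log (1 + ε) * (δ * q * q) := by ring
    rw [f5, f2] at f4
    linarith only [f3, f4]
  · refine le_trans (mul_le_mul_of_nonneg_left ?_ (pow_nonneg q0 _)) b1
    have f1 : q + 1 ≤ 8 * r ^ 2 * ((q - r) / (6 * r ^ 2) + 1) := by
      have g1 := Nat.lt_mul_div_succ (q - r) (show 0 < 6 * r ^ 2 by positivity)
      have g2 : r ≤ r ^ 2 := Nat.le_self_pow two_ne_zero r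
      have g3 : r ^ 2 ≤ r ^ 2 * ((q - r) / (6 * r ^ 2) + 1) :=
        Nat.le_mul_of_pos_right _ (Nat.succ_pos _)
      rw [Nat.mul_assoc] at g1 ⊢
      omega
    have f2 : (q : ℝ) + 1 ≤ 8 * (r : ℝ) ^ 2 * ((((q - r) / (6 * r ^ 2) : ℕ) : ℝ) + 1) := by
      exact_mod_cast f1
    calc C * ((m : ℝ) + 1) ^ 4 ≤ C * (36 * (8 * (r : ℝ) ^ 2 *
          ((((q - r) / (6 * r ^ 2) : ℕ) : ℝ) + 1)) ^ 12) ^ 4 := by
          gcongr
          exact a2'.trans (by gcongr)
      _ = _ := by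
          simp only [Function.comp]
          ring
  · refine le_trans ?_ b2
    rw [← Real.exp_nat_mul, mul_comm (Real.exp _)]
    refine mul_le_mul ?_ (Real.exp_le_exp.2 ?_) (Real.exp_pos _).le (by positivity)
    · calc C * ((m : ℝ) + 1) ^ 4 ≤ C * (36 * ((q : ℝ) + 1) ^ 12) ^ 4 := by gcongr
        _ = _ := by ring
    · have f1 : 36 * (q : ℝ) ^ 8 ≤ (1 / (q : ℝ) ^ 2) ^ 2 * (m + 1) := by
        rw [one_div, inv_pow, ← pow_mul, inv_mul_eq_div, le_div_iff₀ (by positivity), mul_assoc,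
          ← pow_add]
        exact a1'
      have f2 := p 1 8 (by norm_num)
      rw [pow_one] at f2
      linarith only [f1, f2, c0]

end Pool.Agent.Work.MP_84019e_co.Sg
end

-- merged part: Pool.Agent.Work.MP_84019e_co.Sg.Src
section
set_option autoImplicit false

namespace Pool.Agent.Work.MP_84019e_co.Sg

open Finset Pool.Agent.Work.MP_84019e_co.Cube Pool.Agent.Work.MP_84019e_co.Str
open Filter Topology

lemma src_width (m k : ℕ) (hk : 0 < k) :
    (k : ℝ) ^ m ≤ 6 * ((m : ℝ) + 1) * G (Fin 2) (m + 1) k := by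
  refine (width_lower m k hk).trans ?_
  have h0 : (0 : ℝ) ≤ m := Nat.cast_nonneg m
  have h1 : √((m : ℝ) + 1) ≤ (m : ℝ) + 1 := by
    rw [Real.sqrt_le_left (by positivity)]
    nlinarith
  gcongr

lemma src_big {lam ε x n w T G0 G1 Fc bp bm : ℝ} (hε : 0 < ε) (hx0 : 0 < x) (hx1 : x ≤ 1)
    (hx : x * (3 * |lam| + 1) ≤ ε) (hn : 0 ≤ n) (hw : 2 * w ≤ x * n) (hT : 0 ≤ T) (hG0 : 0 ≤ G0)
    (hG1 : 0 ≤ G1) (hG : G1 ≤ (1 + x) * G0) (hF : lam * G0 ≤ Fc) (hFT : Fc ≤ T + x * G1)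
    (hbp : 0 ≤ bp) (hbm : 0 ≤ bm) (hb : bp ≤ (1 + x) * bm) :
    (lam - ε) * (n * (bp * G1)) ≤ (n - 2 * w + 1) * T * bm := by
  have h1 : (1 - x) * n ≤ n - 2 * w + 1 := by linarith
  have h2 : 0 ≤ (1 - x) * n := mul_nonneg (by linarith) hn
  rcases le_or_gt lam ε with h | h
  · have h3 : (lam - ε) * (n * (bp * G1)) ≤ 0 :=
      mul_nonpos_of_nonpos_of_nonneg (by linarith) (by positivity)
    exact h3.trans (mul_nonneg (mul_nonneg (h2.trans h1) hT) hbm)
  · have hl : 0 < lam := hε.trans h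
    rw [abs_of_pos hl] at hx
    have h3 : lam * (1 - x) * G1 ≤ lam * G0 := by
      calc lam * (1 - x) * G1 ≤ lam * (1 - x) * ((1 + x) * G0) :=
            mul_le_mul_of_nonneg_left hG (mul_nonneg hl.le (by linarith))
        _ = lam * G0 - x ^ 2 * (lam * G0) := by ring
        _ ≤ lam * G0 := sub_le_self _ (by positivity)
    have h4 : (lam * (1 - x) - x) * G1 ≤ T := by linarith
    have h5 : (lam - ε) * (1 + x) ≤ (1 - x) * (lam * (1 - x) - x) := by
      have := mul_pos hε hx0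
      have := mul_pos hl (mul_pos hx0 hx0)
      have := mul_pos hx0 hx0
      nlinarith
    calc (lam - ε) * (n * (bp * G1)) ≤ (lam - ε) * (n * ((1 + x) * bm * G1)) := by
          have : 0 ≤ lam - ε := by linarith
          gcongr
      _ = (lam - ε) * (1 + x) * (n * G1 * bm) := by ring
      _ ≤ (1 - x) * (lam * (1 - x) - x) * (n * G1 * bm) :=
          mul_le_mul_of_nonneg_right h5 (by positivity)
      _ = (1 - x) * n * ((lam * (1 - x) - x) * G1) * bm := by ring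
      _ ≤ (1 - x) * n * T * bm :=
          mul_le_mul_of_nonneg_right (mul_le_mul_of_nonneg_left h4 h2) hbm
      _ ≤ (n - 2 * w + 1) * T * bm :=
          mul_le_mul_of_nonneg_right (mul_le_mul_of_nonneg_right h1 hT) hbm

variable (P : Type) [PartialOrder P] [Fintype P] [Nonempty P]

/-- Paper, SR: dense families in the grid are sources. -/
theorem src_g (lam : ℝ) {ε : ℝ} (hε : 0 < ε) (W : ℕ) : ∀ᶠ m : ℕ in atTop, ∀ᶠ k : ℕ in atTop,
    lam * G (Fin 2) (m + 1) k ≤ GS P (m + 1) k →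
      ∃ (n w k' t : ℕ) (δ : ℝ) (F : Finset (Fin (m + 1) → ℤ)), W ≤ w ∧
        Gr P (Fintype.card P) m n w k' t δ (lam - ε) F := by
  have hr : 0 < Fintype.card P := Fintype.card_pos
  obtain ⟨x, hx0, hx1, hx⟩ : ∃ x : ℝ, 0 < x ∧ x ≤ 1 ∧ x * (3 * |lam| + 1) ≤ ε :=
    ⟨min 1 (ε / (3 * |lam| + 1)), lt_min one_pos (by positivity), min_le_left _ _,
      (le_div_iff₀ (by positivity)).1 (min_le_right _ _)⟩
  obtain ⟨K, hK⟩ := exists_nat_ge (2 / x)
  have hK1 : 2 ≤ x * K := by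
    rw [div_le_iff₀ hx0] at hK
    linarith
  have hK2 : 2 ≤ K := by
    have h0 : (0 : ℝ) ≤ K := Nat.cast_nonneg K
    have : (2 : ℝ) ≤ K := by nlinarith
    exact_mod_cast this
  filter_upwards [par_exists hr K W (C := 864 * Fintype.card P) (by positivity) hx0,
    ap_near P, ap_atyp P] with m hpar hnear hatyp
  obtain ⟨w, t, δ, hW, htw, hδ0, hδ1, hdim, hlen, hsq, hside, hpow, hθ, hexp⟩ := hpar
  obtain ⟨k0, hk0⟩ := eventually_atTop.1 hnear
  filter_upwards [eventually_ge_atTop k0, width_round m hx0] with k hk hround hlam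
  generalize hk' : (m + 1) * (k / (m + 1) + 1) = k' at hround
  have hkk : k ≤ k' := hk' ▸ (Nat.lt_mul_div_succ k (Nat.succ_pos m)).le
  have hmk : m + 1 ≤ k' := hk' ▸ Nat.le_mul_of_pos_right _ (Nat.succ_pos _)
  have hmk' : (m : ℝ) + 1 ≤ k' := by exact_mod_cast hmk
  have hm0 : (0 : ℝ) ≤ m := Nat.cast_nonneg m
  have hs : 2 ≤ δ * k' := hside.trans (mul_le_mul_of_nonneg_left hmk' hδ0.le)
  obtain ⟨F, hFs, hFf, hFc⟩ := GS_spec (P := P) (m + 1) k'
  have hwid := src_width m k' (by omega)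
  have hwn : 2 * w ≤ K * w := Nat.mul_le_mul_right w hK2
  have hG1 : (0 : ℝ) ≤ G (Fin 2) (m + 1) k' := Nat.cast_nonneg _
  have hr' : (0 : ℝ) < Fintype.card P := by exact_mod_cast hr
  refine ⟨K * w, w, k', t, δ, F, hW, ⟨hδ0, hδ1, hdim, hlen, hsq, hs⟩, hFs, hFf, hwn, htw, ?_, ?_⟩
  · have h1 := hk0 k' (hk.trans hkk) F hFs hFf
    have h2 : ((K * w : ℕ) : ℝ) + Fintype.card P + 1 ≤ 3 * ((K * w : ℕ) : ℝ) := by
      have : K * w + Fintype.card P + 1 ≤ 3 * (K * w) := by omega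
      exact_mod_cast this
    have h3 : (0 : ℝ) ≤ (1 - 1 / 12 ^ Fintype.card P) ^ t := by
      refine pow_nonneg (sub_nonneg.2 ?_) t
      rw [div_le_one (by positivity)]
      exact one_le_pow₀ (by norm_num)
    calc _ ≤ (1 - 1 / 12 ^ Fintype.card P) ^ t * (3 * ((K * w : ℕ) : ℝ) *
          (48 * Fintype.card P * ((m : ℝ) + 1) ^ 3 *
            (6 * ((m : ℝ) + 1) * G (Fin 2) (m + 1) k'))) := by
          refine mul_le_mul_of_nonneg_left (mul_le_mul h2 (h1.trans ?_) (Nat.cast_nonneg _)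
            (by positivity)) h3
          exact mul_le_mul_of_nonneg_left hwid (by positivity)
      _ = (1 - 1 / 12 ^ Fintype.card P) ^ t * (864 * Fintype.card P * ((m : ℝ) + 1) ^ 4) *
          (((K * w : ℕ) : ℝ) * G (Fin 2) (m + 1) k') := by ring
      _ ≤ _ := mul_le_of_le_one_left (by positivity) hθ
  · have h1 := hatyp (k / (m + 1) + 1) k' δ F hk'.symm hδ0 (by linarith) hside
      (by nlinarith) hFs hFf
    have h2 : 0 ≤ 1 / 6 - 2 * δ := by linarith
    unfold Om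
    refine src_big (x := x) (G0 := G (Fin 2) (m + 1) k) (Fc := F.card) hε hx0 hx1 hx
      (Nat.cast_nonneg _) ?_ (Nat.cast_nonneg _) (Nat.cast_nonneg _) hG1 hround ?_ ?_
      (by positivity) (by positivity) ?_
    · have h0 : (0 : ℝ) ≤ w := Nat.cast_nonneg w
      rw [Nat.cast_mul, ← mul_assoc]
      exact mul_le_mul_of_nonneg_right hK1 h0
    · rw [hFc]
      exact hlam.trans (by exact_mod_cast GS_mono (P := P) (m + 1) hkk)
    · refine h1.trans (add_le_add le_rfl ?_)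
      have h3 := Real.exp_pos (-(δ ^ 2 * ((m : ℝ) + 1) / 8))
      generalize Real.exp (-(δ ^ 2 * ((m : ℝ) + 1) / 8)) = E at h3 hexp ⊢
      calc _ ≤ 16 * Fintype.card P * ((m : ℝ) + 1) ^ 3 * E *
            (6 * ((m : ℝ) + 1) * G (Fin 2) (m + 1) k') :=
            mul_le_mul_of_nonneg_left hwid (by positivity)
        _ = 864 * Fintype.card P * ((m : ℝ) + 1) ^ 4 * E / 9 * G (Fin 2) (m + 1) k' := by ring
        _ ≤ x * G (Fin 2) (m + 1) k' := mul_le_mul_of_nonneg_right (by linarith) hG1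
    · rw [mul_pow _ (1 / 6 + 4 * δ), mul_pow _ (1 / 6 - 2 * δ), mul_left_comm]
      exact mul_le_mul_of_nonneg_left hpow (by positivity)

end Pool.Agent.Work.MP_84019e_co.Sg
end

-- merged part: Pool.Agent.Work.MP_84019e_co.Sg.Low
section
set_option autoImplicit false

namespace Pool.Agent.Work.MP_84019e_co.Sg

open Finset Pool.Agent.Work.MP_84019e_co.Cube Pool.Agent.Work.MP_84019e_co.Str
open Filter Topology

variable {P : Type} [PartialOrder P]

theorem grid_avg_s {n d k : ℕ} (hk : d * (k - 1) ≤ n) {F : Finset (B n)} (hF : StrongFree P F) :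
    ∑ s ∈ range (n + 1), ((levZ d k s).card : ℝ) * pd (· ∈ F) s ≤ GS P d k := by
  classical
  have h1 : ∀ π : Pm n, ∑ x ∈ box d k, ind (img π (upAvgSet hk x) ∈ F) ≤ (GS P d k : ℝ) := by
    intro π
    rw [sum_ind]
    refine Nat.cast_le.2 (le_GS (filter_subset _ _) ?_)
    refine hF.of_map (fun x => img π (upAvgSet hk x)) (fun x hx => (mem_filter.1 hx).2) ?_
    intro x hx y hy
    exact ⟨fun hxy => img_subset.2 (upAvgSet_mono hk hxy), fun hxy =>
      upAvgSet_le hk (mem_filter.1 hx).1 (mem_filter.1 hy).1 (img_subset.1 hxy)⟩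
  have h2 := av_le h1
  rw [av_sum] at h2
  refine le_trans (le_of_eq ?_) h2
  have h3 : ∀ x ∈ box d k, (upAvgSet hk x).card ∈ range (n + 1) := fun x _ =>
    mem_range.2 (Nat.lt_succ_of_le (by simpa using card_le_univ (upAvgSet hk x)))
  rw [← sum_fiberwise_of_maps_to h3]
  refine sum_congr rfl fun s _ => ?_
  have h4 : levZ d k s = (box d k).filter fun x => (upAvgSet hk x).card = s := by
    refine filter_congr fun x hx => ?_
    rw [← card_upAvgSet hk hx]
    exact Nat.cast_inj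
  rw [h4, ← nsmul_eq_mul, ← sum_const]
  refine sum_congr rfl fun x hx => ?_
  rw [av_img (· ∈ F), (mem_filter.1 hx).2]

lemma far_sum {γ δ : ℝ} (hγ : 0 < γ) (hδ : 0 < δ) :
    ∀ᶠ n : ℕ in atTop, ∀ s : ℕ, γ * n ≤ |(s : ℝ) - n / 2| →
      ((n : ℝ) + 1) * n.choose s ≤ δ * n.choose (n / 2) := by
  filter_upwards [ev_ge_mul hγ 8, ev_ge_mul (show 0 < δ * γ ^ 4 by positivity) 128,
    eventually_gt_atTop 0] with n h8 h128 hn0 s hs
  have hn' : (1 : ℝ) ≤ n := by exact_mod_cast hn0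
  obtain ⟨i, hi⟩ : ∃ i, i = ⌊γ * n / 4⌋₊ := ⟨_, rfl⟩
  have i1 : (i : ℝ) ≤ γ * n / 4 := hi ▸ Nat.floor_le (by positivity)
  have i2 : γ * n / 8 ≤ i := by
    have := Nat.lt_floor_add_one (γ * n / 4)
    rw [← hi] at this
    linarith
  have hpow : (n : ℝ) + 1 ≤ δ * (1 + γ) ^ (i * 2) := by
    have h1 : 1 + (i : ℝ) * γ ≤ (1 + γ) ^ i := one_add_mul_le_pow (by linarith) i
    have h2 : γ * n / 8 * γ ≤ (1 + γ) ^ i := by
      linarith [mul_le_mul_of_nonneg_right i2 hγ.le]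
    have h3 := mul_le_mul_of_nonneg_left (pow_le_pow_left₀ (by positivity) h2 2) hδ.le
    have h4 := mul_le_mul_of_nonneg_right h128 (by positivity : (0 : ℝ) ≤ n / 64)
    rw [pow_mul]
    linarith
  have hup : ∀ t : ℕ, γ * n ≤ (t : ℝ) - n / 2 →
      ((n : ℝ) + 1) * n.choose t ≤ δ * n.choose (n / 2) := by
    intro t ht
    have h1 := tail_far_up hγ hn0 (i * 2) t (by push_cast; linarith)
    have h2 : (0 : ℝ) ≤ (n.choose t : ℝ) := Nat.cast_nonneg _
    linarith [mul_le_mul_of_nonneg_left h1 hδ.le, mul_le_mul_of_nonneg_right hpow h2]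
  rcases le_abs.1 hs with h | h
  · exact hup s h
  · have hsn : s ≤ n := by
      have : (s : ℝ) ≤ n := by linarith
      exact_mod_cast this
    rw [← Nat.choose_symm hsn]
    apply hup
    rw [Nat.cast_sub hsn]
    linarith

/-- Paper, U star. -/
theorem lower_s [Nonempty P] {π ε : ℝ} (hε : 0 < ε)
    (hπ : Tendsto (fun n : ℕ => (LaStar (Finset (Fin n)) P : ℝ) / (n.choose (n / 2) : ℝ)) atTop
      (𝓝 π)) :
    ∀ᶠ m : ℕ in atTop, ∀ᶠ k : ℕ in atTop, (π - ε) * G (Fin 2) (m + 1) k ≤ GS P (m + 1) k := by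
  rcases le_or_gt π ε with hle | hlt
  · exact Eventually.of_forall fun m => Eventually.of_forall fun k =>
      (mul_nonpos_of_nonpos_of_nonneg (sub_nonpos.2 hle) (Nat.cast_nonneg _)).trans
        (Nat.cast_nonneg _)
  have π0 : 0 < π := hε.trans hlt
  obtain ⟨δ, hδ, hδ1, hδ2⟩ : ∃ δ : ℝ, 0 < δ ∧ δ ≤ 1 / 20 ∧ δ * (32 * π) ≤ ε :=
    ⟨min (1 / 20) (ε / (32 * π)), by positivity, min_le_left _ _,
      (le_div_iff₀ (by positivity)).1 (min_le_right _ _)⟩
  have b0 : 0 < 1 - 16 * δ := by linarith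
  have e1 := hπ.eventually (lt_mem_nhds (sub_lt_self π (show 0 < ε / 4 by positivity)))
  filter_upwards [ev_ge_mul (pow_pos hδ 6) 36, eventually_gt_atTop 0] with m hm hm0
  obtain ⟨m, rfl⟩ : ∃ m', m = m' + 1 := ⟨m - 1, by omega⟩
  have hd : 36 ≤ δ ^ 6 * ((m + 1 : ℕ) + 1) :=
    hm.trans (mul_le_mul_of_nonneg_left (by linarith) (by positivity))
  have d0 : (0 : ℝ) < m + 2 := by positivity
  have tn : Tendsto (fun k : ℕ => (m + 2) * (k - 1)) atTop atTop :=
    tendsto_atTop_mono (fun k => Nat.le_mul_of_pos_left _ (by omega)) (tendsto_sub_atTop_nat 1)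
  filter_upwards [tn.eventually (e1.and (far_sum (γ := δ / (2 * (m + 2) ^ 2)) (δ := ε / 4)
      (by positivity) (by positivity))), ev_ge_mul hδ 2,
    ev_ge_mul hδ (2 * (m + 2) ^ 2), eventually_gt_atTop 0] with k hn a3 a4 hk0
  obtain ⟨n, hnk⟩ : ∃ n, n = (m + 2) * (k - 1) := ⟨_, rfl⟩
  rw [← hnk] at hn
  obtain ⟨a1, hfar⟩ := hn
  have hk : k = n / (m + 2) + 1 := by
    rw [hnk, Nat.mul_div_cancel_left _ (by omega)]
    omega
  have k1 : (1 : ℝ) ≤ k := by exact_mod_cast hk0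
  have k0 : (0 : ℝ) < k := by linarith
  have nk : (n : ℝ) ≤ (m + 2) * k := by
    have : n ≤ (m + 2) * k := hnk ▸ Nat.mul_le_mul_left _ (Nat.sub_le _ _)
    exact_mod_cast this
  have a2 : (k : ℝ) ^ (m + 1) ≤ (m + 2) * G (Fin 2) (m + 2) k := by
    have := two_le_G (m + 1) k
    rw [pow_succ] at this
    push_cast at this
    refine le_of_mul_le_mul_right (this.trans (le_of_eq ?_)) k0
    ring
  have hW : (δ / (2 * (m + 2) ^ 2) * n + (m + 2)) * (k : ℝ) ^ m ≤ δ * G (Fin 2) (m + 2) k := by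
    have t1 : (m + 2) * (δ / (2 * (m + 2) ^ 2) * n) ≤ δ * k / 2 :=
      (mul_le_mul_of_nonneg_left (mul_le_mul_of_nonneg_left nk (by positivity)) d0.le).trans
        (le_of_eq (by field_simp))
    have t2 : (m + 2) * (δ / (2 * (m + 2) ^ 2) * n + (m + 2)) ≤ δ * k := by linarith
    have t3 := mul_le_mul_of_nonneg_right t2 (show 0 ≤ (k : ℝ) ^ m by positivity)
    have t4 := mul_le_mul_of_nonneg_left a2 hδ.le
    refine le_of_mul_le_mul_left ?_ d0
    rw [pow_succ] at t4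
    linarith
  obtain ⟨F, hF, hFc⟩ := LaStar_spec (P := P) (Finset (Fin n))
  have g1 := grid_avg_s (d := m + 2) (k := k) hnk.ge hF
  have hk2 : 2 ≤ δ * (k : ℝ) ^ 2 := by nlinarith
  have w0 : (0 : ℝ) ≤ G (Fin 2) (m + 2) k := Nat.cast_nonneg _
  obtain ⟨Bq, hB⟩ : ∃ Bq, Bq = (1 - 16 * δ) * (G (Fin 2) (m + 2) k : ℝ) := ⟨_, rfl⟩
  have B0 : 0 ≤ Bq := hB ▸ mul_nonneg b0.le w0
  have C0 : (0 : ℝ) < n.choose (n / 2) := by exact_mod_cast Nat.choose_pos (Nat.div_le_self _ _)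
  have n0 : (0 : ℝ) < (n : ℝ) + 1 := by positivity
  have g3 : ∀ s ∈ range (n + 1), pd (· ∈ F) s * n.choose s * (((n : ℝ) + 1) * Bq) ≤
      ((n : ℝ) + 1) * n.choose (n / 2) * (((levZ (m + 2) k s).card : ℝ) * pd (· ∈ F) s) +
        ε / 4 * n.choose (n / 2) * Bq := fun s _ => by
    have q := pd_nonneg (· ∈ F) s
    rcases lt_or_ge |(s : ℝ) - n / 2| (δ / (2 * (m + 2) ^ 2) * n) with h | h
    · have t1 := upm_mid hδ hδ1 hd hk2 hk h hW
      have t2 : (n.choose s : ℝ) ≤ n.choose (n / 2) := by exact_mod_cast Nat.choose_le_middle s n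
      rw [← hB] at t1
      have t3 := mul_le_mul_of_nonneg_left (mul_le_mul t2 t1 B0 C0.le) (mul_nonneg q n0.le)
      have t4 : 0 ≤ ε / 4 * n.choose (n / 2) * Bq := by positivity
      linarith
    · have t3 := mul_le_mul_of_nonneg_right (hfar s h) B0
      have t5 := mul_le_mul_of_nonneg_right (pd_le_one (· ∈ F) s)
        (show 0 ≤ ((n : ℝ) + 1) * n.choose s * Bq by positivity)
      have t4 : 0 ≤ ((n : ℝ) + 1) * n.choose (n / 2) *
          (((levZ (m + 2) k s).card : ℝ) * pd (· ∈ F) s) :=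
        mul_nonneg (mul_pos n0 C0).le (mul_nonneg (Nat.cast_nonneg _) q)
      linarith
  have g4 := sum_le_sum g3
  rw [← sum_mul, ← upm_card, sum_add_distrib, ← mul_sum, sum_const, card_range, nsmul_eq_mul, hFc,
    Nat.cast_succ] at g4
  have g5 := mul_le_mul_of_nonneg_left g1 (mul_pos n0 C0).le
  have g6 := mul_le_mul_of_nonneg_right ((lt_div_iff₀ C0).1 a1).le (mul_nonneg n0.le B0)
  have g7 : (π - ε / 2) * Bq ≤ GS P (m + 2) k :=
    le_of_mul_le_mul_left (by linarith only [g4, g5, g6]) (mul_pos n0 C0)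
  have g8 : π - ε ≤ (π - ε / 2) * (1 - 16 * δ) := by linarith only [mul_pos hε hδ, hδ2]
  have g9 := mul_le_mul_of_nonneg_right g8 w0
  rw [hB] at g7
  show (π - ε) * G (Fin 2) (m + 2) k ≤ GS P (m + 2) k
  linarith only [g7, g9]

end Pool.Agent.Work.MP_84019e_co.Sg
end

-- merged part: Pool.Agent.Work.MP_84019e_co.Str.Final
section
set_option autoImplicit false

namespace Pool.Agent.Work.MP_84019e_co.Str

open Finset Pool.Agent.Work.MP_84019e_co.Cube
open Filter Topology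

lemma fin_card_le {n : ℕ} (F : Finset (B n)) {c : ℝ}
    (hc : ∀ A ∈ F, (n.choose A.card : ℝ) ≤ c) : (F.card : ℝ) ≤ c * Lub F := by
  rw [Lub_eq, mul_sum, card_eq_sum_ones, Nat.cast_sum]
  refine sum_le_sum fun A hA => ?_
  have h1 : A.card ≤ n := by simpa using card_le_univ A
  have h2 : (0 : ℝ) < n.choose A.card := by exact_mod_cast Nat.choose_pos h1
  rw [mul_one_div, le_div_iff₀ h2]
  simpa using hc A hA

lemma fin_mid_pos (n : ℕ) : (0 : ℝ) < n.choose (n / 2) := by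
  exact_mod_cast Nat.choose_pos (Nat.div_le_self n 2)

lemma fin_mid_le (n s : ℕ) : (n.choose s : ℝ) ≤ n.choose (n / 2) := by
  exact_mod_cast Nat.choose_le_middle s n

lemma fin_Lub_le {n : ℕ} (F : Finset (B n)) : Lub F ≤ n + 1 := by
  rw [← MM_zero]
  exact MM_le_succ F 0

lemma fin_far {δ : ℝ} (hδ : 0 < δ) : ∀ᶠ n : ℕ in atTop, ∀ s : ℕ, s ≤ n →
    (4 * s ≤ n ∨ 3 * n ≤ 4 * s) → (n.choose s : ℝ) * (n + 1) ≤ δ * n.choose (n / 2) := by
  have hρ : |(4 : ℝ) / 5| < 1 := by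
    rw [abs_lt]
    constructor <;> norm_num
  have h1 := (tendsto_pow_const_mul_const_pow_of_abs_lt_one 1 hρ).eventually
    (gt_mem_nhds (show (0 : ℝ) < δ / 16 by positivity))
  obtain ⟨J, hJ⟩ := eventually_atTop.1 h1
  filter_upwards [eventually_ge_atTop (8 * J + 8)] with n hn
  have key : ∀ s : ℕ, 3 * n ≤ 4 * s → (n.choose s : ℝ) * (n + 1) ≤ δ * n.choose (n / 2) := by
    intro s hs
    have hj := hJ (n / 8) (by omega)
    have a1 : ((n / 8 : ℕ) : ℝ) * 8 ≤ n := by exact_mod_cast Nat.div_mul_le_self n 8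
    have a2 : (3 : ℝ) * n ≤ 4 * s := by exact_mod_cast hs
    have h2 := tail_far_up (γ := 1 / 4) (by norm_num) (show 0 < n by omega) (n / 8) s (by linarith)
    have a3 : (n : ℝ) + 1 ≤ 16 * ((n / 8 : ℕ) : ℝ) := by
      exact_mod_cast (show n + 1 ≤ 16 * (n / 8) by omega)
    have a4 : ((4 : ℝ) / 5) ^ (n / 8) * (1 + 1 / 4) ^ (n / 8) = 1 := by
      rw [← mul_pow]
      norm_num
    have a5 : (0 : ℝ) ≤ n.choose s := Nat.cast_nonneg _
    have a6 : (0 : ℝ) < (1 + 1 / 4) ^ (n / 8) := by positivity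
    rw [pow_one] at hj
    have a7 : ((n : ℝ) + 1) ≤ δ * (1 + 1 / 4) ^ (n / 8) := by
      have := mul_le_mul_of_nonneg_right hj.le a6.le
      rw [mul_assoc, a4] at this
      linarith
    calc (n.choose s : ℝ) * (n + 1) ≤ n.choose s * (δ * (1 + 1 / 4) ^ (n / 8)) :=
          mul_le_mul_of_nonneg_left a7 a5
      _ = δ * (n.choose s * (1 + 1 / 4) ^ (n / 8)) := by ring
      _ ≤ _ := mul_le_mul_of_nonneg_left h2 hδ.le
  intro s hs h
  rcases h with h | h
  · rw [← Nat.choose_symm hs]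
    exact key _ (by omega)
  · exact key s h

variable (P : Type) [PartialOrder P] [Fintype P] [Nonempty P]

lemma src_s {δ : ℝ} (hδ : 0 < δ) : ∀ᶠ n : ℕ in atTop, ∃ F : Finset (B n), Sr P n (n / 4) F ∧
    (LaStar (Finset (Fin n)) P : ℝ) / (n.choose (n / 2) : ℝ) - δ ≤ Lub F := by
  classical
  filter_upwards [fin_far hδ, eventually_ge_atTop (20 * Fintype.card P + 20)] with n hn hbig
  obtain ⟨G, hG, hc⟩ := LaStar_spec (P := P) (Finset (Fin n))
  let p : B n → Prop := fun A => n / 4 ≤ A.card ∧ A.card + n / 4 ≤ n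
  refine ⟨G.filter p, ⟨hG.mono (filter_subset _ _), fun A hA => (mem_filter.1 hA).2, by omega,
    by omega, by omega⟩, ?_⟩
  have h0 := fin_mid_pos n
  have hn1 : (0 : ℝ) < (n : ℝ) + 1 := by positivity
  have h1 := fin_card_le (G.filter p) fun A _ => fin_mid_le n A.card
  have h2 : (((G.filter fun A => ¬ p A).card : ℕ) : ℝ) ≤
      δ * n.choose (n / 2) / (n + 1) * Lub (G.filter fun A => ¬ p A) := by
    refine fin_card_le _ fun A hA => ?_
    have h3 := (mem_filter.1 hA).2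
    have h5 : A.card ≤ n := by simpa using card_le_univ A
    rw [le_div_iff₀ hn1]
    refine hn _ h5 ?_
    simp only [p] at h3
    omega
  have h3 : δ * n.choose (n / 2) / (n + 1) * Lub (G.filter fun A => ¬ p A) ≤
      δ * n.choose (n / 2) := by
    refine (mul_le_mul_of_nonneg_left (fin_Lub_le _) (by positivity)).trans_eq ?_
    field_simp
  have h4 : ((G.filter p).card : ℝ) + ((G.filter fun A => ¬ p A).card : ℕ) = G.card := by
    exact_mod_cast card_filter_add_card_filter_not p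
  rw [sub_le_iff_le_add, div_le_iff₀ h0, ← hc]
  nlinarith

theorem strong_limit : ∃ π : ℝ,
    Tendsto (fun n : ℕ => (LaStar (Finset (Fin n)) P : ℝ) / (n.choose (n / 2) : ℝ)) atTop
      (𝓝 π) := by
  set r : ℕ → ℝ := fun n => (LaStar (Finset (Fin n)) P : ℝ) / (n.choose (n / 2) : ℝ) with hr
  obtain ⟨Λ, -, hΛ⟩ := Lub_bdd P
  have hb : IsBoundedUnder (· ≤ ·) atTop r := by
    refine ⟨Λ + 1, ?_⟩
    rw [eventually_map]
    filter_upwards [src_s P one_pos] with n hn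
    obtain ⟨F, h1, h2⟩ := hn
    have := hΛ _ _ F h1
    have e : r n = (LaStar (Finset (Fin n)) P : ℝ) / (n.choose (n / 2) : ℝ) := rfl
    linarith
  have hc : IsCoboundedUnder (· ≤ ·) atTop r :=
    isCoboundedUnder_le_of_le atTop (x := 0) fun n =>
      div_nonneg (Nat.cast_nonneg _) (Nat.cast_nonneg _)
  refine ⟨limsup r atTop, tendsto_order.2 ⟨fun a ha => ?_, fun a ha =>
    eventually_lt_of_limsup_lt ha hb⟩⟩
  obtain ⟨ε, hε, he⟩ : ∃ ε : ℝ, 0 < ε ∧ a + 4 * ε = limsup r atTop :=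
    ⟨(limsup r atTop - a) / 4, by linarith, by ring⟩
  have hf : ∃ᶠ n in atTop, a + 3 * ε < r n := frequently_lt_of_lt_limsup hc (by linarith)
  have hs : ∀ W : ℕ, ∃ (n w : ℕ) (F : Finset (B n)), W ≤ w ∧ Sr P n w F ∧ a + 2 * ε ≤ Lub F := by
    intro W
    obtain ⟨n, h1, ⟨F, h2, h3⟩, h4⟩ := (hf.and_eventually
      ((src_s P hε).and (eventually_ge_atTop (4 * W)))).exists
    refine ⟨n, n / 4, F, by omega, h2, le_trans ?_ h3⟩
    have : r n = (LaStar (Finset (Fin n)) P : ℝ) / (n.choose (n / 2) : ℝ) := rfl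
    linarith
  filter_upwards [transfer_s hε hs] with m hm
  have h1 : a + 2 * ε - ε ≤ r m := (le_div_iff₀ (fin_mid_pos m)).2 hm
  linarith

end Pool.Agent.Work.MP_84019e_co.Str
end

-- merged part: Pool.Agent.Work.MP_84019e_co.Sg.Final
section
set_option autoImplicit false

namespace Pool.Agent.Work.MP_84019e_co.Sg

open Finset Pool.Agent.Work.MP_84019e_co.Cube Pool.Agent.Work.MP_84019e_co.Str
open Filter Topology

variable (P : Type) [PartialOrder P] [Fintype P] [Nonempty P]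

theorem upper_s {π ε : ℝ} (hε : 0 < ε)
    (hπ : Tendsto (fun n : ℕ => (LaStar (Finset (Fin n)) P : ℝ) / (n.choose (n / 2) : ℝ)) atTop
      (𝓝 π)) :
    ∀ᶠ m : ℕ in atTop, ∀ᶠ k : ℕ in atTop,
      (GS P (m + 1) k : ℝ) ≤ (π + ε) * G (Fin 2) (m + 1) k := by
  by_contra hno
  rw [not_eventually] at hno
  have h3 : 0 < ε / 3 := by linarith
  have h1 := transfer_g (P := P) (lam := π + ε - ε / 3) h3 fun W => by
    obtain ⟨m, m1, m2⟩ := (hno.and_eventually (src_g P (π + ε) h3 W)).exists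
    rw [not_eventually] at m1
    obtain ⟨k, k1, k2⟩ := (m1.and_eventually m2).exists
    obtain ⟨n, w, k', t, δ, F, h⟩ := k2 (not_le.1 k1).le
    exact ⟨m, n, w, k', t, δ, F, h⟩
  have h2 : π + ε - ε / 3 - ε / 3 ≤ π := by
    refine ge_of_tendsto hπ ?_
    filter_upwards [h1] with n hn
    rwa [le_div_iff₀ (by exact_mod_cast Nat.choose_pos (Nat.div_le_self n 2))]
  linarith

theorem strong_full : ∃ π : ℝ,
    Tendsto (fun n : ℕ => (LaStar (Finset (Fin n)) P : ℝ) / (n.choose (n / 2) : ℝ)) atTop (𝓝 π) ∧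
    ∀ ε : ℝ, 0 < ε → ∀ᶠ d : ℕ in atTop, ∀ᶠ k : ℕ in atTop,
      |(LaStar (Fin d → Fin k) P : ℝ) / (width (Fin d → Fin k) : ℝ) - π| ≤ ε := by
  obtain ⟨π, hπ⟩ := strong_limit P
  refine ⟨π, hπ, fun ε hε => ?_⟩
  have h1 := (tendsto_sub_atTop_nat 1).eventually ((upper_s P hε hπ).and (lower_s hε hπ))
  filter_upwards [h1, eventually_ge_atTop 1] with d hd hd1
  obtain ⟨m, rfl⟩ : ∃ m, d = m + 1 := ⟨d - 1, by omega⟩
  rw [Nat.add_sub_cancel] at hd
  filter_upwards [hd.1, hd.2, eventually_gt_atTop 0] with k k1 k2 k0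
  have hG : (0 : ℝ) < G (Fin 2) (m + 1) k := by
    have b1 := width_lower m k k0
    have b2 : (0 : ℝ) < (k : ℝ) ^ m := by positivity
    by_contra hn
    have b3 : (G (Fin 2) (m + 1) k : ℝ) = 0 := le_antisymm (not_lt.1 hn) (Nat.cast_nonneg _)
    rw [b3, mul_zero] at b1
    linarith
  rw [LaStar_eq_GS, width_eq_La, La_eq_G, abs_le, le_sub_iff_add_le, sub_le_iff_le_add,
    le_div_iff₀ hG, div_le_iff₀ hG]
  constructor <;> linarith

end Pool.Agent.Work.MP_84019e_co.Sg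
end
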